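import Pool.Agent.Hhelper80.Depth.StdModel

/-!
# Existence, uniqueness and counting for solution structures
-/

set_option linter.all false

namespace Pool.Agent.Hhelper80.Depth

variable {S : Sys} {y : Var S.H → ℕ} {N : ℕ}

/-- value of a side of the system -/
def val (S : Sys) (y : Var S.H → ℕ) (side : Bool) : ℕ :=
  ∑ m : Fin (S.s side), ∏ i : Fin S.D, y (S.al side m i)

/-- the tuples of a side -/
abbrev Tup (S : Sys) (y : Var S.H → ℕ) (side : Bool) : Type :=
  Σ m : Fin (S.s side), ((i : Fin S.D) → Fin (y (S.al side m i)))

theorem card_tup (side : Bool) : Fintype.card (Tup S y side) = val S y side := by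
  simp [Tup, val, Fintype.card_sigma, Fintype.card_pi]

theorem ColData.card_eq (c : ColData S y N) (side : Bool) : N = val S y side := by
  rw [← card_tup side]
  let f : Fin N → Tup S y side := fun z => ⟨c.mon side z, fun i => ⟨c.crd side z i, c.bd side z i⟩⟩
  have hf : Function.Bijective f := by
    constructor
    · intro z z' h
      have h1 : c.mon side z = c.mon side z' := congrArg Sigma.fst h
      apply c.inj side h1
      have h2 : ∀ p q : Tup S y side, p = q → (fun i => ((p.2 i : Fin _) : ℕ)) =
          fun i => ((q.2 i : Fin _) : ℕ) := by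
        rintro p _ rfl; rfl
      exact h2 _ _ h
    · rintro ⟨m, t⟩
      obtain ⟨z, hz1, hz2⟩ := c.surj side m (fun i => t i) (fun i => (t i).2)
      refine ⟨z, ?_⟩
      subst hz1
      simp only [f]
      congr 1
      funext i
      exact Fin.ext (congrFun hz2 i)
  have := Fintype.card_congr (Equiv.ofBijective f hf)
  rw [Fintype.card_fin] at this
  exact this

theorem ColData.unique (c c' : ColData S y N) : c = c' := by
  have key : ∀ side z, c.mon side z = c'.mon side z ∧ c.crd side z = c'.crd side z := by
    intro side
    choose f hf1 hf2 using fun z => c'.surj side (c.mon side z) (c.crd side z) (c.bd side z)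
    have hmono : StrictMono f := by
      intro z z' hlt
      rw [c'.lt_iff side, hf1, hf1, hf2, hf2]
      exact (c.lt_iff side z z').1 hlt
    have hid : f = id := by
      apply (StrictMono.range_inj hmono strictMono_id).1
      rw [Set.range_id, Set.range_eq_univ]
      exact Finite.surjective_of_injective hmono.injective
    intro z
    have h1 := hf1 z
    have h2 := hf2 z
    rw [hid] at h1 h2
    exact ⟨h1.symm, h2.symm⟩
  have h1 : c.mon = c'.mon := by
    funext side z; exact (key side z).1
  have h2 : c.crd = c'.crd := by
    funext side z; exact (key side z).2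
  cases c; cases c'
  simp only at h1 h2
  subst h1; subst h2
  rfl

theorem ColData.exists (h : ∀ side, val S y side = N) : Nonempty (ColData S y N) := by
  classical
  let T : Bool → Type := fun side =>
    (Σₗ m : Fin (S.s side), Lex ((i : Fin S.D) → Fin (y (S.al side m i))))
  have hcard : ∀ side, Fintype.card (T side) = N := by
    intro side
    rw [← h side, ← card_tup side]
    exact Fintype.card_congr (Equiv.refl _)
  let e : (side : Bool) → Fin N ≃o T side := fun side =>
    Fintype.orderIsoFinOfCardEq (T side) (hcard side)
  refine ⟨{
    mon := fun side z => (ofLex (e side z)).1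
    crd := fun side z i => (ofLex (ofLex (e side z)).2 i : Fin _)
    bd := fun side z i => (ofLex (ofLex (e side z)).2 i).2
    surj := ?_
    lt_iff := ?_ }⟩
  · intro side m t ht
    refine ⟨(e side).symm (toLex ⟨m, toLex fun i => ⟨t i, ht i⟩⟩), ?_, ?_⟩
    · simp
    · funext i
      rw [OrderIso.apply_symm_apply]
      rfl
  · intro side z z'
    rw [← (e side).lt_iff_lt]
    generalize e side z = p
    generalize e side z' = q
    rw [Sigma.Lex.lt_def]
    constructor
    · rintro (h1 | ⟨h1, h2⟩)
      · exact Or.inl h1
      · refine Or.inr ⟨h1, ?_⟩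
        obtain ⟨m, t⟩ := p
        obtain ⟨m', t'⟩ := q
        change m = m' at h1
        subst h1
        obtain ⟨i, hi1, hi2⟩ := h2
        refine ⟨i, fun j hj => ?_, hi2⟩
        exact congrArg Fin.val (hi1 j hj)
    · rintro (h1 | ⟨h1, h2⟩)
      · exact Or.inl h1
      · refine Or.inr ⟨h1, ?_⟩
        obtain ⟨m, t⟩ := p
        obtain ⟨m', t'⟩ := q
        change m = m' at h1
        subst h1
        obtain ⟨i, hi1, hi2⟩ := h2
        refine ⟨i, fun j hj => ?_, hi2⟩
        exact Fin.ext (hi1 j hj)

instance : Finite (Elt S y N) := by
  haveI : Finite (Var S.H) := by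
    refine Finite.of_injective (β := Option S.H ⊕ (Fin 3)) (fun v => match v with
      | .n => .inr 0
      | .k => .inr 1
      | .b => .inr 2
      | .one => .inl none
      | .h i => .inl (some i)) ?_
    rintro (_ | _ | _ | _ | i) (_ | _ | _ | _ | j) h <;> simp_all
  refine Finite.of_injective (β := (Σ v : Var S.H, Fin (y v)) ⊕ (Fin (y .b) × Fin N))
    (fun a => match a with
      | .base v i => .inl ⟨v, i⟩
      | .cell l z => .inr (l, z)) ?_
  rintro (⟨v, i⟩ | ⟨l, z⟩) (⟨v', i'⟩ | ⟨l', z'⟩) h <;> simp_all

instance instFintypeVar {H : Type} [Fintype H] [DecidableEq H] : Fintype (Var H) :=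
  Fintype.ofEquiv (Fin 4 ⊕ H)
    { toFun := fun x => match x with
        | .inl 0 => .n
        | .inl 1 => .k
        | .inl 2 => .b
        | .inl 3 => .one
        | .inr i => .h i
      invFun := fun x => match x with
        | .n => .inl 0
        | .k => .inl 1
        | .b => .inl 2
        | .one => .inl 3
        | .h i => .inr i
      left_inv := by
        rintro (x | i)
        · fin_cases x <;> rfl
        · rfl
      right_inv := by rintro (_ | _ | _ | _ | i) <;> rfl }

instance instFintypeClr : Fintype (Clr S) :=
  Fintype.ofEquiv (Var S.H ⊕ (Unit ⊕ (Σ side : Bool, Fin (S.s side))))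
    { toFun := fun x => match x with
        | .inl v => .base v
        | .inr (.inl _) => .mid
        | .inr (.inr ⟨side, m⟩) => .edge side m
      invFun := fun x => match x with
        | .base v => .inl v
        | .mid => .inr (.inl ())
        | .edge side m => .inr (.inr ⟨side, m⟩)
      left_inv := by rintro (v | _ | ⟨side, m⟩) <;> rfl
      right_inv := by rintro (v | _ | ⟨side, m⟩) <;> rfl }

instance instFintypeRn {D : ℕ} : Fintype (Rn D) :=
  Fintype.ofEquiv (Fin 3 ⊕ Fin D)
    { toFun := fun x => match x with
        | .inl 0 => .lt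
        | .inl 1 => .up
        | .inl 2 => .row
        | .inr i => .co i
      invFun := fun x => match x with
        | .lt => .inl 0
        | .up => .inl 1
        | .row => .inl 2
        | .co i => .inr i
      left_inv := by
        rintro (x | i)
        · fin_cases x <;> rfl
        · rfl
      right_inv := by rintro (_ | _ | _ | i) <;> rfl }

instance instFiniteGV {C J E : Type} [Finite C] [Finite J] [Finite E] {R : J → E → E → Prop} :
    Finite (GV C J E R) := by
  refine Finite.of_injective (β := C ⊕ (J × Bool) ⊕ E ⊕ (J × E × E × Bool))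
    (fun a => match a with
      | .lab c => .inl c
      | .rlab j s => .inr (.inl (j, s))
      | .el a => .inr (.inr (.inl a))
      | .sub j a b s _ => .inr (.inr (.inr (j, a, b, s)))) ?_
  rintro (c | ⟨j, s⟩ | a | ⟨j, a, b, s, h1⟩) (c' | ⟨j', s'⟩ | a' | ⟨j', a', b', s', h1'⟩) h <;>
    simp_all

/-- the sorts of the structure have the right sizes -/
theorem siz_ecol (c : ColData S y N) (v : Var S.H) : siz (ecol c) v = y v := by
  unfold siz
  have : {a | ecol c a = .base v} = Set.range (fun i : Fin (y v) => (Elt.base v i : Elt S y N)) := by
    ext a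
    simp only [Set.mem_ofPred_eq, ecol_base_iff, Set.mem_range]
    exact exists_congr fun i => eq_comm
  rw [this, ← Set.image_univ, Set.ncard_image_of_injective _ (by
    intro i j h; simpa using h), Set.ncard_univ, Nat.card_eq_fintype_card, Fintype.card_fin]

end Pool.Agent.Hhelper80.Depth
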