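import Pool.Agent.Hhelper80.Depth.MRDP3
import Pool.Agent.Hhelper80.Depth.Count

/-!
# From recursively enumerable sets to Diophantine systems
-/

set_option linter.all false

namespace Pool.Agent.Hhelper80.Depth

/-- value of a sum of monomials -/
def evL {α : Type} (A : List (List α)) (x : α → ℕ) : ℕ := (A.map fun m => (m.map x).prod).sum

theorem evL_nil {α : Type} (x : α → ℕ) : evL [] x = 0 := rfl

theorem evL_cons {α : Type} (m : List α) (A : List (List α)) (x : α → ℕ) :
    evL (m :: A) x = (m.map x).prod + evL A x := by simp [evL]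

theorem evL_append {α : Type} (A B : List (List α)) (x : α → ℕ) :
    evL (A ++ B) x = evL A x + evL B x := by simp [evL]

/-- product of sums of monomials -/
def mulL {α : Type} (A B : List (List α)) : List (List α) := A.flatMap fun m => B.map (m ++ ·)

theorem evL_mulL {α : Type} (A B : List (List α)) (x : α → ℕ) :
    evL (mulL A B) x = evL A x * evL B x := by
  induction A with
  | nil => simp [mulL, evL_nil]
  | cons m A ih =>
    have h1 : mulL (m :: A) B = B.map (m ++ ·) ++ mulL A B := by simp [mulL]
    rw [h1, evL_append, evL_cons, ih, add_mul]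
    congr 1
    clear ih h1
    induction B with
    | nil => simp [evL_nil]
    | cons b B ih => simp only [List.map_cons, evL_cons, ih]; simp [mul_add]

theorem evL_replicate {α : Type} (n : ℕ) (x : α → ℕ) : evL (List.replicate n ([] : List α)) x = n := by
  simp [evL]

/-- polynomials as differences of sums of monomials -/
theorem isPoly_lists {α : Type} {f : (α → ℕ) → ℤ} (hf : IsPoly f) :
    ∃ A B : List (List α), ∀ x, f x = (evL A x : ℤ) - evL B x := by
  induction hf with
  | proj i => exact ⟨[[i]], [], fun x => by simp [evL]⟩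
  | const n =>
    refine ⟨List.replicate n.toNat [], List.replicate (-n).toNat [], fun x => ?_⟩
    rw [evL_replicate, evL_replicate]
    change n = _
    omega
  | sub _ _ ih1 ih2 =>
    obtain ⟨A, B, h⟩ := ih1
    obtain ⟨A', B', h'⟩ := ih2
    refine ⟨A ++ B', B ++ A', fun x => ?_⟩
    beta_reduce
    rw [h, h', evL_append, evL_append]
    push_cast
    ring
  | mul _ _ ih1 ih2 =>
    obtain ⟨A, B, h⟩ := ih1
    obtain ⟨A', B', h'⟩ := ih2
    refine ⟨mulL A A' ++ mulL B B', mulL A B' ++ mulL B A', fun x => ?_⟩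
    beta_reduce
    rw [h, h', evL_append, evL_append, evL_mulL, evL_mulL, evL_mulL, evL_mulL]
    push_cast
    ring

theorem IsPoly.subst' {α γ : Type} {f : (α → ℕ) → ℤ} (hf : IsPoly f) (G : α → (γ → ℕ) → ℕ)
    (hG : ∀ a, IsPoly fun x => (G a x : ℤ)) : IsPoly fun x => f (fun a => G a x) := by
  induction hf with
  | proj i => exact hG i
  | const n => exact IsPoly.const n
  | sub _ _ ih1 ih2 => exact ih1.sub ih2
  | mul _ _ ih1 ih2 => exact ih1.mul ih2

theorem IsPoly.sum' {γ ι : Type} (s : Finset ι) (f : ι → (γ → ℕ) → ℤ)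
    (hf : ∀ i, IsPoly (f i)) : IsPoly fun x => ∑ i ∈ s, f i x := by
  classical
  induction s using Finset.induction_on with
  | empty => simpa using IsPoly.const 0
  | insert a s ha ih =>
    have := (hf a).add ih
    simp only [Finset.sum_insert ha]
    exact this

/-- dependence on finitely many variables -/
theorem evL_congr {α : Type} (A : List (List α)) (x x' : α → ℕ)
    (h : ∀ a ∈ A.flatten, x a = x' a) : evL A x = evL A x' := by
  unfold evL
  congr 1
  apply List.map_congr_left
  intro m hm
  congr 1
  apply List.map_congr_left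
  intro a ha
  exact h a (List.mem_flatten.2 ⟨m, hm, ha⟩)

/-- the data extracted from a recursively enumerable set -/
structure PD (p : ℕ → Prop) where
  H : Type
  [finH : Fintype H]
  [decH : DecidableEq H]
  star : H
  A : List (List (Var H))
  B : List (List (Var H))
  le : ∀ y : Var H → ℕ, evL B y ≤ evL A y
  can : ∀ y : Var H → ℕ, (∀ h, y (.h h) = y .b) → evL A y = evL B y
  uni : ∀ y : Var H → ℕ, ¬ p (y .n) → evL A y = evL B y → ∀ h, y (.h h) = y .b
  sol : ∀ ν κ β, p ν → ∀ M, ∃ y : Var H → ℕ, y .n = ν ∧ y .k = κ ∧ y .b = β ∧ y .one = 1 ∧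
    (∀ h, β ≤ y (.h h)) ∧ M ≤ y (.h star) ∧ evL A y = evL B y

attribute [instance] PD.finH PD.decH

theorem exists_PD (p : ℕ → Prop) (hp : REPred p) : Nonempty (PD p) := by
  classical
  obtain ⟨β, P, hP⟩ := MRDP.re_dioph hp
  obtain ⟨A0, B0, hAB⟩ := isPoly_lists P.isPoly
  -- the relevant variables
  obtain ⟨F, hF⟩ : ∃ F : Finset β, ∀ b, (Sum.inr b : Unit ⊕ β) ∈ (A0 ++ B0).flatten → b ∈ F := by
    refine ⟨((A0 ++ B0).flatten.filterMap fun a => Sum.elim (fun _ => none) some a).toFinset, ?_⟩
    intro b hb
    rw [List.mem_toFinset, List.mem_filterMap]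
    exact ⟨_, hb, rfl⟩
  have hdep : ∀ x x' : Unit ⊕ β → ℕ, x (.inl ()) = x' (.inl ()) →
      (∀ b ∈ F, x (.inr b) = x' (.inr b)) → P x = P x' := by
    intro x x' h1 h2
    have key : ∀ a ∈ (A0 ++ B0).flatten, x a = x' a := by
      rintro (⟨⟩ | b) ha
      · exact h1
      · exact h2 b (hF b ha)
    change P.1 x = P.1 x'
    have e1 : evL A0 x = evL A0 x' := evL_congr _ _ _ fun a ha => key a (by
      rw [List.flatten_append]; exact List.mem_append_left _ ha)
    have e2 : evL B0 x = evL B0 x' := evL_congr _ _ _ fun a ha => key a (by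
      rw [List.flatten_append]; exact List.mem_append_right _ ha)
    have e3 := hAB x
    have e4 := hAB x'
    change P.1 x = _ at e3
    change P.1 x' = _ at e4
    rw [e3, e4, e1, e2]
  -- the hidden sorts
  let H : Type := Option ({b : β // b ∈ F} × Fin 4)
  let df : H → (Var H → ℕ) → ℤ := fun h y => (y (.h h) : ℤ) - y .b
  have hdf : ∀ h, IsPoly (df h) := fun h => (IsPoly.proj (Var.h h)).sub (IsPoly.proj Var.b)
  let G : Unit ⊕ β → (Var H → ℕ) → ℕ := fun a y => match a with
    | .inl _ => y .n
    | .inr b => if h : b ∈ F then ∑ j : Fin 4, (df (some (⟨b, h⟩, j)) y).natAbs ^ 2 else 0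
  have hG : ∀ a, IsPoly fun y => (G a y : ℤ) := by
    rintro (⟨⟩ | b)
    · exact IsPoly.proj Var.n
    · by_cases h : b ∈ F
      · have : (fun y => ((G (.inr b) y : ℕ) : ℤ)) =
            fun y => ∑ j : Fin 4, (df (some (⟨b, h⟩, j)) y * df (some (⟨b, h⟩, j)) y) := by
          funext y
          simp only [G, dif_pos h]
          push_cast
          refine Finset.sum_congr rfl fun j _ => ?_
          rw [sq_abs, sq]
        rw [this]
        exact IsPoly.sum' _ _ fun j => (hdf _).mul (hdf _)
      · have : (fun y => ((G (.inr b) y : ℕ) : ℤ)) = fun y => ((0 : ℤ)) := by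
          funext y
          simp only [G, dif_neg h]
          rfl
        rw [this]
        exact IsPoly.const 0
  let Q : (Var H → ℕ) → ℤ := fun y => P.1 (fun a => G a y)
  have hQ : IsPoly Q := IsPoly.subst' P.2 G hG
  let F1 : (Var H → ℕ) → ℤ := fun y => (∑ h : H, df h y * df h y) * (Q y * Q y)
  have hF1 : IsPoly F1 := (IsPoly.sum' _ _ fun h => (hdf h).mul (hdf h)).mul (hQ.mul hQ)
  obtain ⟨A, B, hAB1⟩ := isPoly_lists hF1
  have hnn : ∀ y, 0 ≤ F1 y := fun y =>
    mul_nonneg (Finset.sum_nonneg fun h _ => mul_self_nonneg _) (mul_self_nonneg _)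
  have hzero : ∀ y, evL A y = evL B y ↔ F1 y = 0 := by
    intro y
    rw [hAB1]
    omega
  have hF1zero : ∀ y, F1 y = 0 ↔ (∀ h, y (.h h) = y .b) ∨ Q y = 0 := by
    intro y
    simp only [F1, mul_eq_zero, or_self]
    apply or_congr _ Iff.rfl
    rw [Finset.sum_eq_zero_iff_of_nonneg (fun h _ => mul_self_nonneg _)]
    simp only [Finset.mem_univ, true_imp_iff, mul_self_eq_zero, df]
    apply forall_congr'
    intro h
    omega
  have hQp : ∀ y, Q y = 0 → p (y .n) := by
    intro y hy
    have h1 : (fun _ : Unit => y .n) ∈ {v : Unit → ℕ | p (v ())} := by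
      refine (hP _).2 ⟨fun b => G (.inr b) y, ?_⟩
      rw [← hy]
      change P.1 _ = P.1 _
      refine congrArg P.1 (funext fun a => ?_)
      rcases a with ⟨⟩ | b
      · rfl
      · rfl
    exact h1
  refine ⟨{ H := H, star := none, A := A, B := B, le := ?_, can := ?_, uni := ?_, sol := ?_ }⟩
  · intro y
    have h1 := hnn y
    rw [hAB1] at h1
    omega
  · intro y hy
    rw [hzero, hF1zero]
    exact Or.inl hy
  · intro y hy h
    rw [hzero, hF1zero] at h
    rcases h with h | h
    · exact h
    · exact absurd (hQp y h) hy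
  · intro ν κ β' hν M
    obtain ⟨t, ht⟩ := (hP (fun _ => ν)).1 hν
    choose q0 q1 q2 q3 hq using fun b : β => Nat.sum_four_squares (t b)
    let y : Var H → ℕ := fun v => match v with
      | .n => ν
      | .k => κ
      | .b => β'
      | .one => 1
      | .h none => β' + M
      | .h (some (b, j)) => β' + ![q0 b, q1 b, q2 b, q3 b] j
    refine ⟨y, rfl, rfl, rfl, rfl, ?_, ?_, ?_⟩
    · rintro (_ | ⟨b, j⟩)
      · exact Nat.le_add_right _ _
      · exact Nat.le_add_right _ _
    · exact Nat.le_add_left _ _
    · rw [hzero, hF1zero]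
      right
      rw [← ht]
      apply hdep
      · rfl
      · intro b hb
        simp only [G, dif_pos hb]
        change _ = t b
        rw [← hq b]
        simp only [df, y]
        rw [Fin.sum_univ_four]
        simp only [Matrix.cons_val_zero, Matrix.cons_val_one, Matrix.cons_val]
        push_cast
        simp only [add_sub_cancel_left, Int.natAbs_natCast]

end Pool.Agent.Hhelper80.Depth
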