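import Pool.Agent.Hhelper80.Depth.Encode

/-!
# First-order formulas over coloured relational structures, interpreted in their encoding graphs
-/

set_option linter.all false

namespace Pool.Agent.Hhelper80.Depth

/-- formulas about coloured relational structures -/
inductive SF (C J X : Type) : Type
  | col (c : C) (x : X)
  | rel (j : J) (x y : X)
  | eq (x y : X)
  | bot
  | imp (f g : SF C J X)
  | all (x : X) (f : SF C J X)

namespace SF

variable {C J X : Type} [DecidableEq X]

/-- semantics -/
def eval {E : Type} (col : E → C) (R : J → E → E → Prop) : (X → E) → SF C J X → Prop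
  | env, .col c x => col (env x) = c
  | env, .rel j x y => R j (env x) (env y)
  | env, .eq x y => env x = env y
  | _, .bot => False
  | env, .imp f g => eval col R env f → eval col R env g
  | env, .all x f => ∀ a : E, eval col R (Function.update env x a) f

/-- quantifier depth -/
def dep : SF C J X → ℕ
  | .col _ _ => 0
  | .rel _ _ _ => 0
  | .eq _ _ => 0
  | .bot => 0
  | .imp f g => max (dep f) (dep g)
  | .all _ f => dep f + 1

/-- negation -/
def not (f : SF C J X) : SF C J X := imp f bot
/-- conjunction -/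
def and (f g : SF C J X) : SF C J X := not (imp f (not g))
/-- disjunction -/
def or (f g : SF C J X) : SF C J X := imp (not f) g
/-- equivalence -/
def iff (f g : SF C J X) : SF C J X := and (imp f g) (imp g f)
/-- existential quantifier -/
def ex (x : X) (f : SF C J X) : SF C J X := not (all x (not f))
/-- finite conjunction -/
def conj : List (SF C J X) → SF C J X
  | [] => imp bot bot
  | f :: l => and f (conj l)
/-- block of universal quantifiers -/
def alls : List X → SF C J X → SF C J X
  | [], f => f
  | x :: l, f => all x (alls l f)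
/-- a constant formula -/
def cst (p : Prop) [Decidable p] : SF C J X := if p then imp bot bot else bot
/-- conjunction over a finite type -/
noncomputable def conjT {ι : Type} [Fintype ι] (f : ι → SF C J X) : SF C J X :=
  conj ((Finset.univ : Finset ι).toList.map f)
/-- disjunction over a finite type -/
noncomputable def disjT {ι : Type} [Fintype ι] (f : ι → SF C J X) : SF C J X :=
  not (conjT fun i => not (f i))

section
variable {E : Type} (k : E → C) (R : J → E → E → Prop) (env : X → E) (f g : SF C J X)
  (x y : X)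

@[simp] theorem eval_col (c : C) : eval k R env (col c x) ↔ k (env x) = c := Iff.rfl
@[simp] theorem eval_rel (j : J) : eval k R env (rel j x y) ↔ R j (env x) (env y) := Iff.rfl
@[simp] theorem eval_eq : eval k R env (eq x y : SF C J X) ↔ env x = env y := Iff.rfl
@[simp] theorem eval_bot : eval k R env (bot : SF C J X) ↔ False := Iff.rfl
@[simp] theorem eval_imp : eval k R env (imp f g) ↔ (eval k R env f → eval k R env g) := Iff.rfl
@[simp] theorem eval_all : eval k R env (all x f) ↔
    ∀ a : E, eval k R (Function.update env x a) f := Iff.rfl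
@[simp] theorem eval_not : eval k R env (not f) ↔ ¬ eval k R env f := Iff.rfl
@[simp] theorem eval_and : eval k R env (and f g) ↔ (eval k R env f ∧ eval k R env g) := by
  simp [and]
@[simp] theorem eval_or : eval k R env (or f g) ↔ (eval k R env f ∨ eval k R env g) := by
  simp only [or, eval_imp, eval_not]; tauto
@[simp] theorem eval_iff : eval k R env (iff f g) ↔ (eval k R env f ↔ eval k R env g) := by
  simp only [iff, eval_and, eval_imp]; tauto
@[simp] theorem eval_ex : eval k R env (ex x f) ↔
    ∃ a : E, eval k R (Function.update env x a) f := by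
  simp [ex]
@[simp] theorem eval_conj (l : List (SF C J X)) :
    eval k R env (conj l) ↔ ∀ f ∈ l, eval k R env f := by
  induction l with
  | nil => simp [conj]
  | cons f l ih => simp [conj, ih]
@[simp] theorem eval_cst (p : Prop) [Decidable p] : eval k R env (cst p : SF C J X) ↔ p := by
  unfold cst
  split_ifs with h <;> simp [h]
@[simp] theorem eval_conjT {ι : Type} [Fintype ι] (f : ι → SF C J X) :
    eval k R env (conjT f) ↔ ∀ i, eval k R env (f i) := by
  simp [conjT]
@[simp] theorem eval_disjT {ι : Type} [Fintype ι] (f : ι → SF C J X) :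
    eval k R env (disjT f) ↔ ∃ i, eval k R env (f i) := by
  simp [disjT]

theorem eval_alls (l : List X) : eval k R env (alls l f) ↔
    ∀ env' : X → E, (∀ x, x ∉ l → env' x = env x) → eval k R env' f := by
  induction l generalizing env with
  | nil =>
    simp only [alls, List.not_mem_nil, not_false_eq_true, forall_const]
    constructor
    · intro h env' h'
      rwa [show env' = env from funext h']
    · intro h; exact h env (fun _ => rfl)
  | cons x l ih =>
    simp only [alls, eval_all]
    constructor
    · intro h env' h1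
      refine (ih _).1 (h (env' x)) env' ?_
      intro z hz
      by_cases hzx : z = x
      · subst hzx; simp
      · rw [Function.update_of_ne hzx]
        exact h1 z (by simp [hz, hzx])
    · intro h a
      refine (ih _).2 ?_
      intro env' h1
      apply h env'
      intro z hz
      rw [List.mem_cons, not_or] at hz
      rw [h1 z hz.2, Function.update_of_ne hz.1]

/-- invariance under isomorphism -/
theorem eval_congr {E' : Type} (k' : E' → C) (R' : J → E' → E' → Prop) (e : E ≃ E')
    (hk : ∀ a, k' (e a) = k a) (hR : ∀ j a b, R' j (e a) (e b) ↔ R j a b) :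
    eval k' R' (fun x => e (env x)) f ↔ eval k R env f := by
  induction f generalizing env with
  | col c x => simp [hk]
  | rel j x y => simp [hR]
  | eq x y => simp
  | bot => simp
  | imp f g hf hg => simp only [eval_imp, hf, hg]
  | all x f hf =>
    simp only [eval_all]
    have key : ∀ a : E, Function.update (fun x => e (env x)) x (e a) =
        fun z => e (Function.update env x a z) := by
      intro a
      funext z
      by_cases hz : z = x
      · subst hz; simp
      · simp [Function.update_of_ne hz]
    constructor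
    · intro h a
      rw [← hf, ← key]
      exact h (e a)
    · intro h a
      obtain ⟨a, rfl⟩ := e.surjective a
      rw [key, hf]
      exact h a

end

end SF

/-- variables for graph formulas -/
inductive Vr (C J X : Type) : Type
  | lab (l : C ⊕ (J × Bool))
  | v (x : X)
  | u (i : ℕ)
  deriving DecidableEq

namespace Fml

variable {X : Type} [DecidableEq X]

/-- a constant formula -/
def cst (p : Prop) [Decidable p] : Fml X := if p then imp bot bot else bot
/-- conjunction over a finite type -/
noncomputable def conjT {ι : Type} [Fintype ι] (f : ι → Fml X) : Fml X :=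
  conj ((Finset.univ : Finset ι).toList.map f)
/-- disjunction over a finite type -/
noncomputable def disjT {ι : Type} [Fintype ι] (f : ι → Fml X) : Fml X :=
  disj ((Finset.univ : Finset ι).toList.map f)

section
variable {V : Type} (G : SimpleGraph V) (env : X → V)

@[simp] theorem eval_cst (p : Prop) [Decidable p] : eval G env (cst p : Fml X) ↔ p := by
  unfold cst
  split_ifs with h <;> simp [h]
@[simp] theorem eval_conjT {ι : Type} [Fintype ι] (f : ι → Fml X) :
    eval G env (conjT f) ↔ ∀ i, eval G env (f i) := by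
  simp [conjT]
@[simp] theorem eval_disjT {ι : Type} [Fintype ι] (f : ι → Fml X) :
    eval G env (disjT f) ↔ ∃ i, eval G env (f i) := by
  simp [disjT]

@[simp] theorem dep_cst (p : Prop) [Decidable p] : dep (cst p : Fml X) = 0 := by
  unfold cst
  split_ifs with h <;> simp
theorem dep_conjT_le {ι : Type} [Fintype ι] (f : ι → Fml X) (k : ℕ) (h : ∀ i, dep (f i) ≤ k) :
    dep (conjT f) ≤ k := by
  apply dep_conj_le
  intro g hg
  simp only [List.mem_map] at hg
  obtain ⟨i, _, rfl⟩ := hg
  exact h i
theorem dep_disjT_le {ι : Type} [Fintype ι] (f : ι → Fml X) (k : ℕ) (h : ∀ i, dep (f i) ≤ k) :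
    dep (disjT f) ≤ k := by
  apply dep_disj_le
  intro g hg
  simp only [List.mem_map] at hg
  obtain ⟨i, _, rfl⟩ := hg
  exact h i
end
end Fml

section Tr

open Fml

variable {C J X : Type} [DecidableEq X] [DecidableEq C] [DecidableEq J] [Fintype C] [Fintype J]

/-- colour formula -/
def pcF (c : C) (x : Vr C J X) : Fml (Vr C J X) := adj x (.lab (.inl c))

/-- element formula -/
noncomputable def elF (x : Vr C J X) : Fml (Vr C J X) := disjT fun c : C => pcF c x

/-- relation formula -/
noncomputable def prF (j : J) (x y : Vr C J X) : Fml (Vr C J X) :=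
  and (elF x) (and (elF y) (ex (.u 0) (ex (.u 1) (conj [adj (.u 0) (.lab (.inr (j, false))),
    adj (.u 1) (.lab (.inr (j, true))), adj x (.u 0), adj (.u 0) (.u 1), adj (.u 1) y]))))

/-- translation of formulas about coloured structures to graph formulas -/
noncomputable def trS : SF C J X → Fml (Vr C J X)
  | .col c x => pcF c (.v x)
  | .rel j x y => prF j (.v x) (.v y)
  | .eq x y => .eq (.v x) (.v y)
  | .bot => .bot
  | .imp f g => .imp (trS f) (trS g)
  | .all x f => .all (.v x) (.imp (elF (.v x)) (trS f))

variable {V : Type} (G : SimpleGraph V) (env : Vr C J X → V)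

theorem eval_pcF (c : C) (x : Vr C J X) :
    Fml.eval G env (pcF c x) ↔ pc G (fun l => env (.lab l)) c (env x) := by
  simp [pcF, pc]

theorem eval_elF (x : Vr C J X) :
    Fml.eval G env (elF x) ↔ isEl G (fun l => env (.lab l)) (env x) := by
  simp [elF, eval_pcF, isEl]

theorem eval_prF (j : J) (x y : X) :
    Fml.eval G env (prF j (.v x) (.v y)) ↔
      pr G (fun l => env (.lab l)) j (env (.v x)) (env (.v y)) := by
  simp [prF, eval_elF, pr]

/-- the translation is correct -/
theorem eval_trS {E : Type} (k : E → C) (R : J → E → E → Prop) (m : E → V)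
    (L : C ⊕ (J × Bool) → V) (hinj : Function.Injective m)
    (hel : ∀ v, isEl G L v ↔ ∃ a, v = m a)
    (hc : ∀ c a, pc G L c (m a) ↔ k a = c)
    (hr : ∀ j a b, pr G L j (m a) (m b) ↔ R j a b)
    (f : SF C J X) (env : Vr C J X → V) (envE : X → E) (h1 : ∀ l, env (.lab l) = L l)
    (h2 : ∀ x, env (.v x) = m (envE x)) :
    Fml.eval G env (trS f) ↔ SF.eval k R envE f := by
  have hL : ∀ env : Vr C J X → V, (∀ l, env (.lab l) = L l) → (fun l => env (.lab l)) = L :=
    fun env h => funext h
  induction f generalizing env envE with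
  | col c x => rw [trS, eval_pcF, hL env h1, h2, hc]; rfl
  | rel j x y => rw [trS, eval_prF, hL env h1, h2, h2, hr]; rfl
  | eq x y =>
    rw [trS, Fml.eval_eq, h2, h2, hinj.eq_iff]; rfl
  | bot => rfl
  | imp f g hf hg =>
    exact imp_congr (hf env envE h1 h2) (hg env envE h1 h2)
  | all x f hf =>
    rw [trS, Fml.eval_all, SF.eval_all]
    have h1' : ∀ a l, Function.update env (.v x) a (.lab l) = L l := by
      intro a l
      rw [Function.update_of_ne (by simp)]
      exact h1 l
    simp only [Fml.eval_imp, eval_elF, Function.update_self]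
    simp only [hL _ (h1' _)]
    have h2' : ∀ (a : E) (z : X), Function.update env (.v x) (m a) (.v z) =
        m (Function.update envE x a z) := by
      intro a z
      by_cases hz : z = x
      · subst hz; simp
      · rw [Function.update_of_ne hz, Function.update_of_ne (by simpa using hz), h2]
    constructor
    · intro h a
      exact (hf _ _ (h1' _) (h2' a)).1 (h (m a) ((hel _).2 ⟨a, rfl⟩))
    · intro h v hv
      obtain ⟨a, rfl⟩ := (hel v).1 hv
      exact (hf _ _ (h1' _) (h2' a)).2 (h a)

theorem dep_elF (x : Vr C J X) : Fml.dep (elF x) ≤ 0 :=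
  dep_disjT_le _ _ fun c => by simp [pcF]

theorem dep_trS (f : SF C J X) : Fml.dep (trS f) ≤ SF.dep f + 2 := by
  induction f with
  | col c x => simp [trS, pcF, SF.dep]
  | rel j x y =>
    have h1 := dep_elF (C := C) (J := J) (.v x)
    have h2 := dep_elF (C := C) (J := J) (.v y)
    simp only [trS, prF, dep_and, dep_ex, SF.dep]
    simp only [conj, dep_and, dep_adj, dep_imp, dep_bot]
    omega
  | eq x y => simp [trS, SF.dep]
  | bot => simp [trS, SF.dep]
  | imp f g hf hg => simp only [trS, dep_imp, SF.dep]; omega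
  | all x f hf =>
    have h1 := dep_elF (C := C) (J := J) (.v x)
    simp only [trS, dep_all, dep_imp, SF.dep]; omega

/-- the axioms of encoding graphs, as a formula -/
noncomputable def frameF : Fml (Vr C J X) := conj [
  conjT fun x => conjT fun y => imp (Fml.cst (x ≠ y)) (not (eq (.lab x) (.lab y))),
  conjT fun x => conjT fun y => not (adj (.lab x) (.lab y)),
  all (.u 0) (or (disjT fun x => eq (.u 0) (.lab x)) (disjT fun x => adj (.u 0) (.lab x))),
  all (.u 0) (conjT fun x => conjT fun y => imp (Fml.cst (x ≠ y))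
    (imp (adj (.u 0) (.lab x)) (not (adj (.u 0) (.lab y))))),
  all (.u 0) (all (.u 1) (imp (elF (.u 0)) (imp (elF (.u 1)) (not (adj (.u 0) (.u 1)))))),
  conjT fun j : J => conjT fun s : Bool => all (.u 0) (imp (adj (.u 0) (.lab (.inr (j, s))))
    (ex (.u 1) (and (elF (.u 1)) (adj (.u 1) (.u 0))))),
  conjT fun j : J => conjT fun s : Bool => all (.u 0) (all (.u 1) (all (.u 2)
    (imp (adj (.u 0) (.lab (.inr (j, s)))) (imp (elF (.u 1)) (imp (elF (.u 2))
      (imp (adj (.u 1) (.u 0)) (imp (adj (.u 2) (.u 0)) (eq (.u 1) (.u 2))))))))),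
  conjT fun j : J => conjT fun s : Bool => all (.u 0) (imp (adj (.u 0) (.lab (.inr (j, s))))
    (ex (.u 1) (and (adj (.u 1) (.lab (.inr (j, !s)))) (adj (.u 0) (.u 1))))),
  conjT fun j : J => conjT fun s : Bool => all (.u 0) (all (.u 1) (all (.u 2)
    (imp (adj (.u 0) (.lab (.inr (j, s)))) (imp (adj (.u 1) (.lab (.inr (j, !s))))
      (imp (adj (.u 2) (.lab (.inr (j, !s)))) (imp (adj (.u 0) (.u 1)) (imp (adj (.u 0) (.u 2))
        (eq (.u 1) (.u 2))))))))),
  conjT fun j : J => conjT fun s : Bool => conjT fun j' : J => conjT fun s' : Bool =>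
    all (.u 0) (all (.u 1) (imp (Fml.cst (¬ (j = j' ∧ s' = !s)))
      (imp (adj (.u 0) (.lab (.inr (j, s)))) (imp (adj (.u 1) (.lab (.inr (j', s'))))
        (not (adj (.u 0) (.u 1))))))),
  conjT fun j : J => all (.u 0) (all (.u 1) (all (.u 2) (all (.u 3) (all (.u 4) (all (.u 5)
    (imp (adj (.u 0) (.lab (.inr (j, false)))) (imp (adj (.u 2) (.lab (.inr (j, false))))
    (imp (adj (.u 1) (.lab (.inr (j, true)))) (imp (adj (.u 3) (.lab (.inr (j, true))))
    (imp (elF (.u 4)) (imp (elF (.u 5)) (imp (adj (.u 4) (.u 0)) (imp (adj (.u 4) (.u 2))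
    (imp (adj (.u 5) (.u 1)) (imp (adj (.u 5) (.u 3)) (imp (adj (.u 0) (.u 1))
    (imp (adj (.u 2) (.u 3)) (eq (.u 0) (.u 2)))))))))))))))))))]

theorem eval_frameF : Fml.eval G env (frameF : Fml (Vr C J X)) ↔
    Frame G (fun l => env (.lab l)) := by
  rw [frameF, eval_conj]
  simp only [List.forall_mem_cons, List.not_mem_nil, false_imp_iff, forall_const, and_true]
  simp only [eval_conjT, eval_disjT, Fml.eval_cst, Fml.eval_imp, Fml.eval_not, Fml.eval_eq,
    Fml.eval_adj, Fml.eval_all, Fml.eval_ex, Fml.eval_or, Fml.eval_and, eval_elF,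
    Function.update_self, ne_eq, reduceCtorEq, not_false_eq_true, Function.update_of_ne,
    Vr.u.injEq, Nat.reduceEqDiff, one_ne_zero, zero_ne_one,
    OfNat.ofNat_ne_zero, OfNat.zero_ne_ofNat, OfNat.ofNat_ne_one, OfNat.one_ne_ofNat]
  constructor
  · rintro ⟨a1, a2, a3, a4, a5, a6, a7, a8, a9, a10, a11, -⟩
    exact ⟨a1, a2, a3, fun v x y => a4 v x y, a5, a6, a7, a8, a9,
      fun j s j' s' p q => a10 j s j' s' p q, fun j p q p' q' a b => a11 j p q p' q' a b⟩
  · intro h
    exact ⟨h.inj, h.lab, h.cov, h.uni, h.el_el, h.sub_el, h.sub_el_un, h.sub_sub, h.sub_sub_un,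
      h.sub_non, h.simple, fun _ => trivial⟩

theorem dep_frameF : Fml.dep (frameF : Fml (Vr C J X)) ≤ 6 := by
  have he : ∀ x : Vr C J X, Fml.dep (elF x) = 0 := fun x => Nat.le_zero.1 (dep_elF x)
  apply dep_conj_le
  simp only [List.forall_mem_cons, List.not_mem_nil, false_imp_iff, forall_const, and_true]
  refine ⟨?_, ?_, ?_, ?_, ?_, ?_, ?_, ?_, ?_, ?_, ?_, fun _ => trivial⟩
  · exact dep_conjT_le _ _ fun x => dep_conjT_le _ _ fun y => by simp
  · exact dep_conjT_le _ _ fun x => dep_conjT_le _ _ fun y => by simp
  · simp only [dep_all, dep_or]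
    have h1 := dep_disjT_le (X := Vr C J X) (fun x => eq (.u 0) (.lab x)) 0 (fun x => by simp)
    have h2 := dep_disjT_le (X := Vr C J X) (fun x => adj (.u 0) (.lab x)) 0 (fun x => by simp)
    omega
  · simp only [dep_all]
    refine Nat.succ_le_of_lt (Nat.lt_succ_of_le ?_)
    exact dep_conjT_le _ _ fun x => dep_conjT_le _ _ fun y => by simp
  · simp [he]
  · exact dep_conjT_le _ _ fun x => dep_conjT_le _ _ fun y => by simp [he]
  · exact dep_conjT_le _ _ fun x => dep_conjT_le _ _ fun y => by simp [he]
  · exact dep_conjT_le _ _ fun x => dep_conjT_le _ _ fun y => by simp [he]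
  · exact dep_conjT_le _ _ fun x => dep_conjT_le _ _ fun y => by simp [he]
  · exact dep_conjT_le _ _ fun x => dep_conjT_le _ _ fun y =>
      dep_conjT_le _ _ fun x => dep_conjT_le _ _ fun y => by simp [he]
  · exact dep_conjT_le _ _ fun x => by simp [he]

/-- the body of the sentence: the frame axioms and a formula about the coded structure -/
noncomputable def bodyF (φ : SF C J ℕ) : Fml (Vr C J ℕ) :=
  and (elF (.v 0)) (and frameF (trS φ))

/-- the sentence saying that the graph codes a structure satisfying `φ` -/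
noncomputable def sent (φ : SF C J ℕ) : Fml (Vr C J ℕ) :=
  exs ((Finset.univ : Finset (C ⊕ (J × Bool))).toList.map Vr.lab) (bodyF φ)

theorem dep_sent (φ : SF C J ℕ) :
    Fml.dep (sent φ) ≤ Fintype.card (C ⊕ (J × Bool)) + (SF.dep φ + 6) := by
  classical
  have h1 := dep_elF (C := C) (J := J) (X := ℕ) (.v 0)
  have h2 := dep_trS φ
  have h3 := dep_frameF (C := C) (J := J) (X := ℕ)
  simp only [sent, bodyF, dep_exs, dep_and, List.length_map, Finset.length_toList,
    Finset.card_univ]
  omega

theorem eval_bodyF {E : Type} (k : E → C) (R : J → E → E → Prop) (m : E → V)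
    (L : C ⊕ (J × Bool) → V) (hinj : Function.Injective m)
    (hel : ∀ v, isEl G L v ↔ ∃ a, v = m a)
    (hc : ∀ c a, pc G L c (m a) ↔ k a = c)
    (hr : ∀ j a b, pr G L j (m a) (m b) ↔ R j a b) (hF : Frame G L)
    (φ : SF C J ℕ) (env : Vr C J ℕ → V) (a : E) (h1 : ∀ l, env (.lab l) = L l)
    (h2 : ∀ x, env (.v x) = m a) :
    Fml.eval G env (bodyF φ) ↔ SF.eval k R (fun _ => a) φ := by
  have hL : (fun l => env (.lab l)) = L := funext h1
  rw [bodyF, Fml.eval_and, Fml.eval_and, eval_elF, eval_frameF, hL,
    eval_trS G k R m L hinj hel hc hr φ env (fun _ => a) h1 h2]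
  constructor
  · exact fun h => h.2.2
  · exact fun h => ⟨(hel _).2 ⟨a, h2 0⟩, hF, h⟩

theorem of_eval_bodyF (φ : SF C J ℕ) (env : Vr C J ℕ → V) (a : V) (h2 : ∀ x, env (.v x) = a)
    (h : Fml.eval G env (bodyF φ)) :
    ∃ (hF : Frame G (fun l => env (.lab l))) (ha : isEl G (fun l => env (.lab l)) a),
      SF.eval (decCol hF) (decRel hF) (fun _ => ⟨a, ha⟩) φ := by
  rw [bodyF, Fml.eval_and, Fml.eval_and, eval_elF, eval_frameF, h2] at h
  obtain ⟨ha, hF, h⟩ := h
  refine ⟨hF, ha, ?_⟩
  refine (eval_trS G (decCol hF) (decRel hF) Subtype.val _ Subtype.val_injective ?_ ?_ ?_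
    φ env (fun _ => ⟨a, ha⟩) (fun _ => rfl) h2).1 h
  · intro v
    exact ⟨fun hv => ⟨⟨v, hv⟩, rfl⟩, by rintro ⟨a, rfl⟩; exact a.2⟩
  · intro c a; exact decCol_iff hF a c
  · intro j a b; exact Iff.rfl

/-- the coding graph satisfies the body at the standard labels -/
theorem std_eval_bodyF {E : Type} (k : E → C) (R : J → E → E → Prop) (φ : SF C J ℕ) (a : E)
    (h : SF.eval k R (fun _ => a) φ) (env : Vr C J ℕ → GV C J E R)
    (h1 : ∀ l, env (.lab l) = stdLab l) (h2 : ∀ x, env (.v x) = .el a) :
    Fml.eval (GG k R) env (bodyF φ) := by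
  refine (eval_bodyF (GG k R) k R GV.el stdLab ?_ ?_ ?_ ?_ std_frame φ env a h1 h2).2 h
  · intro a b hab; simpa using hab
  · intro v; exact std_isEl v
  · intro c a
    rw [std_pc]
    constructor
    · rintro ⟨b, hb, hc⟩
      rw [GV.el.injEq] at hb
      rw [hb]; exact hc
    · intro h; exact ⟨a, rfl, h⟩
  · intro j a b
    rw [std_pr]
    constructor
    · rintro ⟨x, y, hx, hy, h⟩
      rw [GV.el.injEq] at hx hy
      rw [hx, hy]; exact h
    · intro h; exact ⟨a, b, rfl, rfl, h⟩

/-- the coding graph satisfies the sentence -/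
theorem sat_sent {E : Type} (k : E → C) (R : J → E → E → Prop) (φ : SF C J ℕ) (a : E)
    (h : SF.eval k R (fun _ => a) φ) : Sat (GG k R) (Fml.toSentence (sent φ)) := by
  rw [Fml.sat_toSentence]
  refine ⟨.el a, ?_⟩
  rw [sent, Fml.eval_exs]
  refine ⟨fun x => match x with
    | .lab l => stdLab l
    | .v _ => .el a
    | .u _ => .el a, ?_, ?_⟩
  · rintro (l | x | i) hx
    · simp at hx
    · rfl
    · rfl
  · exact std_eval_bodyF k R φ a h _ (fun _ => rfl) (fun _ => rfl)

/-- a graph satisfying the sentence codes a structure satisfying the formula -/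
theorem of_sat_sent (φ : SF C J ℕ) (h : Sat G (Fml.toSentence (sent φ))) :
    ∃ (L : C ⊕ (J × Bool) → V) (hF : Frame G L) (a : {v // isEl G L v}),
      SF.eval (decCol hF) (decRel hF) (fun _ => a) φ := by
  rw [Fml.sat_toSentence] at h
  obtain ⟨a, h⟩ := h
  rw [sent, Fml.eval_exs] at h
  obtain ⟨env', h1, h2⟩ := h
  obtain ⟨hF, ha, h3⟩ := of_eval_bodyF G φ env' a
    (fun x => h1 _ (by simp)) h2
  exact ⟨_, hF, ⟨a, ha⟩, h3⟩

end Tr

end Pool.Agent.Hhelper80.Depth
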