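import Pool.Agent.Hhelper80.Depth.Count
import Pool.Agent.Hhelper80.Depth.Interp

/-!
# The axioms as a first-order formula, and the size formulas
-/

set_option linter.all false

namespace Pool.Agent.Hhelper80.Depth

open SF

variable {S : Sys}

/-- formulas about solution structures -/
abbrev SFS (S : Sys) : Type := SF (Clr S) (Rn S.D) ℕ

/-- the axioms, as a formula -/
noncomputable def axF (S : Sys) : SFS S := conj [
  all 0 (not (rel .lt 0 0)),
  all 0 (all 1 (all 2 (imp (rel .lt 0 1) (imp (rel .lt 1 2) (rel .lt 0 2))))),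
  all 0 (all 1 (imp (rel .lt 0 1) (or
    (disjT fun v : Var S.H => and (col (.base v) 0) (col (.base v) 1))
    (ex 2 (and (rel .row 0 2) (rel .row 1 2)))))),
  conjT fun v : Var S.H => all 0 (all 1 (imp (col (.base v) 0) (imp (col (.base v) 1)
    (or (eq 0 1) (or (rel .lt 0 1) (rel .lt 1 0)))))),
  all 0 (all 1 (all 2 (imp (rel .row 0 2) (imp (rel .row 1 2)
    (or (eq 0 1) (or (rel .lt 0 1) (rel .lt 1 0))))))),
  all 0 (or (disjT fun v : Var S.H => col (.base v) 0) (ex 1 (rel .row 0 1))),
  all 0 (all 1 (all 2 (imp (rel .row 0 1) (imp (rel .row 0 2) (eq 1 2))))),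
  all 0 (all 1 (imp (rel .row 0 1) (and (conjT fun v : Var S.H => not (col (.base v) 0))
    (col (.base .b) 1)))),
  all 0 (all 1 (imp (rel .row 0 1) (iff (disjT fun m => col (.edge false m) 0)
    (all 2 (not (rel .lt 2 1)))))),
  all 0 (all 1 (imp (rel .row 0 1) (iff (disjT fun m => col (.edge true m) 0)
    (all 2 (not (rel .lt 1 2)))))),
  all 0 (all 1 (imp (rel .up 0 1) (ex 2 (ex 3 (and (rel .row 0 2) (and (rel .row 1 3)
    (and (rel .lt 2 3) (all 4 (not (and (rel .lt 2 4) (rel .lt 4 3))))))))))),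
  all 0 (all 1 (all 2 (imp (rel .row 0 1) (imp (rel .lt 1 2)
    (imp (all 3 (not (and (rel .lt 1 3) (rel .lt 3 2)))) (ex 3 (rel .up 0 3))))))),
  all 0 (all 1 (all 2 (imp (rel .row 0 2) (imp (rel .lt 1 2)
    (imp (all 3 (not (and (rel .lt 1 3) (rel .lt 3 2)))) (ex 3 (rel .up 3 0))))))),
  all 0 (all 1 (all 2 (imp (rel .up 0 1) (imp (rel .up 0 2) (eq 1 2))))),
  all 0 (all 1 (all 2 (all 3 (imp (rel .up 0 1) (imp (rel .up 2 3) (imp (rel .lt 0 2)
    (rel .lt 1 3))))))),
  conjT fun j : Fin S.D => all 0 (all 1 (imp (rel (.co j) 0 1) (disjT fun side : Bool =>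
    disjT fun m => and (col (.edge side m) 0) (col (.base (S.al side m j)) 1)))),
  conjT fun j : Fin S.D => conjT fun side : Bool => conjT fun m => all 0
    (imp (col (.edge side m) 0) (ex 1 (rel (.co j) 0 1))),
  conjT fun j : Fin S.D => all 0 (all 1 (all 2 (imp (rel (.co j) 0 1) (imp (rel (.co j) 0 2)
    (eq 1 2))))),
  conjT fun side : Bool => conjT fun m => alls ((List.finRange S.D).map fun j : Fin S.D => (j : ℕ) + 10)
    (imp (conjT fun j : Fin S.D => col (.base (S.al side m j)) ((j : ℕ) + 10))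
      (ex 0 (and (col (.edge side m) 0) (conjT fun j : Fin S.D =>
        rel (.co j) 0 ((j : ℕ) + 10))))),
  conjT fun side : Bool => conjT fun m : Fin (S.s side) => conjT fun m' => imp (cst (m < m'))
    (all 0 (all 1 (imp (col (.edge side m) 0) (imp (col (.edge side m') 1) (rel .lt 0 1))))),
  conjT fun side : Bool => conjT fun m : Fin (S.s side) => conjT fun i : Fin S.D =>
    all 0 (all 1 (imp (col (.edge side m) 0) (imp (col (.edge side m) 1)
      (imp (conjT fun j : Fin S.D => imp (cst (j < i)) (ex 2 (and (rel (.co j) 0 2)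
        (rel (.co j) 1 2))))
      (imp (ex 2 (ex 3 (and (rel (.co i) 0 2) (and (rel (.co i) 1 3) (rel .lt 2 3)))))
        (rel .lt 0 1)))))),
  conjT fun side : Bool => conjT fun m : Fin (S.s side) =>
    all 0 (all 1 (imp (col (.edge side m) 0) (imp (col (.edge side m) 1)
      (imp (conjT fun j : Fin S.D => (ex 2 (and (rel (.co j) 0 2)
        (rel (.co j) 1 2)))) (eq 0 1))))),
  ex 0 (and (col (.base .one) 0) (all 1 (imp (col (.base .one) 1) (eq 1 0))))]

theorem eval_allsFin {E : Type} (k : E → Clr S) (R : Rn S.D → E → E → Prop) {D : ℕ}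
    (env : ℕ → E) (f : SFS S) (P : (Fin D → E) → Prop)
    (h : ∀ env' : ℕ → E, eval k R env' f ↔ P (fun j => env' ((j : ℕ) + 10))) :
    eval k R env (alls ((List.finRange D).map fun j : Fin D => (j : ℕ) + 10) f) ↔
      ∀ u : Fin D → E, P u := by
  rw [eval_alls]
  constructor
  · intro h1 u
    have h2 := h1 (fun x => if hx : 10 ≤ x ∧ x - 10 < D then u ⟨x - 10, hx.2⟩ else env x) ?_
    · rw [h] at h2
      have : (fun j : Fin D => (fun x => if hx : 10 ≤ x ∧ x - 10 < D then u ⟨x - 10, hx.2⟩
          else env x) ((j : ℕ) + 10)) = u := by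
        funext j
        have hj : 10 ≤ (j : ℕ) + 10 ∧ (j : ℕ) + 10 - 10 < D := by
          have := j.2; omega
        simp only
        rw [dif_pos hj]
        congr 1
      rw [this] at h2
      exact h2
    · intro x hx
      rw [dif_neg]
      rintro ⟨h3, h4⟩
      apply hx
      exact List.mem_map.2 ⟨⟨x - 10, h4⟩, List.mem_finRange _, by simp only; omega⟩
  · intro h1 env' _
    rw [h]
    exact h1 _

theorem eval_axF {E : Type} (k : E → Clr S) (R : Rn S.D → E → E → Prop) (env : ℕ → E) :
    eval k R env (axF S) ↔ AM S k R := by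
  rw [axF, eval_conj]
  simp only [List.forall_mem_cons, List.not_mem_nil, false_imp_iff, and_true]
  have hsur : ∀ (side : Bool) (m : Fin (S.s side)), eval k R env
      (alls ((List.finRange S.D).map fun j : Fin S.D => (j : ℕ) + 10)
        (imp (conjT fun j : Fin S.D => col (.base (S.al side m j)) ((j : ℕ) + 10))
          (ex 0 (and (col (.edge side m) 0) (conjT fun j : Fin S.D =>
            rel (.co j) 0 ((j : ℕ) + 10)))))) ↔
      ∀ u : Fin S.D → E, (∀ j, k (u j) = .base (S.al side m j)) →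
        ∃ a, k a = .edge side m ∧ ∀ j, R (.co j) a (u j) := by
    intro side m
    apply eval_allsFin
    intro env'
    simp
  simp only [eval_conjT, hsur]
  simp only [eval_conjT, eval_disjT, SF.eval_cst, SF.eval_imp, SF.eval_not, SF.eval_eq,
    SF.eval_rel, SF.eval_col, SF.eval_all, SF.eval_ex, SF.eval_or, SF.eval_and, SF.eval_iff,
    Function.update_self, ne_eq, not_false_eq_true, Function.update_of_ne,
    Nat.reduceEqDiff, one_ne_zero, zero_ne_one,
    OfNat.ofNat_ne_zero, OfNat.zero_ne_ofNat, OfNat.ofNat_ne_one, OfNat.one_ne_ofNat]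
  constructor
  · rintro ⟨a1, a2, a3, a4, a5, a6, a7, a8, a9, a10, a11, a12, a13, a14, a15, a16, a17, a18,
      a19, a20, a21, a22, a23, -⟩
    exact ⟨a1, a2, a3, a4, a5, a6, a7, a8, a9, a10, a11, a12, a13, a14, a15, a16, a17, a18,
      a19, a20, a21, a22, a23⟩
  · intro h
    exact ⟨h.irr, h.trans, h.lt_cl, h.tot_base, h.tot_row, h.row_ex, h.row_un, h.row_cod,
      h.edge_min, h.edge_max, h.up_cod, h.up_tot, h.up_sur, h.up_fun, h.up_mono, h.co_cod,
      h.co_tot, h.co_un, h.co_sur, h.ord_mon, h.ord_lex, h.ord_eq, h.one, fun _ => trivial⟩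

/-! ### Size formulas -/

/-- the distance from `x` to `y` is `2 ^ j` -/
def delta : ℕ → ℕ → ℕ → ℕ → SFS S
  | 0, x, y, z => and (rel .lt x y) (all z (not (and (rel .lt x z) (rel .lt z y))))
  | j + 1, x, y, z => ex z (and (delta j x z y) (delta j z y x))

/-- the sort `v` has `2 ^ j + 1` elements -/
def sizeF (v : Var S.H) (j : ℕ) : SFS S :=
  ex 0 (ex 1 (and (col (.base v) 0) (and (all 2 (not (rel .lt 2 0)))
    (and (all 2 (not (rel .lt 1 2))) (delta j 0 1 2)))))

theorem sdep_not (f : SFS S) : SF.dep (not f) = SF.dep f := by simp [SF.not, SF.dep]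
theorem sdep_and (f g : SFS S) : SF.dep (and f g) = max (SF.dep f) (SF.dep g) := by
  simp [SF.and, SF.not, SF.dep]
theorem sdep_ex (x : ℕ) (f : SFS S) : SF.dep (ex x f) = SF.dep f + 1 := by
  simp [SF.ex, SF.not, SF.dep]

theorem dep_delta (j : ℕ) : ∀ x y z, SF.dep (delta j x y z : SFS S) = j + 1 := by
  induction j with
  | zero => intro x y z; simp [delta, sdep_and, sdep_not, SF.dep]
  | succ j ih => intro x y z; simp [delta, sdep_and, sdep_ex, ih]

theorem dep_sizeF (v : Var S.H) (j : ℕ) : SF.dep (sizeF v j : SFS S) = j + 3 := by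
  simp only [sizeF, sdep_ex, sdep_and, dep_delta]
  simp only [SF.dep, sdep_not]
  omega

variable {y : Var S.H → ℕ} {N : ℕ}

theorem eval_delta (c : ColData S y N) (j : ℕ) : ∀ (x w z : ℕ) (_ : x ≠ w) (_ : x ≠ z)
    (_ : w ≠ z) (env : ℕ → Elt S y N) (v : Var S.H) (i : Fin (y v)) (_ : env x = .base v i),
    (eval (ecol c) (erel c) env (delta j x w z) ↔
      ∃ i' : Fin (y v), env w = .base v i' ∧ (i' : ℕ) = i + 2 ^ j) := by
  induction j with
  | zero =>
    intro x w z hxw hxz hwz env v i hx
    simp only [delta, eval_and, eval_all, eval_not, eval_rel, Function.update_of_ne hxz,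
      Function.update_of_ne hwz, Function.update_self, hx]
    constructor
    · rintro ⟨h1, h2⟩
      rw [std_lt_base'] at h1
      obtain ⟨i', hi', hlt⟩ := h1
      refine ⟨i', hi', ?_⟩
      rw [hi'] at h2
      by_contra hne
      rw [Fin.lt_def] at hlt
      apply h2 (.base v ⟨i + 1, by omega⟩)
      simp only [erel, true_and]
      omega
    · rintro ⟨i', hi', hlt⟩
      rw [hi']
      refine ⟨by simp only [erel, true_and]; omega, ?_⟩
      rintro s ⟨h1, h2⟩
      rw [std_lt_base] at h2
      rw [std_lt_base'] at h1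
      obtain ⟨j, rfl, h2⟩ := h2
      obtain ⟨j', h3, h1⟩ := h1
      cases h3
      rw [Fin.lt_def] at h1 h2
      omega
  | succ j ih =>
    intro x w z hxw hxz hwz env v i hx
    simp only [delta, eval_and, eval_ex]
    have hpow : 2 ^ (j + 1) = 2 ^ j + 2 ^ j := by rw [pow_succ]; ring
    constructor
    · rintro ⟨a, h1, h2⟩
      rw [ih x z w hxz hxw hwz.symm _ v i (by rw [Function.update_of_ne hxz]; exact hx)] at h1
      obtain ⟨i1, hi1, hi2⟩ := h1
      rw [ih z w x hwz.symm hxz.symm hxw.symm _ v i1 hi1] at h2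
      obtain ⟨i2, hi3, hi4⟩ := h2
      rw [Function.update_of_ne hwz] at hi3
      exact ⟨i2, hi3, by rw [hi4, hi2, hpow]; ring⟩
    · rintro ⟨i2, hi3, hi4⟩
      have hpos : 0 < 2 ^ j := by positivity
      have hlt : (i : ℕ) + 2 ^ j < y v := by have := i2.2; omega
      refine ⟨.base v ⟨i + 2 ^ j, hlt⟩, ?_, ?_⟩
      · rw [ih x z w hxz hxw hwz.symm _ v i (by rw [Function.update_of_ne hxz]; exact hx)]
        exact ⟨_, by rw [Function.update_self], rfl⟩
      · rw [ih z w x hwz.symm hxz.symm hxw.symm _ v ⟨i + 2 ^ j, hlt⟩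
          (by rw [Function.update_self])]
        refine ⟨i2, by rw [Function.update_of_ne hwz]; exact hi3, ?_⟩
        simp only
        omega

theorem eval_sizeF (c : ColData S y N) (v : Var S.H) (j : ℕ) (env : ℕ → Elt S y N) :
    eval (ecol c) (erel c) env (sizeF v j) ↔ y v = 2 ^ j + 1 := by
  have hpos : 0 < 2 ^ j := by positivity
  simp only [sizeF, eval_ex, eval_and, eval_all, eval_not, eval_rel, eval_col,
    Function.update_self, ne_eq, not_false_eq_true, Function.update_of_ne,
    Nat.reduceEqDiff, one_ne_zero, zero_ne_one,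
    OfNat.ofNat_ne_zero, OfNat.zero_ne_ofNat, OfNat.ofNat_ne_one, OfNat.one_ne_ofNat]
  constructor
  · rintro ⟨a, b, h1, h2, h3, h4⟩
    rw [ecol_base_iff] at h1
    obtain ⟨i, rfl⟩ := h1
    rw [eval_delta c j 0 1 2 (by norm_num) (by norm_num) (by norm_num) _ v i (by simp)] at h4
    obtain ⟨i', hi', hi2⟩ := h4
    rw [Function.update_self] at hi'
    subst hi'
    have e1 : (i : ℕ) = 0 := by
      by_contra hne
      exact h2 (.base v ⟨0, by have := i.2; omega⟩) (by simp only [erel, true_and]; omega)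
    have e2 : (i' : ℕ) + 1 = y v := by
      by_contra hne
      have := i'.2
      exact h3 (.base v ⟨i' + 1, by omega⟩) (by simp only [erel, true_and]; omega)
    omega
  · intro hy
    refine ⟨.base v ⟨0, by omega⟩, .base v ⟨2 ^ j, by omega⟩, rfl, ?_, ?_, ?_⟩
    · intro s hs
      rw [std_lt_base] at hs
      obtain ⟨k, rfl, hk⟩ := hs
      rw [Fin.lt_def] at hk
      simp only at hk
      omega
    · intro s hs
      rw [std_lt_base'] at hs
      obtain ⟨k, rfl, hk⟩ := hs
      rw [Fin.lt_def] at hk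
      have := k.2
      simp only at hk
      omega
    · rw [eval_delta c j 0 1 2 (by norm_num) (by norm_num) (by norm_num) _ v ⟨0, by omega⟩
        (by simp)]
      exact ⟨⟨2 ^ j, by omega⟩, by simp, by simp⟩

end Pool.Agent.Hhelper80.Depth
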