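import Pool.Agent.Hhelper80.Depth.Gap

/-!
# Computability of the search for canonical graphs
-/

set_option linter.all false

namespace Pool.Agent.Hhelper80.Depth

open Primrec

/-- entry of a matrix -/
def ma (A : List (List Bool)) (i j : ℕ) : Bool := (A.getD i []).getD j false

theorem primrec_ma {α : Type} [Primcodable α] {f : α → List (List Bool)} {g h : α → ℕ}
    (hf : Primrec f) (hg : Primrec g) (hh : Primrec h) :
    Primrec fun a => ma (f a) (g a) (h a) :=
  (Primrec.list_getD false).comp ((Primrec.list_getD []).comp hf hg) hh

/-- evaluation of formulas over matrices -/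
def evM {X : Type} [DecidableEq X] (A : List (List Bool)) : (X → ℕ) → Fml X → Prop
  | env, .adj x y => ma A (env x) (env y) = true
  | env, .eq x y => env x = env y
  | _, .bot => False
  | env, .imp f g => evM A env f → evM A env g
  | env, .all x f => ∀ a ∈ List.range A.length, evM A (Function.update env x a) f

theorem length_adjMatrixList {n : ℕ} (G : SimpleGraph (Fin n)) [DecidableRel G.Adj] :
    (adjMatrixList G).length = n := by simp [adjMatrixList]

theorem ma_adjMatrixList {n : ℕ} (G : SimpleGraph (Fin n)) [DecidableRel G.Adj] (i j : Fin n) :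
    ma (adjMatrixList G) i j = decide (G.Adj i j) := by
  have h1 : (adjMatrixList G).getD i [] = List.ofFn fun j => decide (G.Adj i j) := by
    rw [List.getD_eq_getElem _ _ (by simp [adjMatrixList])]
    simp [adjMatrixList]
  unfold ma
  rw [h1, List.getD_eq_getElem _ _ (by simp)]
  simp

theorem evM_iff {X : Type} [DecidableEq X] {n : ℕ} (G : SimpleGraph (Fin n))
    [DecidableRel G.Adj] (f : Fml X) (env : X → Fin n) :
    evM (adjMatrixList G) (fun x => (env x : ℕ)) f ↔ Fml.eval G env f := by
  induction f generalizing env with
  | adj x y =>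
    simp only [evM, Fml.eval_adj]
    rw [ma_adjMatrixList]
    simp
  | eq x y => simp only [evM, Fml.eval_eq, Fin.ext_iff]
  | bot => exact Iff.rfl
  | imp f g hf hg => exact imp_congr (hf env) (hg env)
  | all x f hf =>
    simp only [evM, Fml.eval_all, List.mem_range, length_adjMatrixList]
    have key : ∀ a : Fin n, Function.update (fun x => ((env x : Fin n) : ℕ)) x (a : ℕ) =
        fun z => ((Function.update env x a z : Fin n) : ℕ) := by
      intro a
      funext z
      by_cases hz : z = x
      · subst hz; simp
      · simp [Function.update_of_ne hz]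
    constructor
    · intro h a
      rw [← hf, ← key]
      exact h a a.2
    · intro h a ha
      have := (hf _).2 (h ⟨a, ha⟩)
      rw [← key] at this
      exact this

theorem primrec_evM {X : Type} [DecidableEq X] (f : Fml X) : ∀ σ : X → ℕ,
    PrimrecPred fun q : List (List Bool) × List ℕ => evM q.1 (fun x => q.2.getD (σ x) 0) f := by
  induction f with
  | adj x y =>
    intro σ
    simp only [evM]
    refine PrimrecRel.comp Primrec.eq (primrec_ma Primrec.fst ?_ ?_) (Primrec.const true)
    · exact (Primrec.list_getD 0).comp Primrec.snd (Primrec.const _)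
    · exact (Primrec.list_getD 0).comp Primrec.snd (Primrec.const _)
  | eq x y =>
    intro σ
    simp only [evM]
    refine PrimrecRel.comp Primrec.eq ?_ ?_
    · exact (Primrec.list_getD 0).comp Primrec.snd (Primrec.const _)
    · exact (Primrec.list_getD 0).comp Primrec.snd (Primrec.const _)
  | bot =>
    intro σ
    simp only [evM]
    exact (PrimrecRel.comp Primrec.eq (Primrec.const 0) (Primrec.const 1)).of_eq (by simp)
  | imp f g hf hg =>
    intro σ
    simp only [evM]
    refine ((hf σ).not.or (hg σ)).of_eq fun q => ?_
    tauto
  | all x f hf =>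
    intro σ
    simp only [evM]
    have h1 := hf (Function.update (fun z => σ z + 1) x 0)
    have hR : PrimrecRel fun (a : ℕ) (q : List (List Bool) × List ℕ) =>
        evM q.1 (fun z => (a :: q.2).getD (Function.update (fun z => σ z + 1) x 0 z) 0) f :=
      h1.comp (Primrec.pair (Primrec.fst.comp Primrec.snd)
        (Primrec.list_cons.comp Primrec.fst (Primrec.snd.comp Primrec.snd)))
    have h2 := (PrimrecRel.forall_mem_list hR).comp
      (Primrec.list_range.comp (Primrec.list_length.comp
        (Primrec.fst (α := List (List Bool)) (β := List ℕ)))) Primrec.id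
    refine h2.of_eq fun q => ?_
    apply forall_congr'
    intro a
    apply imp_congr_right
    intro _
    apply iff_of_eq
    congr 1
    funext z
    by_cases hz : z = x
    · subst hz; simp
    · simp [Function.update_of_ne hz]

/-- the matrix is the adjacency matrix of a graph -/
def isG (A : List (List Bool)) : Prop :=
  (∀ i ∈ List.range A.length, (A.getD i []).length = A.length) ∧
  (∀ i ∈ List.range A.length, ma A i i = false) ∧
  (∀ i ∈ List.range A.length, ∀ j ∈ List.range A.length, ma A i j = ma A j i)

theorem primrec_isG : PrimrecPred isG := by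
  have hl : Primrec fun A : List (List Bool) => List.range A.length :=
    Primrec.list_range.comp Primrec.list_length
  refine PrimrecPred.and ?_ (PrimrecPred.and ?_ ?_)
  · have hR : PrimrecRel fun (i : ℕ) (A : List (List Bool)) => (A.getD i []).length = A.length :=
      PrimrecRel.comp Primrec.eq (Primrec.list_length.comp ((Primrec.list_getD []).comp
        Primrec.snd Primrec.fst)) (Primrec.list_length.comp Primrec.snd)
    exact (PrimrecRel.forall_mem_list hR).comp hl Primrec.id
  · have hR : PrimrecRel fun (i : ℕ) (A : List (List Bool)) => ma A i i = false :=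
      PrimrecRel.comp Primrec.eq (primrec_ma Primrec.snd Primrec.fst Primrec.fst)
        (Primrec.const false)
    exact (PrimrecRel.forall_mem_list hR).comp hl Primrec.id
  · have hR : PrimrecRel fun (j : ℕ) (q : ℕ × List (List Bool)) =>
        ma q.2 q.1 j = ma q.2 j q.1 :=
      PrimrecRel.comp Primrec.eq
        (primrec_ma (Primrec.snd.comp Primrec.snd) (Primrec.fst.comp Primrec.snd) Primrec.fst)
        (primrec_ma (Primrec.snd.comp Primrec.snd) Primrec.fst (Primrec.fst.comp Primrec.snd))
    have h1 : PrimrecRel fun (i : ℕ) (A : List (List Bool)) =>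
        ∀ j ∈ List.range A.length, ma A i j = ma A j i :=
      (PrimrecRel.forall_mem_list hR).comp (hl.comp Primrec.snd) Primrec.id
    exact (PrimrecRel.forall_mem_list h1).comp hl Primrec.id

/-- the graph of a matrix -/
def matG (A : List (List Bool)) (h : isG A) : SimpleGraph (Fin A.length) where
  Adj i j := ma A i j = true
  symm := ⟨by
    intro i j hij
    rw [← h.2.2 i (List.mem_range.2 i.2) j (List.mem_range.2 j.2)]
    exact hij⟩
  loopless := ⟨by
    intro i hi
    rw [h.2.1 i (List.mem_range.2 i.2)] at hi
    exact absurd hi (by simp)⟩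

instance (A : List (List Bool)) (h : isG A) : DecidableRel (matG A h).Adj := fun i j =>
  inferInstanceAs (Decidable (ma A i j = true))

theorem adjMatrixList_matG (A : List (List Bool)) (h : isG A) : adjMatrixList (matG A h) = A := by
  apply List.ext_getElem (by simp [adjMatrixList])
  intro i h1 h2
  have h3 := h.1 i (List.mem_range.2 h2)
  rw [List.getD_eq_getElem _ _ h2] at h3
  apply List.ext_getElem (by simp [adjMatrixList, h3])
  intro j h4 h5
  have h6 : (A.getD i []).getD j false = A[i][j] := by
    rw [List.getD_eq_getElem _ _ h2, List.getD_eq_getElem _ _ h5]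
  simp only [adjMatrixList, List.getElem_ofFn]
  rw [Bool.eq_iff_iff, decide_eq_true_iff, ← h6]
  exact Iff.rfl

theorem isG_adjMatrixList {n : ℕ} (G : SimpleGraph (Fin n)) [DecidableRel G.Adj] :
    isG (adjMatrixList G) := by
  refine ⟨?_, ?_, ?_⟩
  · intro i hi
    rw [List.mem_range] at hi
    rw [List.getD_eq_getElem _ _ hi]
    simp [adjMatrixList]
  · intro i hi
    rw [List.mem_range, length_adjMatrixList] at hi
    have := ma_adjMatrixList G ⟨i, hi⟩ ⟨i, hi⟩
    simpa using this
  · intro i hi j hj
    rw [List.mem_range, length_adjMatrixList] at hi hj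
    have h1 := ma_adjMatrixList G ⟨i, hi⟩ ⟨j, hj⟩
    have h2 := ma_adjMatrixList G ⟨j, hj⟩ ⟨i, hi⟩
    simp only at h1 h2
    rw [h1, h2]
    simp [G.adj_comm]

/-- the number of neighbours, computed from the matrix -/
def cnt (A : List (List Bool)) (t : ℕ) : ℕ :=
  ((List.range A.length).filter fun w => decide (ma A w t = true)).length

theorem cnt_eq {n : ℕ} (G : SimpleGraph (Fin n)) [DecidableRel G.Adj] (t : Fin n) :
    cnt (adjMatrixList G) t = {w | G.Adj w t}.ncard := by
  unfold cnt
  rw [length_adjMatrixList]
  have h1 : ((List.range n).filter fun w => decide (ma (adjMatrixList G) w t = true)).length =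
      ((Finset.range n).filter fun w => ma (adjMatrixList G) w t = true).card := by
    rw [← Multiset.coe_card, ← Multiset.filter_coe]
    rfl
  rw [h1]
  have h2 : (Finset.range n).filter (fun w => ma (adjMatrixList G) w t = true) =
      (Finset.univ.filter fun w : Fin n => G.Adj w t).map Fin.valEmbedding := by
    ext w
    simp only [Finset.mem_filter, Finset.mem_range, Finset.mem_map, Finset.mem_univ, true_and,
      Fin.valEmbedding_apply]
    constructor
    · rintro ⟨hw, hm⟩
      refine ⟨⟨w, hw⟩, ?_, rfl⟩
      have := ma_adjMatrixList G ⟨w, hw⟩ t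
      simp only at this
      rw [this] at hm
      simpa using hm
    · rintro ⟨w, hw, rfl⟩
      refine ⟨w.2, ?_⟩
      rw [ma_adjMatrixList]
      simpa using hw
  rw [h2, Finset.card_map, Set.ncard_eq_toFinset_card']
  congr 1
  ext w
  simp

theorem primrec_cnt {α : Type} [Primcodable α] {f : α → List (List Bool)} {g : α → ℕ}
    (hf : Primrec f) (hg : Primrec g) : Primrec fun a => cnt (f a) (g a) := by
  have hR : PrimrecRel fun (w : ℕ) (q : List (List Bool) × ℕ) => ma q.1 w q.2 = true :=
    PrimrecRel.comp Primrec.eq
      (primrec_ma (Primrec.fst.comp Primrec.snd) Primrec.fst (Primrec.snd.comp Primrec.snd))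
      (Primrec.const true)
  have h1 := (PrimrecRel.listFilter hR).comp
    (Primrec.list_range.comp (Primrec.list_length.comp hf)) (hf.pair hg)
  exact Primrec.list_length.comp h1

theorem primrecPred_forall {α ι : Type} [Primcodable α] [Fintype ι] (Q : ι → α → Prop)
    (h : ∀ i, PrimrecPred (Q i)) : PrimrecPred fun a => ∀ i, Q i a := by
  classical
  have key : ∀ l : List ι, PrimrecPred fun a => ∀ i ∈ l, Q i a := by
    intro l
    induction l with
    | nil =>
      exact (PrimrecRel.comp Primrec.eq (Primrec.const 0) (Primrec.const 0)).of_eq (by simp)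
    | cons i l ih => exact ((h i).and ih).of_eq (by simp)
  exact (key (Finset.univ : Finset ι).toList).of_eq (by simp)

theorem Fml.eval_congr' {X : Type} [DecidableEq X] {V W : Type} {G : SimpleGraph V}
    {H : SimpleGraph W} (e : G ≃g H) (f : Fml X) (env : X → V) :
    Fml.eval H (fun x => e (env x)) f ↔ Fml.eval G env f := by
  induction f generalizing env with
  | adj x y => simp only [Fml.eval_adj]; exact e.map_adj_iff
  | eq x y => simp
  | bot => exact Iff.rfl
  | imp f g hf hg => exact imp_congr (hf env) (hg env)
  | all x f hf =>
    simp only [Fml.eval_all]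
    have key : ∀ a : V, Function.update (fun x => e (env x)) x (e a) =
        fun z => e (Function.update env x a z) := by
      intro a
      funext z
      by_cases hz : z = x
      · subst hz; simp
      · simp [Function.update_of_ne hz]
    constructor
    · intro h a
      rw [← hf, ← key]
      exact h (e a)
    · intro h a
      obtain ⟨a, rfl⟩ := e.surjective a
      rw [key, hf]
      exact h a

end Pool.Agent.Hhelper80.Depth
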