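import Mathlib

/-!
# Logical depth of finite graphs: definitions

`Language.graph` is Mathlib's first-order language with one binary relation symbol (adjacency);
first-order formulas over it are Mathlib's `BoundedFormula`s, with primitive symbols
`⊥`, `=`, adjacency, `→`, `∀`; the other connectives and `∃` are the usual abbreviations
(`∃ x, φ` is `¬ ∀ x, ¬ φ`), so they do not change the quantifier depth.
-/

open FirstOrder

namespace Pool.Agent.Hhelper80.Depth

/-- The quantifier depth (maximum nesting of quantifiers) of a first-order formula. -/
def qdepth {L : FirstOrder.Language.{0, 0}} {α : Type} : ∀ {n : ℕ}, L.BoundedFormula α n → ℕ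
  | _, .falsum => 0
  | _, .equal _ _ => 0
  | _, .rel _ _ => 0
  | _, .imp f g => max (qdepth f) (qdepth g)
  | _, .all f => qdepth f + 1

/-- The graph `G` satisfies the first-order sentence `φ`. -/
def Sat {V : Type} (G : SimpleGraph V) (φ : Language.graph.Sentence) : Prop :=
  @Language.Sentence.Realize Language.graph V G.structure φ

/-- The sentence `φ` defines the graph `G`: it is true in `G`, and every finite graph in which it
is true is isomorphic to `G`. -/
def Defines (φ : Language.graph.Sentence) {V : Type} (G : SimpleGraph V) : Prop :=
  Sat G φ ∧ ∀ (W : Type) [Finite W] (H : SimpleGraph W), Sat H φ → Nonempty (G ≃g H)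

/-- The logical depth of `G`: the minimum quantifier depth of a sentence defining `G`. -/
noncomputable def logicalDepth {V : Type} (G : SimpleGraph V) : ℕ :=
  sInf {d | ∃ φ : Language.graph.Sentence, Defines φ G ∧ qdepth φ = d}

/-- The adjacency matrix of a graph on `Fin n`, as a list of rows. -/
def adjMatrixList {n : ℕ} (G : SimpleGraph (Fin n)) [DecidableRel G.Adj] : List (List Bool) :=
  List.ofFn fun i => List.ofFn fun j => decide (G.Adj i j)

end Pool.Agent.Hhelper80.Depth
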