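import Pool.Agent.Hhelper80.Depth.Fml

/-!
# Encoding coloured relational structures as graphs
-/

set_option linter.all false

namespace Pool.Agent.Hhelper80.Depth

/-- vertices of the encoding graph of a coloured structure `(E, R)` -/
inductive GV (C J E : Type) (R : J → E → E → Prop) : Type
  | lab (c : C) : GV C J E R
  | rlab (j : J) (s : Bool) : GV C J E R
  | el (a : E) : GV C J E R
  | sub (j : J) (a b : E) (s : Bool) (h : R j a b) : GV C J E R

/-- adjacency in the encoding graph -/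
def GAdj {C J E : Type} (col : E → C) (R : J → E → E → Prop) :
    GV C J E R → GV C J E R → Prop
  | .el a, .lab c => col a = c
  | .lab c, .el a => col a = c
  | .sub j _ _ s _, .rlab j' s' => j = j' ∧ s = s'
  | .rlab j' s', .sub j _ _ s _ => j = j' ∧ s = s'
  | .el a, .sub _ x y s _ => a = bif s then y else x
  | .sub _ x y s _, .el a => a = bif s then y else x
  | .sub j a b s _, .sub j' a' b' s' _ => j = j' ∧ a = a' ∧ b = b' ∧ s ≠ s'
  | _, _ => False

/-- the encoding graph -/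
def GG {C J E : Type} (col : E → C) (R : J → E → E → Prop) : SimpleGraph (GV C J E R) where
  Adj := GAdj col R
  symm := ⟨by
    rintro (c | ⟨j, s⟩ | a | ⟨j, a, b, s, h⟩) (c' | ⟨j', s'⟩ | a' | ⟨j', a', b', s', h'⟩) h0 <;>
      simp only [GAdj] at h0 ⊢ <;> try assumption
    exact ⟨h0.1.symm, h0.2.1.symm, h0.2.2.1.symm, h0.2.2.2.symm⟩⟩
  loopless := ⟨by
    rintro (c | ⟨j, s⟩ | a | ⟨j, a, b, s, h⟩) h0 <;> simp [GAdj] at h0⟩

/-- the standard labels of the encoding graph -/
def stdLab {C J E : Type} {R : J → E → E → Prop} : C ⊕ (J × Bool) → GV C J E R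
  | .inl c => .lab c
  | .inr (j, s) => .rlab j s

section Decode

variable {C J V : Type} (G : SimpleGraph V) (L : C ⊕ (J × Bool) → V)

/-- colour predicate decoded from a labelled graph -/
def pc (c : C) (v : V) : Prop := G.Adj v (L (.inl c))

/-- element predicate -/
def isEl (v : V) : Prop := ∃ c, pc G L c v

/-- decoded relation -/
def pr (j : J) (a b : V) : Prop :=
  isEl G L a ∧ isEl G L b ∧ ∃ p q, G.Adj p (L (.inr (j, false))) ∧ G.Adj q (L (.inr (j, true))) ∧
    G.Adj a p ∧ G.Adj p q ∧ G.Adj q b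

/-- the axioms of encoding graphs -/
structure Frame : Prop where
  inj : ∀ x y, x ≠ y → L x ≠ L y
  lab : ∀ x y, ¬ G.Adj (L x) (L y)
  cov : ∀ v, (∃ x, v = L x) ∨ (∃ x, G.Adj v (L x))
  uni : ∀ v x y, x ≠ y → G.Adj v (L x) → ¬ G.Adj v (L y)
  el_el : ∀ a b, isEl G L a → isEl G L b → ¬ G.Adj a b
  sub_el : ∀ j s p, G.Adj p (L (.inr (j, s))) → ∃ a, isEl G L a ∧ G.Adj a p
  sub_el_un : ∀ j s p a b, G.Adj p (L (.inr (j, s))) → isEl G L a → isEl G L b →
    G.Adj a p → G.Adj b p → a = b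
  sub_sub : ∀ j s p, G.Adj p (L (.inr (j, s))) → ∃ q, G.Adj q (L (.inr (j, !s))) ∧ G.Adj p q
  sub_sub_un : ∀ j s p q q', G.Adj p (L (.inr (j, s))) → G.Adj q (L (.inr (j, !s))) →
    G.Adj q' (L (.inr (j, !s))) → G.Adj p q → G.Adj p q' → q = q'
  sub_non : ∀ j s j' s' p q, ¬ (j = j' ∧ s' = !s) → G.Adj p (L (.inr (j, s))) →
    G.Adj q (L (.inr (j', s'))) → ¬ G.Adj p q
  simple : ∀ j p q p' q' a b, G.Adj p (L (.inr (j, false))) → G.Adj p' (L (.inr (j, false))) →
    G.Adj q (L (.inr (j, true))) → G.Adj q' (L (.inr (j, true))) → isEl G L a → isEl G L b →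
    G.Adj a p → G.Adj a p' → G.Adj b q → G.Adj b q' → G.Adj p q → G.Adj p' q' → p = p'

end Decode

section Iso

variable {C J V : Type} {G : SimpleGraph V} {L : C ⊕ (J × Bool) → V}

theorem Frame.uni' (hF : Frame G L) {v : V} {x y : C ⊕ (J × Bool)} (h1 : G.Adj v (L x))
    (h2 : G.Adj v (L y)) : x = y := by
  by_contra h; exact hF.uni v x y h h1 h2

theorem Frame.inj' (hF : Frame G L) {x y : C ⊕ (J × Bool)} (h : L x = L y) : x = y := by
  by_contra h'; exact hF.inj x y h' h

/-- decoded colour -/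
noncomputable def decCol (hF : Frame G L) (a : {v // isEl G L v}) : C := Classical.choose a.2

theorem decCol_spec (hF : Frame G L) (a : {v // isEl G L v}) : pc G L (decCol hF a) a :=
  Classical.choose_spec a.2

theorem decCol_iff (hF : Frame G L) (a : {v // isEl G L v}) (c : C) :
    pc G L c a ↔ decCol hF a = c := by
  constructor
  · intro h
    have := hF.uni' (decCol_spec hF a) h
    exact Sum.inl.inj this
  · rintro rfl; exact decCol_spec hF a

/-- decoded relation on the subtype -/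
def decRel (hF : Frame G L) (j : J) (a b : {v // isEl G L v}) : Prop := pr G L j a b

/-- the map from the encoding graph of the decoded structure to the graph -/
noncomputable def decMap (hF : Frame G L) :
    GV C J {v // isEl G L v} (decRel hF) → V
  | .lab c => L (.inl c)
  | .rlab j s => L (.inr (j, s))
  | .el a => a
  | .sub _ _ _ s h => bif s then Classical.choose (Classical.choose_spec h.2.2)
      else Classical.choose h.2.2

theorem sub_spec (hF : Frame G L) {j : J} {a b : {v // isEl G L v}} (h : decRel hF j a b) :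
    G.Adj (decMap hF (.sub j a b false h)) (L (.inr (j, false))) ∧
    G.Adj (decMap hF (.sub j a b true h)) (L (.inr (j, true))) ∧
    G.Adj a (decMap hF (.sub j a b false h)) ∧
    G.Adj (decMap hF (.sub j a b false h)) (decMap hF (.sub j a b true h)) ∧
    G.Adj (decMap hF (.sub j a b true h)) b :=
  Classical.choose_spec (Classical.choose_spec h.2.2)

theorem sub_cls (hF : Frame G L) {j : J} {a b : {v // isEl G L v}} (s : Bool)
    (h : decRel hF j a b) : G.Adj (decMap hF (.sub j a b s h)) (L (.inr (j, s))) := by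
  cases s
  · exact (sub_spec hF h).1
  · exact (sub_spec hF h).2.1

theorem sub_adj_el (hF : Frame G L) {j : J} {a b : {v // isEl G L v}} (s : Bool)
    (h : decRel hF j a b) :
    G.Adj ((bif s then b else a : {v // isEl G L v}) : V) (decMap hF (.sub j a b s h)) := by
  cases s
  · exact (sub_spec hF h).2.2.1
  · exact (sub_spec hF h).2.2.2.2.symm

theorem sub_eq (hF : Frame G L) {j : J} {a b a' b' : {v // isEl G L v}} (s : Bool)
    (h : decRel hF j a b) (h' : decRel hF j a' b')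
    (heq : decMap hF (.sub j a b s h) = decMap hF (.sub j a' b' s h')) : a = a' ∧ b = b' := by
  have hs := sub_spec hF h
  have hs' := sub_spec hF h'
  -- partner equality
  have hboth : decMap hF (.sub j a b false h) = decMap hF (.sub j a' b' false h') ∧
      decMap hF (.sub j a b true h) = decMap hF (.sub j a' b' true h') := by
    cases s
    · refine ⟨heq, ?_⟩
      refine hF.sub_sub_un j false _ _ _ hs.1 hs.2.1 hs'.2.1 hs.2.2.2.1 ?_
      rw [heq]; exact hs'.2.2.2.1
    · refine ⟨?_, heq⟩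
      refine hF.sub_sub_un j true _ _ _ hs.2.1 hs.1 hs'.1 hs.2.2.2.1.symm ?_
      rw [heq]; exact hs'.2.2.2.1.symm
  constructor
  · apply Subtype.ext
    refine hF.sub_el_un j false _ _ _ hs.1 a.2 a'.2 hs.2.2.1 ?_
    rw [hboth.1]; exact hs'.2.2.1
  · apply Subtype.ext
    refine hF.sub_el_un j true _ _ _ hs.2.1 b.2 b'.2 hs.2.2.2.2.symm ?_
    rw [hboth.2]; exact hs'.2.2.2.2.symm

theorem decMap_injective (hF : Frame G L) : Function.Injective (decMap hF) := by
  have lab_cls : ∀ x y v, G.Adj v (L y) → L x ≠ v := by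
    intro x y v h h'
    rw [← h'] at h
    exact hF.lab x y h
  rintro (c | ⟨j, s⟩ | a | ⟨j, a, b, s, h⟩) (c' | ⟨j', s'⟩ | a' | ⟨j', a', b', s', h'⟩) heq
  · have := hF.inj' (x := .inl c) (y := .inl c') heq
    rw [Sum.inl.inj this]
  · have := hF.inj' (x := .inl c) (y := .inr (j', s')) heq
    cases this
  · exact absurd heq (lab_cls _ _ _ (decCol_spec hF a'))
  · exact absurd heq (lab_cls _ _ _ (sub_cls hF s' h'))
  · have := hF.inj' (x := .inr (j, s)) (y := .inl c') heq
    cases this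
  · have := hF.inj' (x := .inr (j, s)) (y := .inr (j', s')) heq
    cases this; rfl
  · exact absurd heq (lab_cls _ _ _ (decCol_spec hF a'))
  · exact absurd heq (lab_cls _ _ _ (sub_cls hF s' h'))
  · exact absurd heq.symm (lab_cls _ _ _ (decCol_spec hF a))
  · exact absurd heq.symm (lab_cls _ _ _ (decCol_spec hF a))
  · rw [Subtype.ext heq]
  · have h1 := decCol_spec hF a
    have h2 := sub_cls hF s' h'
    rw [← heq] at h2
    cases hF.uni' h1 h2
  · exact absurd heq.symm (lab_cls _ _ _ (sub_cls hF s h))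
  · exact absurd heq.symm (lab_cls _ _ _ (sub_cls hF s h))
  · have h1 := decCol_spec hF a'
    have h2 := sub_cls hF s h
    rw [heq] at h2
    cases hF.uni' h1 h2
  · have h1 := sub_cls hF s h
    have h2 := sub_cls hF s' h'
    rw [← heq] at h2
    cases hF.uni' h1 h2
    obtain ⟨rfl, rfl⟩ := sub_eq hF s h h' heq
    rfl

theorem decMap_surjective (hF : Frame G L) : Function.Surjective (decMap hF) := by
  intro v
  rcases hF.cov v with ⟨x, rfl⟩ | ⟨x, hx⟩
  · rcases x with c | ⟨j, s⟩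
    · exact ⟨.lab c, rfl⟩
    · exact ⟨.rlab j s, rfl⟩
  · rcases x with c | ⟨j, s⟩
    · exact ⟨.el ⟨v, c, hx⟩, rfl⟩
    · obtain ⟨a, ha, hav⟩ := hF.sub_el j s v hx
      obtain ⟨w, hw, hvw⟩ := hF.sub_sub j s v hx
      obtain ⟨b, hb, hbw⟩ := hF.sub_el j (!s) w hw
      cases s
      · have hrel : decRel hF j ⟨a, ha⟩ ⟨b, hb⟩ := ⟨ha, hb, v, w, hx, hw, hav, hvw, hbw.symm⟩
        have hs := sub_spec hF hrel
        refine ⟨.sub j _ _ false hrel, ?_⟩
        exact hF.simple j _ _ v w a b hs.1 hx hs.2.1 hw ha hb hs.2.2.1 hav hs.2.2.2.2.symm hbw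
          hs.2.2.2.1 hvw
      · have hrel : decRel hF j ⟨b, hb⟩ ⟨a, ha⟩ :=
          ⟨hb, ha, w, v, hw, hx, hbw, hvw.symm, hav.symm⟩
        have hs := sub_spec hF hrel
        have h1 : decMap hF (.sub j ⟨b, hb⟩ ⟨a, ha⟩ false hrel) = w :=
          hF.simple j _ _ w v b a hs.1 hw hs.2.1 hx hb ha hs.2.2.1 hbw hs.2.2.2.2.symm hav
            hs.2.2.2.1 hvw.symm
        refine ⟨.sub j _ _ true hrel, ?_⟩
        refine hF.sub_sub_un j false w _ _ hw hs.2.1 hx ?_ hvw.symm
        rw [← h1]; exact hs.2.2.2.1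

theorem decMap_adj (hF : Frame G L) (x y : GV C J {v // isEl G L v} (decRel hF)) :
    G.Adj (decMap hF x) (decMap hF y) ↔ (GG (decCol hF) (decRel hF)).Adj x y := by
  -- it is enough to treat one order of the constructors
  have key_el_lab : ∀ a c, G.Adj (decMap hF (.el a)) (decMap hF (.lab c)) ↔
      decCol hF a = c := fun a c => decCol_iff hF a c
  have key_el_rlab : ∀ a j s, ¬ G.Adj (decMap hF (.el a)) (decMap hF (.rlab j s)) := by
    intro a j s h
    cases hF.uni' (decCol_spec hF a) h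
  have key_sub_lab : ∀ j a b s h c, ¬ G.Adj (decMap hF (.sub j a b s h)) (decMap hF (.lab c)) := by
    intro j a b s h c h'
    cases hF.uni' (sub_cls hF s h) h'
  have key_sub_rlab : ∀ j a b s h j' s',
      G.Adj (decMap hF (.sub j a b s h)) (decMap hF (.rlab j' s')) ↔ (j = j' ∧ s = s') := by
    intro j a b s h j' s'
    constructor
    · intro h'
      cases hF.uni' (sub_cls hF s h) h'
      exact ⟨rfl, rfl⟩
    · rintro ⟨rfl, rfl⟩; exact sub_cls hF s h
  have key_el_sub : ∀ a' j a b s h, G.Adj (decMap hF (.el a')) (decMap hF (.sub j a b s h)) ↔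
      a' = bif s then b else a := by
    intro a' j a b s h
    constructor
    · intro h'
      apply Subtype.ext
      exact hF.sub_el_un j s _ _ _ (sub_cls hF s h) a'.2 (Subtype.property _) h'
        (sub_adj_el hF s h)
    · rintro rfl; exact sub_adj_el hF s h
  have key_sub_sub : ∀ j a b s h j' a' b' s' h',
      G.Adj (decMap hF (.sub j a b s h)) (decMap hF (.sub j' a' b' s' h')) ↔
        (j = j' ∧ a = a' ∧ b = b' ∧ s ≠ s') := by
    intro j a b s h j' a' b' s' h'
    constructor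
    · intro hadj
      have h1 : j = j' ∧ s' = !s := by
        by_contra hcon
        exact hF.sub_non j s j' s' _ _ hcon (sub_cls hF s h) (sub_cls hF s' h') hadj
      obtain ⟨rfl, rfl⟩ := h1
      have hs := sub_spec hF h
      have h2 : decMap hF (.sub j a' b' (!s) h') = decMap hF (.sub j a b (!s) h) := by
        refine hF.sub_sub_un j s _ _ _ (sub_cls hF s h) (sub_cls hF (!s) h')
          (sub_cls hF (!s) h) hadj ?_
        cases s
        · exact hs.2.2.2.1
        · exact hs.2.2.2.1.symm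
      obtain ⟨rfl, rfl⟩ := sub_eq hF (!s) h' h h2
      exact ⟨rfl, rfl, rfl, by cases s <;> simp⟩
    · rintro ⟨rfl, rfl, rfl, hss⟩
      have hs := sub_spec hF h
      cases s <;> cases s' <;> simp at hss
      · exact hs.2.2.2.1
      · exact hs.2.2.2.1.symm
  rcases x with c | ⟨j, s⟩ | a | ⟨j, a, b, s, h⟩ <;>
    rcases y with c' | ⟨j', s'⟩ | a' | ⟨j', a', b', s', h'⟩
  · exact iff_of_false (hF.lab _ _) (fun h => h)
  · exact iff_of_false (hF.lab _ _) (fun h => h)
  · rw [G.adj_comm]; exact key_el_lab _ _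
  · rw [G.adj_comm]; exact iff_of_false (key_sub_lab _ _ _ _ _ _) (fun h => h)
  · exact iff_of_false (hF.lab _ _) (fun h => h)
  · exact iff_of_false (hF.lab _ _) (fun h => h)
  · rw [G.adj_comm]; exact iff_of_false (key_el_rlab _ _ _) (fun h => h)
  · rw [G.adj_comm]; exact key_sub_rlab _ _ _ _ _ _ _
  · exact key_el_lab _ _
  · exact iff_of_false (key_el_rlab _ _ _) (fun h => h)
  · exact iff_of_false (hF.el_el _ _ a.2 a'.2) (fun h => h)
  · exact key_el_sub _ _ _ _ _ _
  · exact iff_of_false (key_sub_lab _ _ _ _ _ _) (fun h => h)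
  · exact key_sub_rlab _ _ _ _ _ _ _
  · rw [G.adj_comm]; exact key_el_sub _ _ _ _ _ _
  · exact key_sub_sub _ _ _ _ _ _ _ _ _ _

/-- a graph with a frame is the encoding graph of its decoded structure -/
noncomputable def frameIso (hF : Frame G L) : GG (decCol hF) (decRel hF) ≃g G where
  toEquiv := Equiv.ofBijective (decMap hF) ⟨decMap_injective hF, decMap_surjective hF⟩
  map_rel_iff' := by
    intro x y
    exact decMap_adj hF x y

end Iso

section Congr

variable {C J E E' : Type} {col : E → C} {col' : E' → C} {R : J → E → E → Prop}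
  {R' : J → E' → E' → Prop}

/-- isomorphic structures have isomorphic encoding graphs -/
def GGcongr (e : E ≃ E') (hcol : ∀ a, col' (e a) = col a)
    (hR : ∀ j a b, R' j (e a) (e b) ↔ R j a b) : GG col R ≃g GG col' R' where
  toFun
    | .lab c => .lab c
    | .rlab j s => .rlab j s
    | .el a => .el (e a)
    | .sub j a b s h => .sub j (e a) (e b) s ((hR j a b).2 h)
  invFun
    | .lab c => .lab c
    | .rlab j s => .rlab j s
    | .el a => .el (e.symm a)
    | .sub j a b s h => .sub j (e.symm a) (e.symm b) s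
        ((hR j _ _).1 (by simpa using h))
  left_inv := by rintro (c | ⟨j, s⟩ | a | ⟨j, a, b, s, h⟩) <;> simp
  right_inv := by rintro (c | ⟨j, s⟩ | a | ⟨j, a, b, s, h⟩) <;> simp
  map_rel_iff' := by
    rintro (c | ⟨j, s⟩ | a | ⟨j, a, b, s, h⟩) (c' | ⟨j', s'⟩ | a' | ⟨j', a', b', s', h'⟩) <;>
      simp [GG, GAdj, hcol]
    · cases s' <;> simp
    · cases s <;> simp

end Congr

section Std

variable {C J E : Type} {col : E → C} {R : J → E → E → Prop}

theorem std_pc (c : C) (v : GV C J E R) :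
    pc (GG col R) stdLab c v ↔ ∃ a, v = .el a ∧ col a = c := by
  rcases v with c' | ⟨j', s'⟩ | a' | ⟨j', a', b', s', h'⟩ <;> simp [pc, GG, GAdj, stdLab]

theorem std_isEl (v : GV C J E R) : isEl (GG col R) stdLab v ↔ ∃ a, v = .el a := by
  simp only [isEl, std_pc]
  constructor
  · rintro ⟨c, a, rfl, _⟩; exact ⟨a, rfl⟩
  · rintro ⟨a, rfl⟩; exact ⟨_, a, rfl, rfl⟩

theorem std_rlab (j : J) (s : Bool) (v : GV C J E R) :
    (GG col R).Adj v (stdLab (.inr (j, s))) ↔ ∃ a b h, v = .sub j a b s h := by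
  rcases v with c' | ⟨j', s'⟩ | a' | ⟨j', a', b', s', h'⟩ <;> simp [GG, GAdj, stdLab]
  intro h1 _
  exact h1 ▸ h'

theorem std_pr (j : J) (v w : GV C J E R) :
    pr (GG col R) stdLab j v w ↔ ∃ a b, v = .el a ∧ w = .el b ∧ R j a b := by
  simp only [pr, std_isEl, std_rlab]
  constructor
  · rintro ⟨⟨a, rfl⟩, ⟨b, rfl⟩, p, q, ⟨x, y, h, rfl⟩, ⟨x', y', h', rfl⟩, h1, h2, h3⟩
    simp only [GG, GAdj, cond_false, cond_true] at h1 h2 h3
    obtain ⟨-, rfl, rfl, -⟩ := h2
    subst h1; subst h3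
    exact ⟨_, _, rfl, rfl, h⟩
  · rintro ⟨a, b, rfl, rfl, h⟩
    exact ⟨⟨a, rfl⟩, ⟨b, rfl⟩, .sub j a b false h, .sub j a b true h, ⟨a, b, h, rfl⟩,
      ⟨a, b, h, rfl⟩, by simp [GG, GAdj], by simp [GG, GAdj], by simp [GG, GAdj]⟩

theorem std_frame : Frame (GG col R) (stdLab : C ⊕ (J × Bool) → GV C J E R) where
  inj := by
    rintro (c | ⟨j, s⟩) (c' | ⟨j', s'⟩) h <;> simp_all [stdLab]
  lab := by
    rintro (c | ⟨j, s⟩) (c' | ⟨j', s'⟩) <;> simp [stdLab, GG, GAdj]
  cov := by
    rintro (c' | ⟨j', s'⟩ | a' | ⟨j', a', b', s', h'⟩)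
    · exact Or.inl ⟨.inl c', rfl⟩
    · exact Or.inl ⟨.inr (j', s'), rfl⟩
    · exact Or.inr ⟨.inl (col a'), rfl⟩
    · exact Or.inr ⟨.inr (j', s'), ⟨rfl, rfl⟩⟩
  uni := by
    rintro (c' | ⟨j', s'⟩ | a' | ⟨j', a', b', s', h'⟩) (c | ⟨j, s⟩) (d | ⟨k, t⟩) h <;>
      simp_all [stdLab, GG, GAdj]
  el_el := by
    intro a b ha hb
    rw [std_isEl] at ha hb
    obtain ⟨a, rfl⟩ := ha
    obtain ⟨b, rfl⟩ := hb
    simp [GG, GAdj]
  sub_el := by
    intro j s p hp
    rw [std_rlab] at hp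
    obtain ⟨a, b, h, rfl⟩ := hp
    exact ⟨.el (bif s then b else a), (std_isEl _).2 ⟨_, rfl⟩, by simp [GG, GAdj]⟩
  sub_el_un := by
    intro j s p a b hp ha hb hap hbp
    rw [std_rlab] at hp
    obtain ⟨x, y, h, rfl⟩ := hp
    rw [std_isEl] at ha hb
    obtain ⟨a, rfl⟩ := ha
    obtain ⟨b, rfl⟩ := hb
    simp only [GG, GAdj] at hap hbp
    rw [hap, hbp]
  sub_sub := by
    intro j s p hp
    rw [std_rlab] at hp
    obtain ⟨x, y, h, rfl⟩ := hp
    refine ⟨.sub j x y (!s) h, (std_rlab _ _ _).2 ⟨x, y, h, rfl⟩, ?_⟩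
    simp only [GG, GAdj]
    cases s <;> simp
  sub_sub_un := by
    intro j s p q q' hp hq hq' hpq hpq'
    rw [std_rlab] at hp hq hq'
    obtain ⟨x, y, h, rfl⟩ := hp
    obtain ⟨x1, y1, h1, rfl⟩ := hq
    obtain ⟨x2, y2, h2, rfl⟩ := hq'
    simp only [GG, GAdj] at hpq hpq'
    obtain ⟨-, rfl, rfl, -⟩ := hpq
    obtain ⟨-, rfl, rfl, -⟩ := hpq'
    rfl
  sub_non := by
    intro j s j' s' p q hn hp hq hpq
    rw [std_rlab] at hp hq
    obtain ⟨x, y, h, rfl⟩ := hp
    obtain ⟨x1, y1, h1, rfl⟩ := hq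
    simp only [GG, GAdj] at hpq
    obtain ⟨rfl, rfl, rfl, hss⟩ := hpq
    apply hn
    refine ⟨rfl, ?_⟩
    cases s <;> cases s' <;> simp_all
  simple := by
    intro j p q p' q' a b hp hp' hq hq' ha hb h1 h2 h3 h4 h5 h6
    rw [std_rlab] at hp hp' hq hq'
    rw [std_isEl] at ha hb
    obtain ⟨x, y, h, rfl⟩ := hp
    obtain ⟨x', y', h', rfl⟩ := hp'
    obtain ⟨u, w, g, rfl⟩ := hq
    obtain ⟨u', w', g', rfl⟩ := hq'
    obtain ⟨a, rfl⟩ := ha
    obtain ⟨b, rfl⟩ := hb
    simp only [GG, GAdj, cond_false, cond_true] at h1 h2 h3 h4 h5 h6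
    obtain ⟨-, rfl, rfl, -⟩ := h5
    obtain ⟨-, rfl, rfl, -⟩ := h6
    subst h1; subst h2; subst h3; subst h4
    rfl

end Std

end Pool.Agent.Hhelper80.Depth
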