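import Pool.Agent.Hhelper80.Depth.Defs

/-!
# Formulas with named variables, their translation, and back-and-forth equivalence
-/

set_option linter.all false

open FirstOrder Language

namespace Pool.Agent.Hhelper80.Depth

/-- first-order formulas about graphs, with named variables in `X` -/
inductive Fml (X : Type) : Type
  | adj (x y : X) : Fml X
  | eq (x y : X) : Fml X
  | bot : Fml X
  | imp (f g : Fml X) : Fml X
  | all (x : X) (f : Fml X) : Fml X

namespace Fml

variable {X : Type} [DecidableEq X]

/-- semantics -/
def eval {V : Type} (G : SimpleGraph V) : (X → V) → Fml X → Prop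
  | env, adj x y => G.Adj (env x) (env y)
  | env, eq x y => env x = env y
  | _, bot => False
  | env, imp f g => eval G env f → eval G env g
  | env, all x f => ∀ a : V, eval G (Function.update env x a) f

/-- quantifier depth -/
def dep : Fml X → ℕ
  | adj _ _ => 0
  | eq _ _ => 0
  | bot => 0
  | imp f g => max (dep f) (dep g)
  | all _ f => dep f + 1

/-- negation -/
def not (f : Fml X) : Fml X := imp f bot
/-- conjunction -/
def and (f g : Fml X) : Fml X := not (imp f (not g))
/-- disjunction -/
def or (f g : Fml X) : Fml X := imp (not f) g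
/-- equivalence -/
def iff (f g : Fml X) : Fml X := and (imp f g) (imp g f)
/-- existential quantifier -/
def ex (x : X) (f : Fml X) : Fml X := not (all x (not f))
/-- finite conjunction -/
def conj : List (Fml X) → Fml X
  | [] => imp bot bot
  | f :: l => and f (conj l)
/-- finite disjunction -/
def disj : List (Fml X) → Fml X
  | [] => bot
  | f :: l => or f (disj l)
/-- block of existential quantifiers -/
def exs : List X → Fml X → Fml X
  | [], f => f
  | x :: l, f => ex x (exs l f)
/-- block of universal quantifiers -/
def alls : List X → Fml X → Fml X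
  | [], f => f
  | x :: l, f => all x (alls l f)

section
variable {V : Type} (G : SimpleGraph V) (env : X → V) (f g : Fml X) (x y : X)

@[simp] theorem eval_adj : eval G env (adj x y) ↔ G.Adj (env x) (env y) := Iff.rfl
@[simp] theorem eval_eq : eval G env (eq x y) ↔ env x = env y := Iff.rfl
@[simp] theorem eval_bot : eval G env (bot : Fml X) ↔ False := Iff.rfl
@[simp] theorem eval_imp : eval G env (imp f g) ↔ (eval G env f → eval G env g) := Iff.rfl
@[simp] theorem eval_all : eval G env (all x f) ↔
    ∀ a : V, eval G (Function.update env x a) f := Iff.rfl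
@[simp] theorem eval_not : eval G env (not f) ↔ ¬ eval G env f := Iff.rfl
@[simp] theorem eval_and : eval G env (and f g) ↔ (eval G env f ∧ eval G env g) := by
  simp [and]
@[simp] theorem eval_or : eval G env (or f g) ↔ (eval G env f ∨ eval G env g) := by
  simp only [or, eval_imp, eval_not]; tauto
@[simp] theorem eval_iff : eval G env (iff f g) ↔ (eval G env f ↔ eval G env g) := by
  simp only [iff, eval_and, eval_imp]; tauto
@[simp] theorem eval_ex : eval G env (ex x f) ↔
    ∃ a : V, eval G (Function.update env x a) f := by
  simp [ex]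
@[simp] theorem eval_conj (l : List (Fml X)) : eval G env (conj l) ↔ ∀ f ∈ l, eval G env f := by
  induction l with
  | nil => simp [conj]
  | cons f l ih => simp [conj, ih]
@[simp] theorem eval_disj (l : List (Fml X)) : eval G env (disj l) ↔ ∃ f ∈ l, eval G env f := by
  induction l with
  | nil => simp [disj]
  | cons f l ih => simp [disj, ih]

theorem eval_exs (l : List X) : eval G env (exs l f) ↔
    ∃ env' : X → V, (∀ x, x ∉ l → env' x = env x) ∧ eval G env' f := by
  induction l generalizing env with
  | nil =>
    simp only [exs, List.not_mem_nil, not_false_eq_true, forall_const]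
    constructor
    · intro h; exact ⟨env, fun _ => rfl, h⟩
    · rintro ⟨env', h, h'⟩
      rwa [show env' = env from funext h] at h'
  | cons x l ih =>
    simp only [exs, eval_ex]
    constructor
    · rintro ⟨a, ha⟩
      obtain ⟨env', h1, h2⟩ := (ih _).1 ha
      refine ⟨env', ?_, h2⟩
      intro z hz
      rw [List.mem_cons, not_or] at hz
      rw [h1 z hz.2, Function.update_of_ne hz.1]
    · rintro ⟨env', h1, h2⟩
      refine ⟨env' x, (ih _).2 ⟨env', ?_, h2⟩⟩
      intro z hz
      by_cases hzx : z = x
      · subst hzx; simp
      · rw [Function.update_of_ne hzx]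
        exact h1 z (by simp [hz, hzx])

theorem eval_alls (l : List X) : eval G env (alls l f) ↔
    ∀ env' : X → V, (∀ x, x ∉ l → env' x = env x) → eval G env' f := by
  induction l generalizing env with
  | nil =>
    simp only [alls, List.not_mem_nil, not_false_eq_true, forall_const]
    constructor
    · intro h env' h'
      rwa [show env' = env from funext h']
    · intro h; exact h env (fun _ => rfl)
  | cons x l ih =>
    simp only [alls, eval_all]
    constructor
    · intro h env' h1
      refine (ih _).1 (h (env' x)) env' ?_
      intro z hz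
      by_cases hzx : z = x
      · subst hzx; simp
      · rw [Function.update_of_ne hzx]
        exact h1 z (by simp [hz, hzx])
    · intro h a
      refine (ih _).2 ?_
      intro env' h1
      apply h env'
      intro z hz
      rw [List.mem_cons, not_or] at hz
      rw [h1 z hz.2, Function.update_of_ne hz.1]

@[simp] theorem dep_adj : dep (adj x y) = 0 := rfl
@[simp] theorem dep_eq : dep (eq x y) = 0 := rfl
@[simp] theorem dep_bot : dep (bot : Fml X) = 0 := rfl
@[simp] theorem dep_imp : dep (imp f g) = max (dep f) (dep g) := rfl
@[simp] theorem dep_all : dep (all x f) = dep f + 1 := rfl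
@[simp] theorem dep_not : dep (not f) = dep f := by simp [not]
@[simp] theorem dep_and : dep (and f g) = max (dep f) (dep g) := by simp [and]
@[simp] theorem dep_or : dep (or f g) = max (dep f) (dep g) := by simp [or]
@[simp] theorem dep_iff : dep (iff f g) = max (dep f) (dep g) := by
  simp [iff, max_comm]
@[simp] theorem dep_ex : dep (ex x f) = dep f + 1 := by simp [ex]

omit [DecidableEq X] in
theorem dep_conj_le (l : List (Fml X)) (k : ℕ) (h : ∀ f ∈ l, dep f ≤ k) : dep (conj l) ≤ k := by
  induction l with
  | nil => simp [conj, dep]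
  | cons f l ih =>
    simp only [List.forall_mem_cons] at h
    simpa [conj, and, not, dep] using ⟨h.1, ih h.2⟩

omit [DecidableEq X] in
theorem dep_disj_le (l : List (Fml X)) (k : ℕ) (h : ∀ f ∈ l, dep f ≤ k) : dep (disj l) ≤ k := by
  induction l with
  | nil => simp [disj, dep]
  | cons f l ih =>
    simp only [List.forall_mem_cons] at h
    simpa [disj, or, not, dep] using ⟨h.1, ih h.2⟩

@[simp] theorem dep_exs (l : List X) : dep (exs l f) = l.length + dep f := by
  induction l with
  | nil => simp [exs]
  | cons x l ih => simp [exs, ih]; omega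

@[simp] theorem dep_alls (l : List X) : dep (alls l f) = l.length + dep f := by
  induction l with
  | nil => simp [alls]
  | cons x l ih => simp [alls, ih]; omega

end

/-- translation into Mathlib's bounded formulas -/
def tr : ∀ (_ : Fml X) {n : ℕ} (_ : X → Fin n), Language.graph.BoundedFormula Empty n
  | adj x y, n, σ => Language.adj.boundedFormula₂ (Term.var (Sum.inr (σ x)))
      (Term.var (Sum.inr (σ y)))
  | eq x y, n, σ => Term.bdEqual (Term.var (Sum.inr (σ x))) (Term.var (Sum.inr (σ y)))
  | bot, n, σ => ⊥
  | imp f g, n, σ => (tr f σ).imp (tr g σ)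
  | all x f, n, σ => (tr f (Function.update (fun z => Fin.castSucc (σ z)) x (Fin.last n))).all

theorem qdepth_tr (f : Fml X) {n : ℕ} (σ : X → Fin n) : qdepth (tr f σ) = dep f := by
  induction f generalizing n with
  | adj x y => rfl
  | eq x y => rfl
  | bot => rfl
  | imp f g hf hg => simp [tr, qdepth, hf, hg]
  | all x f hf => simp [tr, qdepth, hf]

theorem realize_tr {V : Type} (G : SimpleGraph V) (f : Fml X) {n : ℕ} (σ : X → Fin n)
    (xs : Fin n → V) (v : Empty → V) :
    @BoundedFormula.Realize Language.graph V G.structure _ _ (tr f σ) v xs ↔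
      eval G (fun z => xs (σ z)) f := by
  letI := G.structure
  induction f generalizing n with
  | adj x y =>
    simp only [tr, eval_adj]
    rw [BoundedFormula.realize_rel₂]
    rfl
  | eq x y =>
    simp only [tr, eval_eq]
    rw [BoundedFormula.realize_bdEqual]
    rfl
  | bot => simp only [tr, eval_bot]; exact BoundedFormula.realize_bot
  | imp f g hf hg =>
    simp only [tr, eval_imp]
    exact BoundedFormula.realize_imp.trans (imp_congr (hf σ xs) (hg σ xs))
  | all x f hf =>
    simp only [tr, eval_all]
    refine BoundedFormula.realize_all.trans (forall_congr' fun a => (hf _ _).trans ?_)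
    apply iff_of_eq
    congr 1
    funext z
    by_cases hz : z = x
    · subst hz
      simp
    · simp [Function.update_of_ne hz]

/-- the sentence `∃ a, f` where all variables are interpreted as `a` -/
def toSentence (f : Fml X) : Language.graph.Sentence := (tr f (fun _ => (0 : Fin 1))).ex

theorem qdepth_toSentence (f : Fml X) : qdepth (toSentence f) = dep f + 1 := by
  simp only [toSentence, BoundedFormula.ex, BoundedFormula.not, qdepth, qdepth_tr]
  simp [qdepth]

theorem sat_toSentence {V : Type} (G : SimpleGraph V) (f : Fml X) :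
    Sat G (toSentence f) ↔ ∃ a : V, eval G (fun _ => a) f := by
  letI := G.structure
  unfold Sat toSentence Sentence.Realize Formula.Realize
  rw [BoundedFormula.realize_ex]
  apply exists_congr
  intro a
  rw [realize_tr]
  rfl

end Fml

/-! ### Back-and-forth equivalence -/

/-- the pairs in `ps` form a partial isomorphism -/
def PIso {V W : Type} (G : SimpleGraph V) (H : SimpleGraph W) (ps : List (V × W)) : Prop :=
  ∀ p ∈ ps, ∀ q ∈ ps, (p.1 = q.1 ↔ p.2 = q.2) ∧ (G.Adj p.1 q.1 ↔ H.Adj p.2 q.2)

/-- `k`-round back-and-forth equivalence from the position `ps` -/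
def EF {V W : Type} (G : SimpleGraph V) (H : SimpleGraph W) : ℕ → List (V × W) → Prop
  | 0, ps => PIso G H ps
  | k + 1, ps => PIso G H ps ∧ (∀ x, ∃ y, EF G H k ((x, y) :: ps)) ∧
      (∀ y, ∃ x, EF G H k ((x, y) :: ps))

theorem EF.pIso {V W : Type} {G : SimpleGraph V} {H : SimpleGraph W} {k : ℕ}
    {ps : List (V × W)} (h : EF G H k ps) : PIso G H ps := by
  cases k with
  | zero => exact h
  | succ k => exact h.1

theorem EF.mono {V W : Type} {G : SimpleGraph V} {H : SimpleGraph W} {k : ℕ}
    {ps : List (V × W)} (h : EF G H (k + 1) ps) : EF G H k ps := by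
  induction k generalizing ps with
  | zero => exact h.1
  | succ k ih =>
    refine ⟨h.1, fun x => ?_, fun y => ?_⟩
    · obtain ⟨y, hy⟩ := h.2.1 x
      exact ⟨y, ih hy⟩
    · obtain ⟨x, hx⟩ := h.2.2 y
      exact ⟨x, ih hx⟩

theorem EF.realize {V W : Type} {G : SimpleGraph V} {H : SimpleGraph W}
    {n : ℕ} (φ : Language.graph.BoundedFormula Empty n) :
    ∀ (k : ℕ) (_ : qdepth φ ≤ k) (ps : List (V × W)) (_ : EF G H k ps)
      (v : Empty → V) (w : Empty → W) (xs : Fin n → V) (ys : Fin n → W)
      (_ : ∀ i, (xs i, ys i) ∈ ps),
      (@BoundedFormula.Realize Language.graph V G.structure _ _ φ v xs ↔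
        @BoundedFormula.Realize Language.graph W H.structure _ _ φ w ys) := by
  letI := G.structure
  letI := H.structure
  induction φ with
  | falsum => intro k _ ps _ v w xs ys _; exact Iff.rfl
  | equal t₁ t₂ =>
    intro k _ ps hps v w xs ys hxy
    rcases t₁ with (x | i) | ⟨f, _⟩
    · exact x.elim
    · rcases t₂ with (x | j) | ⟨f, _⟩
      · exact x.elim
      · exact (hps.pIso _ (hxy i) _ (hxy j)).1
      · exact isEmptyElim f
    · exact isEmptyElim f
  | @rel n l R ts =>
    intro k _ ps hps v w xs ys hxy
    match l, R with
    | 2, .adj =>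
      have key : ∀ (t : Language.graph.Term (Empty ⊕ Fin n)), ∃ i : Fin n, t = Term.var (Sum.inr i) := by
        intro t
        rcases t with (x | i) | ⟨f, _⟩
        · exact x.elim
        · exact ⟨i, rfl⟩
        · exact isEmptyElim f
      obtain ⟨i, hi⟩ := key (ts 0)
      obtain ⟨j, hj⟩ := key (ts 1)
      have h := (hps.pIso _ (hxy i) _ (hxy j)).2
      simp only at h
      have e1 : @BoundedFormula.Realize Language.graph V G.structure _ _
          (BoundedFormula.rel (Language.adj) ts : Language.graph.BoundedFormula Empty n) v xs ↔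
          G.Adj (xs i) (xs j) := by
        change G.Adj (Term.realize (Sum.elim v xs) (ts 0)) (Term.realize (Sum.elim v xs) (ts 1)) ↔ _
        rw [hi, hj]; rfl
      have e2 : @BoundedFormula.Realize Language.graph W H.structure _ _
          (BoundedFormula.rel (Language.adj) ts : Language.graph.BoundedFormula Empty n) w ys ↔
          H.Adj (ys i) (ys j) := by
        change H.Adj (Term.realize (Sum.elim w ys) (ts 0)) (Term.realize (Sum.elim w ys) (ts 1)) ↔ _
        rw [hi, hj]; rfl
      exact e1.trans (h.trans e2.symm)
  | imp f g hf hg =>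
    intro k hk ps hps v w xs ys hxy
    simp only [qdepth, max_le_iff] at hk
    rw [BoundedFormula.realize_imp, BoundedFormula.realize_imp,
      hf k hk.1 ps hps v w xs ys hxy, hg k hk.2 ps hps v w xs ys hxy]
  | @all n f hf =>
    intro k hk ps hps v w xs ys hxy
    simp only [qdepth] at hk
    obtain ⟨k, rfl⟩ := Nat.exists_eq_add_of_le' (show 1 ≤ k by omega)
    rw [BoundedFormula.realize_all, BoundedFormula.realize_all]
    have hstep : ∀ a b, EF G H k ((a, b) :: ps) →
        ((@BoundedFormula.Realize Language.graph V G.structure _ _ f v (Fin.snoc xs a)) ↔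
        @BoundedFormula.Realize Language.graph W H.structure _ _ f w (Fin.snoc ys b)) := by
      intro a b hab
      apply hf k (by omega) _ hab
      intro i
      refine Fin.lastCases ?_ (fun i => ?_) i
      · simp
      · simp only [Fin.snoc_castSucc]
        exact List.mem_cons_of_mem _ (hxy i)
    constructor
    · intro h b
      obtain ⟨a, hab⟩ := hps.2.2 b
      exact (hstep a b hab).1 (h a)
    · intro h a
      obtain ⟨b, hab⟩ := hps.2.1 a
      exact (hstep a b hab).2 (h b)

/-- equivalent graphs satisfy the same sentences of depth at most `k` -/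
theorem EF.sat_iff {V W : Type} {G : SimpleGraph V} {H : SimpleGraph W} {k : ℕ}
    (h : EF G H k []) (φ : Language.graph.Sentence) (hφ : qdepth φ ≤ k) : Sat G φ ↔ Sat H φ :=
  EF.realize φ k hφ [] h _ _ _ _ (fun i => i.elim0)

/-- lower bound for the logical depth -/
theorem lt_logicalDepth {V W : Type} [Finite V] [Finite W] {G : SimpleGraph V}
    {H : SimpleGraph W} {k : ℕ} (h : EF G H k []) (hne : ¬ Nonempty (G ≃g H))
    (hdef : ∃ φ, Defines φ G) : k < logicalDepth G := by
  unfold logicalDepth
  obtain ⟨φ0, hφ0⟩ := hdef
  have hmem := Nat.sInf_mem (s := {d | ∃ φ : Language.graph.Sentence, Defines φ G ∧ qdepth φ = d})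
    ⟨_, φ0, hφ0, rfl⟩
  obtain ⟨φ, hφ, hd⟩ := hmem
  rw [← hd]
  by_contra hle
  push Not at hle
  exact hne (hφ.2 W H ((h.sat_iff φ hle).1 hφ.1))

/-- upper bound for the logical depth -/
theorem logicalDepth_le {V : Type} {G : SimpleGraph V} {φ : Language.graph.Sentence}
    (h : Defines φ G) : logicalDepth G ≤ qdepth φ :=
  Nat.sInf_le ⟨φ, h, rfl⟩

end Pool.Agent.Hhelper80.Depth
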