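import Pool.Agent.Hhelper80.Depth.Struct

/-!
# The back-and-forth game on the graphs of two solutions
-/

set_option linter.all false

namespace Pool.Agent.Hhelper80.Depth

variable {S : Sys} {y y' : Var S.H → ℕ} {N N' : ℕ}

/-- matching of coordinates -/
def mv (P : S.H → List (ℕ × ℕ)) : Var S.H → ℕ → ℕ → Prop
  | .h x, i, i' => (i + 1, i' + 1) ∈ P x
  | _, i, i' => i = i'

/-- good states of the game -/
structure Good (y y' : Var S.H → ℕ) (q r : ℕ) (P : S.H → List (ℕ × ℕ)) (lo hi : ℕ) : Prop where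
  vis : ∀ v : Var S.H, v.hid = false → y v = y' v
  cl : ∀ h, Close q (P h)
  zero : ∀ h, (0, 0) ∈ P h
  top : ∀ h, (y (.h h) + 1, y' (.h h) + 1) ∈ P h
  gap : lo + 2 ^ (r + 1) ≤ hi
  hib : hi + 1 ≤ y .b

theorem Good.mono {q r q' r' : ℕ} {P : S.H → List (ℕ × ℕ)} {lo hi : ℕ}
    (h : Good y y' q r P lo hi) (hq : q' ≤ q) (hr : r' ≤ r) : Good y y' q' r' P lo hi where
  vis := h.vis
  cl := fun x => (h.cl x).mono hq
  zero := h.zero
  top := h.top
  gap := by
    have : 2 ^ (r' + 1) ≤ 2 ^ (r + 1) := Nat.pow_le_pow_right (by norm_num) (by omega)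
    have := h.gap
    omega
  hib := h.hib

/-- matching of columns -/
def MC (c : ColData S y N) (c' : ColData S y' N') (P : S.H → List (ℕ × ℕ)) (side : Bool)
    (z : Fin N) (z' : Fin N') : Prop :=
  c.mon side z = c'.mon side z' ∧
    ∀ i, mv P (S.al side (c.mon side z) i) (c.crd side z i) (c'.crd side z' i)

/-- matching of elements -/
def ME (c : ColData S y N) (c' : ColData S y' N') (P : S.H → List (ℕ × ℕ)) (lo hi : ℕ) :
    Elt S y N → Elt S y' N' → Prop
  | .base v i, .base v' i' => v = v' ∧ mv P v i i'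
  | .cell l z, .cell l' z' => (l : ℕ) = l' ∧
      (((l : ℕ) ≤ lo ∧ MC c c' P false z z') ∨ (hi ≤ (l : ℕ) ∧ MC c c' P true z z'))
  | _, _ => False

theorem mv_lt {q r : ℕ} {P : S.H → List (ℕ × ℕ)} {lo hi : ℕ} (hG : Good y y' q r P lo hi)
    {v : Var S.H} {i i' k k' : ℕ} (h1 : mv P v i i') (h2 : mv P v k k') :
    (i < k ↔ i' < k') ∧ (i = k ↔ i' = k') := by
  cases v with
  | h x =>
    simp only [mv] at h1 h2
    have e1 := (hG.cl x _ h1 _ h2).1
    have e2 := (hG.cl x _ h2 _ h1).1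
    simp only at e1 e2
    omega
  | n => simp only [mv] at h1 h2; omega
  | k => simp only [mv] at h1 h2; omega
  | b => simp only [mv] at h1 h2; omega
  | one => simp only [mv] at h1 h2; omega

theorem MC_lt {q r : ℕ} {P : S.H → List (ℕ × ℕ)} {lo hi : ℕ} (hG : Good y y' q r P lo hi)
    {c : ColData S y N} {c' : ColData S y' N'} {side : Bool} {z w : Fin N} {z' w' : Fin N'}
    (h1 : MC c c' P side z z') (h2 : MC c c' P side w w') : (z < w ↔ z' < w') ∧ (z = w ↔ z' = w') := by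
  have hlt : z < w ↔ z' < w' := by
    rw [c.lt_iff side, c'.lt_iff side, ← h1.1, ← h2.1]
    apply or_congr Iff.rfl
    by_cases hm : c.mon side z = c.mon side w
    · simp only [hm, true_and]
      have hco : ∀ i, (c.crd side z i < c.crd side w i ↔ c'.crd side z' i < c'.crd side w' i) ∧
          (c.crd side z i = c.crd side w i ↔ c'.crd side z' i = c'.crd side w' i) := by
        intro i
        have e1 := h1.2 i
        rw [hm] at e1
        exact mv_lt hG e1 (h2.2 i)
      apply exists_congr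
      intro i
      rw [(hco i).1]
      apply and_congr_left
      intro _
      apply forall_congr'
      intro j
      apply imp_congr_right
      intro _
      exact (hco j).2
    · simp [hm]
  have hgt : w < z ↔ w' < z' := by
    rw [c.lt_iff side, c'.lt_iff side, ← h1.1, ← h2.1]
    apply or_congr Iff.rfl
    by_cases hm : c.mon side w = c.mon side z
    · simp only [hm, true_and]
      have hco : ∀ i, (c.crd side w i < c.crd side z i ↔ c'.crd side w' i < c'.crd side z' i) ∧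
          (c.crd side w i = c.crd side z i ↔ c'.crd side w' i = c'.crd side z' i) := by
        intro i
        have e1 := h2.2 i
        rw [hm] at e1
        exact mv_lt hG e1 (h1.2 i)
      apply exists_congr
      intro i
      rw [(hco i).1]
      apply and_congr_left
      intro _
      apply forall_congr'
      intro j
      apply imp_congr_right
      intro _
      exact (hco j).2
    · simp [hm]
  refine ⟨hlt, ?_⟩
  constructor
  · rintro rfl
    have a1 : ¬ z' < w' := fun h => lt_irrefl _ (hlt.2 h)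
    have a2 : ¬ w' < z' := fun h => lt_irrefl _ (hgt.2 h)
    exact le_antisymm (not_lt.1 a2) (not_lt.1 a1)
  · rintro rfl
    have a1 : ¬ z < w := fun h => lt_irrefl _ (hlt.1 h)
    have a2 : ¬ w < z := fun h => lt_irrefl _ (hgt.1 h)
    exact le_antisymm (not_lt.1 a2) (not_lt.1 a1)

section PI

variable {q r : ℕ} {P : S.H → List (ℕ × ℕ)} {lo hi : ℕ} {c : ColData S y N}
  {c' : ColData S y' N'}

theorem gap2 (hG : Good y y' q r P lo hi) : lo + 2 ≤ hi := by
  have h1 := hG.gap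
  have h2 : 2 ^ 1 ≤ 2 ^ (r + 1) := Nat.pow_le_pow_right (by norm_num) (by omega)
  omega

theorem ME_eq (hG : Good y y' q r P lo hi) {a b : Elt S y N} {a' b' : Elt S y' N'}
    (ha : ME c c' P lo hi a a') (hb : ME c c' P lo hi b b') : a = b ↔ a' = b' := by
  have hgap := gap2 hG
  rcases a with ⟨v, i⟩ | ⟨l, z⟩ <;> rcases a' with ⟨v', i'⟩ | ⟨l', z'⟩ <;>
    rcases b with ⟨w, k⟩ | ⟨m, x⟩ <;> rcases b' with ⟨w', k'⟩ | ⟨m', x'⟩ <;>
    simp only [ME] at ha hb
  · obtain ⟨rfl, ha⟩ := ha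
    obtain ⟨rfl, hb⟩ := hb
    by_cases hvw : v = w
    · subst hvw
      have := (mv_lt hG ha hb).2
      simp only [Elt.base.injEq, heq_eq_eq, true_and, Fin.ext_iff]
      exact this
    · simp [hvw]
  · simp
  · simp
  · obtain ⟨hll, ha⟩ := ha
    obtain ⟨hmm, hb⟩ := hb
    simp only [Elt.cell.injEq, Fin.ext_iff (a := l), Fin.ext_iff (a := l')]
    by_cases hlm : (l : ℕ) = m
    · have hlm' : (l' : ℕ) = m' := by omega
      simp only [hlm, hlm', true_and]
      rcases ha with ⟨h1, h2⟩ | ⟨h1, h2⟩ <;> rcases hb with ⟨h3, h4⟩ | ⟨h3, h4⟩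
      · exact (MC_lt hG h2 h4).2
      · omega
      · omega
      · exact (MC_lt hG h2 h4).2
    · have hlm' : ¬ (l' : ℕ) = m' := by omega
      simp [hlm, hlm']

theorem ME_col (hG : Good y y' q r P lo hi) {a : Elt S y N} {a' : Elt S y' N'}
    (ha : ME c c' P lo hi a a') : ecol c a = ecol c' a' := by
  have hgap := gap2 hG
  have hb : y .b = y' .b := hG.vis .b rfl
  have hhib := hG.hib
  rcases a with ⟨v, i⟩ | ⟨l, z⟩ <;> rcases a' with ⟨v', i'⟩ | ⟨l', z'⟩ <;>
    simp only [ME] at ha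
  · obtain ⟨rfl, ha⟩ := ha
    rfl
  · obtain ⟨hll, ha⟩ := ha
    simp only [ecol]
    rcases ha with ⟨h1, h2⟩ | ⟨h1, h2⟩
    · by_cases hl0 : (l : ℕ) = 0
      · have hl0' : (l' : ℕ) = 0 := by omega
        rw [if_pos hl0, if_pos hl0', h2.1]
      · have hl0' : ¬ (l' : ℕ) = 0 := by omega
        have hl1 : ¬ (l : ℕ) + 1 = y .b := by omega
        have hl1' : ¬ (l' : ℕ) + 1 = y' .b := by omega
        rw [if_neg hl0, if_neg hl0', if_neg hl1, if_neg hl1']
    · have hl0 : ¬ (l : ℕ) = 0 := by omega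
      have hl0' : ¬ (l' : ℕ) = 0 := by omega
      rw [if_neg hl0, if_neg hl0']
      by_cases hl1 : (l : ℕ) + 1 = y .b
      · have hl1' : (l' : ℕ) + 1 = y' .b := by omega
        rw [if_pos hl1, if_pos hl1', h2.1]
      · have hl1' : ¬ (l' : ℕ) + 1 = y' .b := by omega
        rw [if_neg hl1, if_neg hl1']

theorem ME_rel (hG : Good y y' q r P lo hi) {a b : Elt S y N} {a' b' : Elt S y' N'}
    (ha : ME c c' P lo hi a a') (hb : ME c c' P lo hi b b') (j : Rn S.D) :
    erel c j a b ↔ erel c' j a' b' := by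
  have hgap := gap2 hG
  have hyb : y .b = y' .b := hG.vis .b rfl
  have hhib := hG.hib
  rcases a with ⟨v, i⟩ | ⟨l, z⟩ <;> rcases a' with ⟨v', i'⟩ | ⟨l', z'⟩ <;>
    simp only [ME] at ha
  · rcases b with ⟨w, k⟩ | ⟨m, x⟩ <;> rcases b' with ⟨w', k'⟩ | ⟨m', x'⟩ <;>
      simp only [ME] at hb
    · obtain ⟨rfl, ha⟩ := ha
      obtain ⟨rfl, hb⟩ := hb
      cases j <;> simp only [erel]
      by_cases hvw : v = w
      · subst hvw
        simp only [true_and]
        exact (mv_lt hG ha hb).1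
      · simp [hvw]
    · cases j <;> simp only [erel]
  · rcases b with ⟨w, k⟩ | ⟨m, x⟩ <;> rcases b' with ⟨w', k'⟩ | ⟨m', x'⟩ <;>
      simp only [ME] at hb
    · obtain ⟨hll, ha⟩ := ha
      obtain ⟨rfl, hb⟩ := hb
      cases j <;> simp only [erel]
      · -- row
        constructor
        · rintro ⟨rfl, h⟩
          simp only [mv] at hb
          exact ⟨rfl, by omega⟩
        · rintro ⟨rfl, h⟩
          simp only [mv] at hb
          exact ⟨rfl, by omega⟩
      · -- co
        rename_i i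
        rcases ha with ⟨h1, h2⟩ | ⟨h1, h2⟩
        · have hn1 : ¬ (l : ℕ) + 1 = y .b := by omega
          have hn1' : ¬ (l' : ℕ) + 1 = y' .b := by omega
          have hz : (l : ℕ) = 0 ↔ (l' : ℕ) = 0 := by omega
          simp only [hn1, hn1', false_and, or_false, hz]
          apply and_congr_right
          intro _
          rw [← h2.1]
          apply and_congr_right
          rintro rfl
          exact (mv_lt hG hb (h2.2 i)).2
        · have hn1 : ¬ (l : ℕ) = 0 := by omega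
          have hn1' : ¬ (l' : ℕ) = 0 := by omega
          have hz : (l : ℕ) + 1 = y .b ↔ (l' : ℕ) + 1 = y' .b := by omega
          simp only [hn1, hn1', false_and, false_or, hz]
          apply and_congr_right
          intro _
          rw [← h2.1]
          apply and_congr_right
          rintro rfl
          exact (mv_lt hG hb (h2.2 i)).2
    · obtain ⟨hll, ha⟩ := ha
      obtain ⟨hmm, hb⟩ := hb
      cases j <;> simp only [erel]
      · -- lt
        simp only [Fin.ext_iff (a := l), Fin.ext_iff (a := l')]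
        by_cases hlm : (l : ℕ) = m
        · have hlm' : (l' : ℕ) = m' := by omega
          simp only [hlm, hlm', true_and]
          rcases ha with ⟨h1, h2⟩ | ⟨h1, h2⟩ <;> rcases hb with ⟨h3, h4⟩ | ⟨h3, h4⟩
          · exact (MC_lt hG h2 h4).1
          · omega
          · omega
          · exact (MC_lt hG h2 h4).1
        · have hlm' : ¬ (l' : ℕ) = m' := by omega
          simp [hlm, hlm']
      · -- up
        by_cases hlm : (m : ℕ) = l + 1
        · have hlm' : (m' : ℕ) = l' + 1 := by omega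
          simp only [hlm, hlm', true_and]
          rcases ha with ⟨h1, h2⟩ | ⟨h1, h2⟩ <;> rcases hb with ⟨h3, h4⟩ | ⟨h3, h4⟩
          · exact (MC_lt hG h2 h4).2
          · omega
          · omega
          · exact (MC_lt hG h2 h4).2
        · have hlm' : ¬ (m' : ℕ) = l' + 1 := by omega
          simp [hlm, hlm']

end PI

section Extend

theorem mv_mono {P P' : S.H → List (ℕ × ℕ)} (h : ∀ x, P x ⊆ P' x) {v : Var S.H} {i i' : ℕ}
    (h1 : mv P v i i') : mv P' v i i' := by
  cases v with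
  | h x => exact h x h1
  | n => exact h1
  | k => exact h1
  | b => exact h1
  | one => exact h1

theorem ME_mono {c : ColData S y N} {c' : ColData S y' N'} {P P' : S.H → List (ℕ × ℕ)}
    (h : ∀ x, P x ⊆ P' x) {lo hi lo' hi' : ℕ} (hlo : lo ≤ lo') (hhi : hi' ≤ hi)
    {a : Elt S y N} {a' : Elt S y' N'} (ha : ME c c' P lo hi a a') : ME c c' P' lo' hi' a a' := by
  rcases a with ⟨v, i⟩ | ⟨l, z⟩ <;> rcases a' with ⟨v', i'⟩ | ⟨l', z'⟩ <;>
    simp only [ME] at ha ⊢
  · exact ⟨ha.1, mv_mono h ha.2⟩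
  · refine ⟨ha.1, ?_⟩
    rcases ha.2 with ⟨h1, h2⟩ | ⟨h1, h2⟩
    · exact Or.inl ⟨by omega, h2.1, fun i => mv_mono h (h2.2 i)⟩
    · exact Or.inr ⟨by omega, h2.1, fun i => mv_mono h (h2.2 i)⟩

theorem ext_mv {q r : ℕ} {P : S.H → List (ℕ × ℕ)} {lo hi : ℕ} (v : Var S.H)
    (hG : Good y y' (q + (if v.hid then 1 else 0)) r P lo hi) {i : ℕ} (hi' : i < y v) :
    ∃ P' : S.H → List (ℕ × ℕ), (∀ x, P x ⊆ P' x) ∧ Good y y' q r P' lo hi ∧
      ∃ i' < y' v, mv P' v i i' := by
  classical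
  by_cases hv : v.hid = true
  · cases v with
    | h x =>
      simp only [Var.hid, if_true] at hG
      obtain ⟨x', hx', hcl⟩ := (hG.cl x).extend (hG.zero x) (hG.top x) (i + 1) (by omega)
      have hm1 : ((i + 1, x') : ℕ × ℕ) ∈ (i + 1, x') :: P x := List.mem_cons_self
      have hm0 : ((0, 0) : ℕ × ℕ) ∈ (i + 1, x') :: P x := List.mem_cons_of_mem _ (hG.zero x)
      have hmt : ((y (.h x) + 1, y' (.h x) + 1) : ℕ × ℕ) ∈ (i + 1, x') :: P x :=
        List.mem_cons_of_mem _ (hG.top x)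
      have e1 := (hcl _ hm0 _ hm1).1
      have e2 := (hcl _ hm1 _ hmt).1
      simp only at e1 e2
      obtain ⟨i', rfl⟩ : ∃ i', x' = i' + 1 := ⟨x' - 1, by omega⟩
      refine ⟨Function.update P x ((i + 1, i' + 1) :: P x), ?_, ?_, i', by omega, ?_⟩
      · intro z
        by_cases hz : z = x
        · subst hz; simp
        · simp [Function.update_of_ne hz]
      · refine ⟨hG.vis, ?_, ?_, ?_, hG.gap, hG.hib⟩
        · intro z
          by_cases hz : z = x
          · subst hz; simpa using hcl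
          · rw [Function.update_of_ne hz]
            exact (hG.cl z).mono (Nat.le_succ q)
        · intro z
          by_cases hz : z = x
          · subst hz; simp [hG.zero z]
          · rw [Function.update_of_ne hz]; exact hG.zero z
        · intro z
          by_cases hz : z = x
          · subst hz; simp [hG.top z]
          · rw [Function.update_of_ne hz]; exact hG.top z
      · simp [mv]
    | n => simp [Var.hid] at hv
    | k => simp [Var.hid] at hv
    | b => simp [Var.hid] at hv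
    | one => simp [Var.hid] at hv
  · have hv' : v.hid = false := by simpa using hv
    refine ⟨P, fun _ => List.Subset.refl _, hG.mono (by omega) le_rfl, i, ?_, ?_⟩
    · rw [← hG.vis v hv']; exact hi'
    · cases v with
      | h x => simp [Var.hid] at hv
      | n => rfl
      | k => rfl
      | b => rfl
      | one => rfl

theorem ext_tuple_aux {r : ℕ} {lo hi : ℕ} {D : ℕ} (vs : Fin D → Var S.H) (t : Fin D → ℕ)
    (ht : ∀ i, t i < y (vs i)) (A : Finset (Fin D)) :
    ∀ (q : ℕ) (P : S.H → List (ℕ × ℕ)),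
    Good y y' (q + (A.filter fun i => (vs i).hid = true).card) r P lo hi →
    ∃ P' : S.H → List (ℕ × ℕ), (∀ x, P x ⊆ P' x) ∧ Good y y' q r P' lo hi ∧
      ∃ t' : Fin D → ℕ, ∀ i ∈ A, t' i < y' (vs i) ∧ mv P' (vs i) (t i) (t' i) := by
  classical
  induction A using Finset.induction_on with
  | empty =>
    intro q P hG
    exact ⟨P, fun _ => List.Subset.refl _, hG.mono (by omega) le_rfl, t, by simp⟩
  | insert a A ha ih =>
    intro q P hG
    have hcard : q + ((insert a A).filter fun i => (vs i).hid = true).card =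
        (q + (A.filter fun i => (vs i).hid = true).card) + (if (vs a).hid then 1 else 0) := by
      rw [Finset.filter_insert]
      split_ifs with h
      · rw [Finset.card_insert_of_notMem (by simp [ha])]; omega
      · omega
    rw [hcard] at hG
    obtain ⟨P1, hP1, hG1, i', hi', hmv⟩ := ext_mv (vs a) hG (ht a)
    obtain ⟨P2, hP2, hG2, t', ht'⟩ := ih q P1 hG1
    refine ⟨P2, fun x => List.Subset.trans (hP1 x) (hP2 x), hG2, Function.update t' a i', ?_⟩
    intro i hi
    rcases Finset.mem_insert.1 hi with rfl | hi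
    · simp only [Function.update_self]
      exact ⟨hi', mv_mono hP2 hmv⟩
    · have hne : i ≠ a := fun h => ha (h ▸ hi)
      rw [Function.update_of_ne hne]
      exact ht' i hi

/-- number of hidden coordinates of a monomial -/
def hcount (S : Sys) (side : Bool) (m : Fin (S.s side)) : ℕ :=
  (Finset.univ.filter fun i => (S.al side m i).hid = true).card

theorem ext_col {q r e : ℕ} {P : S.H → List (ℕ × ℕ)} {lo hi : ℕ} (c : ColData S y N)
    (c' : ColData S y' N') (he : ∀ side m, hcount S side m ≤ e)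
    (hG : Good y y' (q + e) r P lo hi) (side : Bool) (z : Fin N) :
    ∃ P' : S.H → List (ℕ × ℕ), (∀ x, P x ⊆ P' x) ∧ Good y y' q r P' lo hi ∧
      ∃ z', MC c c' P' side z z' := by
  obtain ⟨P', hP', hG', t', ht'⟩ := ext_tuple_aux (y := y) (y' := y')
    (S.al side (c.mon side z)) (c.crd side z)
    (c.bd side z) Finset.univ q P (hG.mono (by have := he side (c.mon side z); unfold hcount at this; omega) le_rfl)
  obtain ⟨z', hz1, hz2⟩ := c'.surj side (c.mon side z) t' (fun i => (ht' i (Finset.mem_univ i)).1)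
  refine ⟨P', hP', hG', z', hz1.symm, ?_⟩
  intro i
  rw [hz2]
  exact (ht' i (Finset.mem_univ i)).2

theorem ext_elt {q r e : ℕ} {P : S.H → List (ℕ × ℕ)} {lo hi : ℕ} (c : ColData S y N)
    (c' : ColData S y' N') (he : ∀ side m, hcount S side m ≤ e) (he1 : 1 ≤ e)
    (hG : Good y y' (q + e) (r + 1) P lo hi) (a : Elt S y N) :
    ∃ (P' : S.H → List (ℕ × ℕ)) (lo' hi' : ℕ), (∀ x, P x ⊆ P' x) ∧ lo ≤ lo' ∧ hi' ≤ hi ∧
      Good y y' q r P' lo' hi' ∧ ∃ a', ME c c' P' lo' hi' a a' := by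
  have hyb : y .b = y' .b := hG.vis .b rfl
  rcases a with ⟨v, i⟩ | ⟨l, z⟩
  · obtain ⟨P', hP', hG', i', hi', hmv⟩ := ext_mv (q := q) (r := r) (y' := y') v
      (hG.mono (by split_ifs <;> omega) (Nat.le_succ r)) i.2
    exact ⟨P', lo, hi, hP', le_rfl, le_rfl, hG', .base v ⟨i', hi'⟩, rfl, hmv⟩
  · have hgap : lo + (2 ^ (r + 1) + 2 ^ (r + 1)) ≤ hi := by
      have h0 := hG.gap
      have hpow : 2 ^ (r + 1 + 1) = 2 ^ (r + 1) + 2 ^ (r + 1) := by rw [pow_succ]; ring
      rw [hpow] at h0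
      exact h0
    have hpos : 0 < 2 ^ (r + 1) := by positivity
    obtain ⟨w, hw⟩ : ∃ w, w = 2 ^ (r + 1) := ⟨_, rfl⟩
    rw [← hw] at hgap hpos
    have hhib := hG.hib
    obtain ⟨lo', hi', side, h1, h2, h3, h4⟩ : ∃ lo' hi' : ℕ, ∃ side : Bool, lo ≤ lo' ∧ hi' ≤ hi ∧
        lo' + w ≤ hi' ∧
        ((side = false ∧ (l : ℕ) ≤ lo') ∨ (side = true ∧ hi' ≤ (l : ℕ))) := by
      by_cases c1 : (l : ℕ) ≤ lo
      · exact ⟨lo, hi, false, le_rfl, le_rfl, by omega, Or.inl ⟨rfl, c1⟩⟩
      · by_cases c2 : hi ≤ (l : ℕ)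
        · exact ⟨lo, hi, true, le_rfl, le_rfl, by omega, Or.inr ⟨rfl, c2⟩⟩
        · by_cases c3 : (l : ℕ) + w ≤ hi
          · exact ⟨l, hi, false, by omega, le_rfl, c3, Or.inl ⟨rfl, le_rfl⟩⟩
          · exact ⟨lo, l, true, le_rfl, by omega, by omega, Or.inr ⟨rfl, le_rfl⟩⟩
    have hG1 : Good y y' (q + e) r P lo' hi' :=
      ⟨hG.vis, hG.cl, hG.zero, hG.top, by rw [← hw]; exact h3, by omega⟩
    obtain ⟨P', hP', hG', z', hz'⟩ := ext_col c c' he hG1 side z
    refine ⟨P', lo', hi', hP', h1, h2, hG', .cell ⟨l, by rw [← hyb]; exact l.2⟩ z', rfl, ?_⟩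
    rcases h4 with ⟨rfl, h⟩ | ⟨rfl, h⟩
    · exact Or.inl ⟨h, hz'⟩
    · exact Or.inr ⟨h, hz'⟩

end Extend

section Swap

/-- the swapped lists -/
def sw (P : S.H → List (ℕ × ℕ)) : S.H → List (ℕ × ℕ) := fun x => (P x).map Prod.swap

theorem sw_sw (P : S.H → List (ℕ × ℕ)) : sw (sw P) = P := by
  funext x
  simp [sw]

theorem Good.swap {q r : ℕ} {P : S.H → List (ℕ × ℕ)} {lo hi : ℕ}
    (h : Good y y' q r P lo hi) : Good y' y q r (sw P) lo hi where
  vis := fun v hv => (h.vis v hv).symm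
  cl := fun x => (h.cl x).swap
  zero := fun x => List.mem_map.2 ⟨_, h.zero x, rfl⟩
  top := fun x => List.mem_map.2 ⟨_, h.top x, rfl⟩
  gap := h.gap
  hib := by rw [← h.vis .b rfl]; exact h.hib

theorem mv_swap {P : S.H → List (ℕ × ℕ)} {v : Var S.H} {i i' : ℕ} (h : mv P v i i') :
    mv (sw P) v i' i := by
  cases v with
  | h x => exact List.mem_map.2 ⟨_, h, rfl⟩
  | n => exact h.symm
  | k => exact h.symm
  | b => exact h.symm
  | one => exact h.symm

theorem MC_swap {c : ColData S y N} {c' : ColData S y' N'} {P : S.H → List (ℕ × ℕ)}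
    {side : Bool} {z : Fin N} {z' : Fin N'} (h : MC c c' P side z z') :
    MC c' c (sw P) side z' z := by
  refine ⟨h.1.symm, fun i => ?_⟩
  rw [← h.1]
  exact mv_swap (h.2 i)

theorem ME_swap {c : ColData S y N} {c' : ColData S y' N'} {P : S.H → List (ℕ × ℕ)}
    {lo hi : ℕ} {a : Elt S y N} {a' : Elt S y' N'} (ha : ME c c' P lo hi a a') :
    ME c' c (sw P) lo hi a' a := by
  rcases a with ⟨v, i⟩ | ⟨l, z⟩ <;> rcases a' with ⟨v', i'⟩ | ⟨l', z'⟩ <;>
    simp only [ME] at ha ⊢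
  · obtain ⟨rfl, ha⟩ := ha
    exact ⟨rfl, mv_swap ha⟩
  · obtain ⟨h1, h2⟩ := ha
    refine ⟨h1.symm, ?_⟩
    rcases h2 with ⟨h3, h4⟩ | ⟨h3, h4⟩
    · exact Or.inl ⟨by omega, MC_swap h4⟩
    · exact Or.inr ⟨by omega, MC_swap h4⟩

end Swap

/-- matching of vertices -/
def MV (c : ColData S y N) (c' : ColData S y' N') (P : S.H → List (ℕ × ℕ)) (lo hi : ℕ) :
    GV (Clr S) (Rn S.D) (Elt S y N) (erel c) → GV (Clr S) (Rn S.D) (Elt S y' N') (erel c') → Prop
  | .lab c, .lab c' => c = c'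
  | .rlab j s, .rlab j' s' => j = j' ∧ s = s'
  | .el a, .el a' => ME c c' P lo hi a a'
  | .sub j a b s _, .sub j' a' b' s' _ => j = j' ∧ s = s' ∧ ME c c' P lo hi a a' ∧
      ME c c' P lo hi b b'
  | _, _ => False

theorem MV_mono {c : ColData S y N} {c' : ColData S y' N'} {P P' : S.H → List (ℕ × ℕ)}
    (h : ∀ x, P x ⊆ P' x) {lo hi lo' hi' : ℕ} (hlo : lo ≤ lo') (hhi : hi' ≤ hi)
    {a : GV (Clr S) (Rn S.D) (Elt S y N) (erel c)}
    {a' : GV (Clr S) (Rn S.D) (Elt S y' N') (erel c')} (ha : MV c c' P lo hi a a') :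
    MV c c' P' lo' hi' a a' := by
  rcases a with c1 | ⟨j, s⟩ | a | ⟨j, a, b, s, h1⟩ <;>
    rcases a' with c1' | ⟨j', s'⟩ | a' | ⟨j', a', b', s', h1'⟩ <;> simp only [MV] at ha ⊢
  · exact ha
  · exact ha
  · exact ME_mono h hlo hhi ha
  · exact ⟨ha.1, ha.2.1, ME_mono h hlo hhi ha.2.2.1, ME_mono h hlo hhi ha.2.2.2⟩

theorem MV_swap {c : ColData S y N} {c' : ColData S y' N'} {P : S.H → List (ℕ × ℕ)}
    {lo hi : ℕ} {a : GV (Clr S) (Rn S.D) (Elt S y N) (erel c)}
    {a' : GV (Clr S) (Rn S.D) (Elt S y' N') (erel c')} (ha : MV c c' P lo hi a a') :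
    MV c' c (sw P) lo hi a' a := by
  rcases a with c1 | ⟨j, s⟩ | a | ⟨j, a, b, s, h1⟩ <;>
    rcases a' with c1' | ⟨j', s'⟩ | a' | ⟨j', a', b', s', h1'⟩ <;> simp only [MV] at ha ⊢
  · exact ha.symm
  · exact ⟨ha.1.symm, ha.2.symm⟩
  · exact ME_swap ha
  · exact ⟨ha.1.symm, ha.2.1.symm, ME_swap ha.2.2.1, ME_swap ha.2.2.2⟩

theorem MV_piso {q r : ℕ} {P : S.H → List (ℕ × ℕ)} {lo hi : ℕ} (hG : Good y y' q r P lo hi)
    {c : ColData S y N} {c' : ColData S y' N'}
    {a b : GV (Clr S) (Rn S.D) (Elt S y N) (erel c)}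
    {a' b' : GV (Clr S) (Rn S.D) (Elt S y' N') (erel c')} (ha : MV c c' P lo hi a a')
    (hb : MV c c' P lo hi b b') :
    (a = b ↔ a' = b') ∧ ((SG c).Adj a b ↔ (SG c').Adj a' b') := by
  rcases a with c1 | ⟨j, s⟩ | a | ⟨j, a1, a2, s, h1⟩ <;>
    rcases a' with c1' | ⟨j', s'⟩ | a' | ⟨j', a1', a2', s', h1'⟩ <;> simp only [MV] at ha <;>
    rcases b with d1 | ⟨k, t⟩ | b | ⟨k, b1, b2, t, h2⟩ <;>
    rcases b' with d1' | ⟨k', t'⟩ | b' | ⟨k', b1', b2', t', h2'⟩ <;> simp only [MV] at hb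
  · subst ha; subst hb; simp [SG, GG, GAdj]
  · subst ha; obtain ⟨rfl, rfl⟩ := hb; simp [SG, GG, GAdj]
  · subst ha; simp [SG, GG, GAdj, ME_col hG hb]
  · subst ha; simp [SG, GG, GAdj]
  · obtain ⟨rfl, rfl⟩ := ha; subst hb; simp [SG, GG, GAdj]
  · obtain ⟨rfl, rfl⟩ := ha; obtain ⟨rfl, rfl⟩ := hb; simp [SG, GG, GAdj]
  · obtain ⟨rfl, rfl⟩ := ha; simp [SG, GG, GAdj]
  · obtain ⟨rfl, rfl⟩ := ha
    obtain ⟨rfl, rfl, hb1, hb2⟩ := hb
    simp [SG, GG, GAdj]
  · subst hb; simp [SG, GG, GAdj, ME_col hG ha]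
  · obtain ⟨rfl, rfl⟩ := hb; simp [SG, GG, GAdj]
  · simp [SG, GG, GAdj, ME_eq hG ha hb]
  · obtain ⟨rfl, rfl, hb1, hb2⟩ := hb
    refine ⟨by simp, ?_⟩
    simp only [SG, GG, GAdj]
    cases t
    · exact ME_eq hG ha hb1
    · exact ME_eq hG ha hb2
  · subst hb; simp [SG, GG, GAdj]
  · obtain ⟨rfl, rfl⟩ := hb
    obtain ⟨rfl, rfl, ha1, ha2⟩ := ha
    simp [SG, GG, GAdj]
  · obtain ⟨rfl, rfl, ha1, ha2⟩ := ha
    refine ⟨by simp, ?_⟩
    simp only [SG, GG, GAdj]
    cases s
    · exact ME_eq hG hb ha1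
    · exact ME_eq hG hb ha2
  · obtain ⟨rfl, rfl, ha1, ha2⟩ := ha
    obtain ⟨rfl, rfl, hb1, hb2⟩ := hb
    have e1 := ME_eq hG ha1 hb1
    have e2 := ME_eq hG ha2 hb2
    constructor
    · simp only [GV.sub.injEq, e1, e2]
    · simp only [SG, GG, GAdj, e1, e2]

theorem forth {q r e : ℕ} {P : S.H → List (ℕ × ℕ)} {lo hi : ℕ} (c : ColData S y N)
    (c' : ColData S y' N') (he : ∀ side m, hcount S side m ≤ e) (he1 : 1 ≤ e)
    (hG : Good y y' (q + 2 * e) (r + 2) P lo hi)
    (x : GV (Clr S) (Rn S.D) (Elt S y N) (erel c)) :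
    ∃ (P' : S.H → List (ℕ × ℕ)) (lo' hi' : ℕ), (∀ x, P x ⊆ P' x) ∧ lo ≤ lo' ∧ hi' ≤ hi ∧
      Good y y' q r P' lo' hi' ∧ ∃ x', MV c c' P' lo' hi' x x' := by
  rcases x with c1 | ⟨j, s⟩ | a | ⟨j, a, b, s, h⟩
  · exact ⟨P, lo, hi, fun _ => List.Subset.refl _, le_rfl, le_rfl,
      hG.mono (by omega) (by omega), .lab c1, rfl⟩
  · exact ⟨P, lo, hi, fun _ => List.Subset.refl _, le_rfl, le_rfl,
      hG.mono (by omega) (by omega), .rlab j s, rfl, rfl⟩
  · obtain ⟨P', lo', hi', h1, h2, h3, h4, a', ha'⟩ := ext_elt (q := q) (r := r) (e := e) c c' he he1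
      (hG.mono (by omega) (by omega)) a
    exact ⟨P', lo', hi', h1, h2, h3, h4, .el a', ha'⟩
  · obtain ⟨P1, lo1, hi1, h1, h2, h3, h4, a', ha'⟩ := ext_elt (q := q + e) (r := r + 1) (e := e)
      c c' he he1 (hG.mono (by omega) (by omega)) a
    obtain ⟨P2, lo2, hi2, g1, g2, g3, g4, b', hb'⟩ := ext_elt c c' he he1 h4 b
    have ha2 := ME_mono g1 g2 g3 ha'
    have hrel : erel c' j a' b' := (ME_rel g4 ha2 hb' j).1 h
    exact ⟨P2, lo2, hi2, fun x => List.Subset.trans (h1 x) (g1 x), h2.trans g2, g3.trans h3, g4,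
      .sub j a' b' s hrel, rfl, rfl, ha2, hb'⟩

theorem game_aux {e : ℕ} (he : ∀ side m, hcount S side m ≤ e) (he1 : 1 ≤ e) (c : ColData S y N)
    (c' : ColData S y' N') (k : ℕ) : ∀ (ps : List (_ × _)) (P : S.H → List (ℕ × ℕ)) (lo hi : ℕ),
    Good y y' (k * (2 * e)) (k * 2) P lo hi → (∀ p ∈ ps, MV c c' P lo hi p.1 p.2) →
      EF (SG c) (SG c') k ps := by
  induction k with
  | zero =>
    intro ps P lo hi hG hps
    intro p hp q hq
    exact MV_piso hG (hps p hp) (hps q hq)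
  | succ k ih =>
    intro ps P lo hi hG hps
    refine ⟨fun p hp q hq => MV_piso hG (hps p hp) (hps q hq), ?_, ?_⟩
    · intro x
      obtain ⟨P', lo', hi', h1, h2, h3, h4, x', hx'⟩ := forth (q := k * (2 * e)) (r := k * 2)
        c c' he he1 (hG.mono (le_of_eq (by ring)) (by omega)) x
      refine ⟨x', ih _ P' lo' hi' h4 ?_⟩
      intro p hp
      rcases List.mem_cons.1 hp with rfl | hp
      · exact hx'
      · exact MV_mono h1 h2 h3 (hps p hp)
    · intro x'
      obtain ⟨P', lo', hi', h1, h2, h3, h4, x, hx⟩ := forth (q := k * (2 * e)) (r := k * 2)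
        c' c he he1 (hG.swap.mono (le_of_eq (by ring)) (by omega)) x'
      have hx1 := MV_swap hx
      have hG1 := h4.swap
      refine ⟨x, ih _ (sw P') lo' hi' hG1 ?_⟩
      intro p hp
      rcases List.mem_cons.1 hp with rfl | hp
      · exact hx1
      · have := MV_mono h1 h2 h3 (MV_swap (hps p hp))
        exact MV_swap this

/-- **The game theorem**: graphs of solutions with the same visible parameters and large hidden
unknowns are `k`-equivalent. -/
theorem game {e : ℕ} (he : ∀ side m, hcount S side m ≤ e) (he1 : 1 ≤ e) (c : ColData S y N)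
    (c' : ColData S y' N') (k : ℕ) (hvis : ∀ v : Var S.H, v.hid = false → y v = y' v)
    (hy : ∀ h, 2 ^ (k * (2 * e)) ≤ y (.h h)) (hy' : ∀ h, 2 ^ (k * (2 * e)) ≤ y' (.h h))
    (hb : 2 ^ (k * 2 + 1) + 1 ≤ y .b) : EF (SG c) (SG c') k [] := by
  refine game_aux he he1 c c' k [] (fun h => [(0, 0), (y (.h h) + 1, y' (.h h) + 1)]) 0
    (2 ^ (k * 2 + 1)) ⟨hvis, ?_, ?_, ?_, by omega, hb⟩ (by simp)
  · intro h a ha b hb
    have h1 := hy h
    have h2 := hy' h
    simp only [List.mem_cons, List.not_mem_nil, or_false] at ha hb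
    have h3 : 0 < 2 ^ (k * (2 * e)) := by positivity
    rcases ha with rfl | rfl <;> rcases hb with rfl | rfl <;> simp only <;> constructor <;>
      first
      | omega
      | exact True.intro
      | exact fun _ => Or.inl True.intro
  · intro h; simp
  · intro h; simp

end Pool.Agent.Hhelper80.Depth
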