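import Pool.Agent.Hhelper80.Depth.SysOf
import Pool.Agent.Hhelper80.Depth.AxF

/-!
# The gap theorem: logical depth decides a recursively enumerable set
-/

set_option linter.all false

namespace Pool.Agent.Hhelper80.Depth

/-! ### Invariance under isomorphism -/

theorem EF_of_iso {V W : Type} {G : SimpleGraph V} {H : SimpleGraph W} (e : G ≃g H) (k : ℕ) :
    ∀ ps : List (V × W), (∀ q ∈ ps, q.2 = e q.1) → EF G H k ps := by
  have hp : ∀ ps : List (V × W), (∀ q ∈ ps, q.2 = e q.1) → PIso G H ps := by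
    intro ps h a ha b hb
    rw [h a ha, h b hb]
    exact ⟨by simp, e.map_adj_iff.symm⟩
  induction k with
  | zero => exact hp
  | succ k ih =>
    intro ps h
    refine ⟨hp ps h, fun x => ⟨e x, ih _ ?_⟩, fun y => ⟨e.symm y, ih _ ?_⟩⟩
    · intro q hq
      rcases List.mem_cons.1 hq with rfl | hq
      · rfl
      · exact h q hq
    · intro q hq
      rcases List.mem_cons.1 hq with rfl | hq
      · simp
      · exact h q hq

theorem sat_congr {V W : Type} {G : SimpleGraph V} {H : SimpleGraph W} (e : G ≃g H)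
    (φ : FirstOrder.Language.graph.Sentence) : Sat G φ ↔ Sat H φ :=
  (EF_of_iso e (qdepth φ) [] (by simp)).sat_iff φ le_rfl

theorem defines_congr {V W : Type} {G : SimpleGraph V} {H : SimpleGraph W} (e : G ≃g H)
    {φ : FirstOrder.Language.graph.Sentence} (h : Defines φ G) : Defines φ H := by
  refine ⟨(sat_congr e φ).1 h.1, ?_⟩
  intro W' _ H' hH'
  obtain ⟨f⟩ := h.2 W' H' hH'
  exact ⟨e.symm.trans f⟩

/-- every nonempty finite graph has a defining sentence -/
theorem exists_defines {V : Type} [Finite V] [Nonempty V] (G : SimpleGraph V) :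
    ∃ φ, Defines φ G := by
  classical
  haveI := Fintype.ofFinite V
  let f : Fml (Option V) := Fml.exs ((Finset.univ : Finset V).toList.map some)
    (Fml.conj [Fml.conjT fun v => Fml.conjT fun w => Fml.imp (Fml.cst (v ≠ w))
        (Fml.not (Fml.eq (some v) (some w))),
      Fml.conjT fun v => Fml.conjT fun w => Fml.iff (Fml.adj (some v) (some w))
        (Fml.cst (G.Adj v w)),
      Fml.all none (Fml.disjT fun v => Fml.eq none (some v))])
  have hf : ∀ {W : Type} (H : SimpleGraph W) (a : W), Fml.eval H (fun _ => a) f ↔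
      ∃ g : V → W, (∀ v w, v ≠ w → g v ≠ g w) ∧ (∀ v w, H.Adj (g v) (g w) ↔ G.Adj v w) ∧
        ∀ b, ∃ v, b = g v := by
    intro W H a
    simp only [f]
    rw [Fml.eval_exs]
    simp only [Fml.eval_conj, List.forall_mem_cons, List.not_mem_nil, false_imp_iff,
      Fml.eval_conjT, Fml.eval_disjT, Fml.eval_imp, Fml.eval_cst, Fml.eval_not, Fml.eval_eq,
      Fml.eval_adj, Fml.eval_iff, Fml.eval_all, Function.update_self, ne_eq, reduceCtorEq,
      not_false_eq_true, Function.update_of_ne]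
    constructor
    · rintro ⟨env', h1, h2, h3, h4, -⟩
      exact ⟨fun v => env' (some v), h2, h3, h4⟩
    · rintro ⟨g, h2, h3, h4⟩
      refine ⟨fun x => match x with
        | none => a
        | some v => g v, ?_, h2, h3, h4, fun _ => trivial⟩
      rintro (_ | v) hv
      · rfl
      · simp at hv
  refine ⟨Fml.toSentence f, ?_, ?_⟩
  · rw [Fml.sat_toSentence]
    obtain ⟨a⟩ := ‹Nonempty V›
    exact ⟨a, (hf G a).2 ⟨id, fun _ _ h => h, fun _ _ => Iff.rfl, fun b => ⟨b, rfl⟩⟩⟩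
  · intro W _ H hH
    rw [Fml.sat_toSentence] at hH
    obtain ⟨a, ha⟩ := hH
    obtain ⟨g, h1, h2, h3⟩ := (hf H a).1 ha
    refine ⟨⟨Equiv.ofBijective g ⟨?_, fun b => ?_⟩, ?_⟩⟩
    · intro v w hvw
      by_contra hne
      exact h1 v w hne hvw
    · obtain ⟨v, hv⟩ := h3 b
      exact ⟨v, hv.symm⟩
    · intro v w
      exact h2 v w

/-! ### The sentences -/

variable {p : ℕ → Prop} (P : PD p) (d : ℕ)

/-- the formula describing solutions with the given parameters -/
noncomputable def phi (n j : ℕ) : SFS (sysOf P d) :=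
  SF.and (axF (sysOf P d)) (SF.and (sizeF .n n) (sizeF .k j))

/-- canonical solution -/
def canY (n j : ℕ) : Var P.H → ℕ
  | .n => 2 ^ n + 1
  | .k => 2 ^ j + 1
  | .b => (2 ^ j + 1) ^ d
  | .one => 1
  | .h _ => (2 ^ j + 1) ^ d

/-- models of the axioms are coded solutions -/
theorem coded {V : Type} [Finite V] {G : SimpleGraph V}
    {L : Clr (sysOf P d) ⊕ (Rn (sysOf P d).D × Bool) → V} (hF : Frame G L)
    (hA : AM (sysOf P d) (decCol hF) (decRel hF)) :
    ∃ (N : ℕ) (c : ColData (sysOf P d) (siz (decCol hF)) N)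
      (e : Elt (sysOf P d) (siz (decCol hF)) N ≃ {v // isEl G L v}),
      2 ≤ siz (decCol hF) .b ∧ siz (decCol hF) .one = 1 ∧
      (∀ x, decCol hF (e x) = ecol c x) ∧
      (∀ j x x', decRel hF j (e x) (e x') ↔ erel c j x x') ∧ Nonempty (SG c ≃g G) := by
  obtain ⟨N, c, e, h1, h2, h3, h4⟩ := structure_thm (sysOf_one P d) hA
  exact ⟨N, c, e, h1, h2, h3, h4, ⟨(GGcongr e h3 h4).trans (frameIso hF)⟩⟩

theorem of_sat_phi {n j : ℕ} {V : Type} [Finite V] {G : SimpleGraph V}
    (h : Sat G (Fml.toSentence (sent (phi P d n j)))) :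
    ∃ (y : Var P.H → ℕ) (N : ℕ) (c : ColData (sysOf P d) y N), 2 ≤ y .b ∧ y .one = 1 ∧
      y .n = 2 ^ n + 1 ∧ y .k = 2 ^ j + 1 ∧ Nonempty (SG c ≃g G) := by
  obtain ⟨L, hF, a, ha⟩ := of_sat_sent G (phi P d n j) h
  rw [phi, SF.eval_and, SF.eval_and, eval_axF] at ha
  obtain ⟨hA, h1, h2⟩ := ha
  obtain ⟨N, c, e, hb, hone, h3, h4, h5⟩ := coded P d hF hA
  have h6 : (fun _ : ℕ => a) = fun x => e ((fun _ => e.symm a) x) := by funext x; simp
  rw [h6, SF.eval_congr (ecol c) (erel c) _ _ (decCol hF) (decRel hF) e h3 h4,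
    eval_sizeF] at h1 h2
  exact ⟨siz (decCol hF), N, c, hb, hone, h1, h2, h5⟩

theorem sat_phi {n j : ℕ} {y : Var P.H → ℕ} {N : ℕ} (c : ColData (sysOf P d) y N)
    (hb : 2 ≤ y .b) (h1 : y .one = 1) (hn : y .n = 2 ^ n + 1) (hk : y .k = 2 ^ j + 1) :
    Sat (SG c) (Fml.toSentence (sent (phi P d n j))) := by
  apply sat_sent (ecol c) (erel c) (phi P d n j) (.base .one ⟨0, h1.symm ▸ Nat.one_pos⟩)
  rw [phi, SF.eval_and, SF.eval_and, eval_axF, eval_sizeF, eval_sizeF]
  exact ⟨std_AM c hb h1, hn, hk⟩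

/-- the canonical solution exists -/
theorem can_exists (n j : ℕ) : ∃ N, Nonempty (ColData (sysOf P d) (canY P d n j) N) := by
  refine ⟨val (sysOf P d) (canY P d n j) false, ColData.exists ?_⟩
  intro side
  cases side
  · rfl
  · symm
    rw [sysOf_eq_iff P d _ rfl]
    exact ⟨P.can _ fun h => rfl, rfl⟩

theorem eq_can {n j : ℕ} {y : Var P.H → ℕ} (h1 : y .one = 1) (hn : y .n = 2 ^ n + 1)
    (hk : y .k = 2 ^ j + 1) (hb : y .b = (2 ^ j + 1) ^ d) (hh : ∀ h, y (.h h) = y .b) :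
    y = canY P d n j := by
  funext v
  rcases v with _ | _ | _ | _ | h
  · exact hn
  · exact hk
  · exact hb
  · exact h1
  · rw [hh, hb]; rfl

theorem SG_iso_of_eq {S : Sys} {y y' : Var S.H → ℕ} (h : y = y') {N N' : ℕ}
    (c : ColData S y N) (c' : ColData S y' N') : Nonempty (SG c ≃g SG c') := by
  subst h
  have : N = N' := by rw [c.card_eq false, c'.card_eq false]
  subst this
  rw [ColData.unique c c']
  exact ⟨SimpleGraph.Iso.refl⟩

/-- outside the set, the sentence defines the canonical graph -/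
theorem defines_can {n j : ℕ} (hd : 1 ≤ d) (hp : ¬ p (2 ^ n + 1)) {N : ℕ}
    (c : ColData (sysOf P d) (canY P d n j) N) :
    Defines (Fml.toSentence (sent (phi P d n j))) (SG c) := by
  have hb : 2 ≤ canY P d n j .b := by
    have h1 : 1 ≤ 2 ^ j := Nat.one_le_two_pow
    have h2 : (2 ^ j + 1) ^ 1 ≤ (2 ^ j + 1) ^ d := Nat.pow_le_pow_right (by omega) hd
    rw [pow_one] at h2
    change 2 ≤ (2 ^ j + 1) ^ d
    omega
  refine ⟨sat_phi P d c hb rfl rfl rfl, ?_⟩
  intro W _ H hH
  obtain ⟨y, N', c', h1, h2, h3, h4, ⟨f⟩⟩ := of_sat_phi P d hH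
  have h5 : val (sysOf P d) y false = val (sysOf P d) y true := by
    rw [← c'.card_eq, ← c'.card_eq]
  rw [sysOf_eq_iff P d y h2] at h5
  have h6 := P.uni y (by rw [h3]; exact hp) h5.1
  have h7 := eq_can P d h2 h3 h4 (by rw [h5.2, h4]) h6
  obtain ⟨g⟩ := SG_iso_of_eq h7.symm c c'
  exact ⟨g.trans f⟩

/-- inside the set, the depth of the canonical graph is large -/
theorem depth_can {n j k : ℕ} (hd : 1 ≤ d) (hp : p (2 ^ n + 1)) {N : ℕ}
    (c : ColData (sysOf P d) (canY P d n j) N)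
    (hk1 : 2 ^ (k * (2 * hidOf P)) ≤ (2 ^ j + 1) ^ d)
    (hk2 : 2 ^ (k * 2 + 1) + 1 ≤ (2 ^ j + 1) ^ d) : k < logicalDepth (SG c) := by
  classical
  obtain ⟨M, hM⟩ : ∃ M, M = Nat.card (GV (Clr (sysOf P d)) (Rn (sysOf P d).D)
    (Elt (sysOf P d) (canY P d n j) N) (erel c)) := ⟨_, rfl⟩
  obtain ⟨y, h1, h2, h3, h4, h5, h6, h7⟩ := P.sol (2 ^ n + 1) (2 ^ j + 1) ((2 ^ j + 1) ^ d) hp
    (M + 1)
  have hval : val (sysOf P d) y false = val (sysOf P d) y true := by
    rw [sysOf_eq_iff P d y h4]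
    exact ⟨h7, by rw [h2, h3]⟩
  obtain ⟨c'⟩ : Nonempty (ColData (sysOf P d) y (val (sysOf P d) y false)) := by
    apply ColData.exists
    intro side
    cases side
    · rfl
    · exact hval.symm
  haveI : Nonempty (GV (Clr (sysOf P d)) (Rn (sysOf P d).D)
    (Elt (sysOf P d) (canY P d n j) N) (erel c)) := ⟨.lab .mid⟩
  apply lt_logicalDepth (H := SG c') _ _ (exists_defines _)
  · apply game (e := hidOf P) (sysOf_hcount P d) (by unfold hidOf; omega) c c' k
    · intro v hv
      rcases v with _ | _ | _ | _ | h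
      · exact h1.symm
      · exact h2.symm
      · exact h3.symm
      · exact h4.symm
      · simp [Var.hid] at hv
    · intro h; exact hk1
    · intro h; exact hk1.trans (h5 h)
    · exact hk2
  · rintro ⟨f⟩
    have hcard := Nat.card_congr f.toEquiv
    have hle : Nat.card (Fin (y (.h P.star))) ≤ Nat.card (GV (Clr (sysOf P d))
        (Rn (sysOf P d).D) (Elt (sysOf P d) y (val (sysOf P d) y false)) (erel c')) := by
      apply Nat.card_le_card_of_injective
        (fun i => (GV.el (Elt.base (.h P.star) i) : GV (Clr (sysOf P d)) (Rn (sysOf P d).D)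
          (Elt (sysOf P d) y (val (sysOf P d) y false)) (erel c')))
      intro a b hab
      simpa using hab
    rw [Nat.card_eq_fintype_card, Fintype.card_fin, ← hcard, ← hM] at hle
    omega

/-- **The gap theorem.** -/
theorem gap_thm : ∃ d c : ℕ, 1 ≤ d ∧ ∀ (n : ℕ) (V : Type) (_ : Finite V) (G : SimpleGraph V) (N : ℕ)
    (cd : ColData (sysOf P d) (canY P d n (n + c)) N), Nonempty (SG cd ≃g G) →
    (p (2 ^ n + 1) ↔ n + c + c < logicalDepth G) := by
  classical
  obtain ⟨e, he⟩ : ∃ e, e = hidOf P := ⟨_, rfl⟩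
  have he1 : 1 ≤ e := by rw [he]; unfold hidOf; omega
  obtain ⟨d, hd⟩ : ∃ d, d = 4 * e + 4 := ⟨_, rfl⟩
  obtain ⟨c, hc⟩ : ∃ c, c = Fintype.card (Clr (sysOf P d) ⊕ (Rn (sysOf P d).D × Bool)) +
    SF.dep (axF (sysOf P d)) + 10 := ⟨_, rfl⟩
  refine ⟨d, c, by omega, ?_⟩
  intro n V _ G N cd ⟨f⟩
  have hdepth : logicalDepth G = logicalDepth (SG cd) := by
    unfold logicalDepth
    congr 1
    ext k
    constructor
    · rintro ⟨φ, h1, h2⟩; exact ⟨φ, defines_congr f.symm h1, h2⟩
    · rintro ⟨φ, h1, h2⟩; exact ⟨φ, defines_congr f h1, h2⟩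
  rw [hdepth]
  constructor
  · intro hp
    have hbig : 2 ^ ((n + c) * d) ≤ (2 ^ (n + c) + 1) ^ d := by
      rw [pow_mul]
      exact Nat.pow_le_pow_left (Nat.le_succ _) d
    apply depth_can P d (by omega) hp cd
    · rw [← he]
      refine le_trans (Nat.pow_le_pow_right (by norm_num) ?_) hbig
      rw [hd]
      nlinarith
    · have h1 : 2 ^ ((n + c + c) * 2 + 1) + 1 ≤ 2 ^ ((n + c + c) * 2 + 1 + 1) := by
        rw [pow_succ 2 ((n + c + c) * 2 + 1)]
        have : 1 ≤ 2 ^ ((n + c + c) * 2 + 1) := Nat.one_le_two_pow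
        omega
      refine h1.trans (le_trans (Nat.pow_le_pow_right (by norm_num) ?_) hbig)
      rw [hd]
      have : 1 ≤ c := by omega
      nlinarith
  · intro hlt
    by_contra hp
    have h1 := logicalDepth_le (defines_can P d (j := n + c) (by omega) hp cd)
    rw [Fml.qdepth_toSentence] at h1
    have h2 := dep_sent (phi P d n (n + c))
    have h3 : SF.dep (phi P d n (n + c)) =
        max (SF.dep (axF (sysOf P d))) (max (n + 3) (n + c + 3)) := by
      rw [phi, sdep_and, sdep_and, dep_sizeF, dep_sizeF]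
    rw [h3] at h2
    omega

end Pool.Agent.Hhelper80.Depth
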