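import Mathlib

/-!
# Diophantine binomial coefficients and factorials
-/

open Dioph Fin2 Vector3
open scoped Dioph Vector3

namespace Pool.Agent.Hhelper80.MRDP

section Arith

theorem sum_digits_lt (u : ℕ) (f : ℕ → ℕ) (hf : ∀ i, f i < u) (m : ℕ) :
    ∑ i ∈ Finset.range m, f i * u ^ i < u ^ m := by
  induction m with
  | zero => simp
  | succ m ih =>
    rw [Finset.sum_range_succ]
    have h1 : f m * u ^ m ≤ (u - 1) * u ^ m := Nat.mul_le_mul_right _ (by have := hf m; omega)
    have h2 : (u - 1) * u ^ m + u ^ m = u ^ (m + 1) := by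
      have hu : 0 < u := lt_of_le_of_lt (Nat.zero_le _) (hf 0)
      rw [← Nat.succ_mul, pow_succ, mul_comm]
      congr 1
      omega
    omega

theorem digit_eq (u : ℕ) (f : ℕ → ℕ) (hf : ∀ i, f i < u) (m k : ℕ) (hk : k < m) :
    (∑ i ∈ Finset.range m, f i * u ^ i) / u ^ k % u = f k := by
  have hu : 0 < u := lt_of_le_of_lt (Nat.zero_le _) (hf 0)
  obtain ⟨r, rfl⟩ := Nat.exists_eq_add_of_lt hk
  have h1 : ∑ i ∈ Finset.range (k + r + 1), f i * u ^ i =
      ∑ i ∈ Finset.range k, f i * u ^ i +
        u ^ k * (f k + u * ∑ i ∈ Finset.range r, f (k + 1 + i) * u ^ i) := by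
    rw [show k + r + 1 = (k + 1) + r by ring, Finset.sum_range_add, Finset.sum_range_succ,
      mul_add, ← mul_assoc, Finset.mul_sum, add_assoc]
    congr 1
    rw [mul_comm]
    congr 1
    apply Finset.sum_congr rfl
    intro i _
    ring
  rw [h1, Nat.add_mul_div_left _ _ (pow_pos hu k),
    Nat.div_eq_of_lt (sum_digits_lt u f hf k), zero_add, Nat.add_mul_mod_self_left,
    Nat.mod_eq_of_lt (hf k)]

theorem choose_eq_digit (n k : ℕ) :
    ((2 ^ n + 1 + 1) ^ n / (2 ^ n + 1) ^ k) % (2 ^ n + 1) = n.choose k := by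
  have hf : ∀ i, n.choose i < 2 ^ n + 1 := fun i => Nat.lt_succ_of_le (Nat.choose_le_two_pow n i)
  have hsum : ∀ m, n < m → (2 ^ n + 1 + 1) ^ n =
      ∑ i ∈ Finset.range m, n.choose i * (2 ^ n + 1) ^ i := by
    intro m hm
    rw [add_pow]
    obtain ⟨r, rfl⟩ := Nat.exists_eq_add_of_lt hm
    rw [show n + r + 1 = (n + 1) + r by ring,
      Finset.sum_range_add (fun i => n.choose i * (2 ^ n + 1) ^ i) (n + 1) r]
    have h0 : ∑ x ∈ Finset.range r, n.choose (n + 1 + x) * (2 ^ n + 1) ^ (n + 1 + x) = 0 := by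
      apply Finset.sum_eq_zero
      intro i _
      rw [Nat.choose_eq_zero_of_lt (by omega), zero_mul]
    rw [h0, add_zero]
    apply Finset.sum_congr rfl
    intro i _
    simp [mul_comm]
  rw [hsum (max n k + 1) (by omega)]
  exact digit_eq _ _ hf _ _ (by omega)

theorem descFactorial_bound (r n : ℕ) (hn : n ≤ r) :
    r ^ n * r ≤ r * r.descFactorial n + n ^ 2 * r ^ n := by
  induction n with
  | zero => simp
  | succ m ih =>
    have ih := ih (by omega)
    have h1 : r.descFactorial m ≤ r ^ m := Nat.descFactorial_le_pow r m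
    rw [Nat.descFactorial_succ]
    obtain ⟨d, hd⟩ := Nat.exists_eq_add_of_le (show m ≤ r by omega)
    have h2 : r - m = d := by omega
    rw [h2]
    have h3 : r ^ (m + 1) = r ^ m * r := pow_succ r m
    rw [h3]
    -- r * (d * D) = r * r * D - m * r * D
    have h4 : r * (d * r.descFactorial m) + m * (r * r.descFactorial m) =
        r * (r * r.descFactorial m) := by
      have : d + m = r := by omega
      calc r * (d * r.descFactorial m) + m * (r * r.descFactorial m)
          = (d + m) * (r * r.descFactorial m) := by ring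
        _ = r * (r * r.descFactorial m) := by rw [this]
    have h5 : r * (r ^ m * r) ≤ r * (r * r.descFactorial m) + r * (m ^ 2 * r ^ m) := by
      rw [← mul_add]; exact Nat.mul_le_mul_left r ih
    have h6 : m * (r * r.descFactorial m) ≤ m * (r * r ^ m) :=
      Nat.mul_le_mul_left _ (Nat.mul_le_mul_left _ h1)
    have h7 : (m + 1) ^ 2 * (r ^ m * r) =
        r * (m ^ 2 * r ^ m) + m * (r * r ^ m) + (m + 1) * (r ^ m * r) := by ring
    nlinarith [h4, h5, h6, h7, Nat.zero_le ((m + 1) * (r ^ m * r))]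

theorem factorial_lt_aux (n : ℕ) : (n.factorial + 1) * n ^ 2 < (n + 1) ^ (n + 2) := by
  have h1 : n.factorial ≤ n ^ n := Nat.factorial_le_pow n
  have h2 : n ^ (n + 2) + (n + 2) * n ^ (n + 1) + 1 ≤ (n + 1) ^ (n + 2) := by
    have h := add_pow n 1 (n + 2)
    rw [h]
    have h3 : (Finset.range 2 ∪ {n + 2} : Finset ℕ) = Finset.range 2 ∪ {n + 2} := rfl
    rw [Finset.sum_range_succ, Finset.sum_range_succ]
    simp only [one_pow, mul_one, Nat.choose_self, Nat.cast_one]
    have h4 : n ^ 0 * 1 ≤ ∑ x ∈ Finset.range (n + 1), n ^ x * ((n + 2).choose x : ℕ) := by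
      refine le_trans ?_ (Finset.single_le_sum (f := fun x => n ^ x * ((n + 2).choose x : ℕ))
        (fun i _ => Nat.zero_le _) (Finset.mem_range.2 (Nat.succ_pos n)))
      simp
    have h5 : (n + 2).choose (n + 1) = n + 2 := by
      rw [Nat.choose_succ_self_right]
    simp only [Nat.cast_id] at *
    rw [h5]
    nlinarith
  have h3 : n ^ (n + 2) = n ^ n * n ^ 2 := pow_add n n 2
  have h4 : n ^ 2 ≤ (n + 2) * n ^ (n + 1) := by
    rcases Nat.eq_zero_or_pos n with h | h
    · subst h; simp
    · have : n ≤ n ^ (n + 1) := Nat.le_self_pow (by omega) n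
      nlinarith
  nlinarith [Nat.mul_le_mul_right (n ^ 2) h1]

theorem factorial_eq_div (n : ℕ) :
    ((n + 1) ^ (n + 2)) ^ n / ((n + 1) ^ (n + 2)).choose n = n.factorial := by
  set r := (n + 1) ^ (n + 2) with hr
  have hlt := factorial_lt_aux n
  rw [← hr] at hlt
  have hnr : n ≤ r := by
    rw [hr]
    calc n ≤ n + 1 := Nat.le_succ n
      _ ≤ (n + 1) ^ (n + 2) := Nat.le_self_pow (by omega) _
  have hcpos : 0 < r.choose n := Nat.choose_pos hnr
  have hD : r.descFactorial n = n.factorial * r.choose n := Nat.descFactorial_eq_factorial_mul_choose r n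
  have hb := descFactorial_bound r n hnr
  have hrpos : 0 < r := by positivity
  rw [Nat.div_eq_iff hcpos]
  have h1 : r.descFactorial n ≤ r ^ n := Nat.descFactorial_le_pow r n
  constructor
  · rw [← hD]; exact h1
  · -- r ^ n < (n! + 1) * choose
    have hpow : 0 < r ^ n := pow_pos hrpos n
    have key : n.factorial * r ^ n * r < (n.factorial + 1) * r.descFactorial n * r := by
      nlinarith [Nat.mul_le_mul_left (n.factorial + 1) hb, Nat.mul_lt_mul_of_pos_left hlt hpow]
    have key2 : n.factorial * r ^ n < (n.factorial + 1) * r.descFactorial n :=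
      Nat.lt_of_mul_lt_mul_right key
    rw [hD] at key2
    have key3 : n.factorial * r ^ n < n.factorial * ((n.factorial + 1) * r.choose n) := by
      calc n.factorial * r ^ n < (n.factorial + 1) * (n.factorial * r.choose n) := key2
        _ = _ := by ring
    have key4 := Nat.lt_of_mul_lt_mul_left key3
    have : n.factorial * r.choose n + r.choose n = (n.factorial + 1) * r.choose n := by ring
    omega

end Arith

section Dioph

variable {α : Type} {f g : (α → ℕ) → ℕ}

theorem choose_dioph (df : DiophFn f) (dg : DiophFn g) :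
    DiophFn fun v => (f v).choose (g v) := by
  have h : DiophFn fun v => ((2 ^ f v + 1 + 1) ^ f v / (2 ^ f v + 1) ^ g v) % (2 ^ f v + 1) :=
    Dioph.mod_dioph (Dioph.div_dioph
      (Dioph.pow_dioph (Dioph.add_dioph (Dioph.add_dioph (Dioph.pow_dioph (Dioph.const_dioph 2) df)
        (Dioph.const_dioph 1)) (Dioph.const_dioph 1)) df)
      (Dioph.pow_dioph (Dioph.add_dioph (Dioph.pow_dioph (Dioph.const_dioph 2) df)
        (Dioph.const_dioph 1)) dg))
      (Dioph.add_dioph (Dioph.pow_dioph (Dioph.const_dioph 2) df) (Dioph.const_dioph 1))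
  have : (fun v => (f v).choose (g v)) =
      fun v => ((2 ^ f v + 1 + 1) ^ f v / (2 ^ f v + 1) ^ g v) % (2 ^ f v + 1) :=
    funext fun v => (choose_eq_digit (f v) (g v)).symm
  rw [this]
  exact h

theorem factorial_dioph (df : DiophFn f) : DiophFn fun v => (f v).factorial := by
  have hr : DiophFn fun v => (f v + 1) ^ (f v + 2) :=
    Dioph.pow_dioph (Dioph.add_dioph df (Dioph.const_dioph 1))
      (Dioph.add_dioph df (Dioph.const_dioph 2))
  have h : DiophFn fun v => ((f v + 1) ^ (f v + 2)) ^ f v / ((f v + 1) ^ (f v + 2)).choose (f v) :=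
    Dioph.div_dioph (Dioph.pow_dioph hr df) (choose_dioph hr df)
  have : (fun v => (f v).factorial) =
      fun v => ((f v + 1) ^ (f v + 2)) ^ f v / ((f v + 1) ^ (f v + 2)).choose (f v) :=
    funext fun v => (factorial_eq_div (f v)).symm
  rw [this]
  exact h

end Dioph

end Pool.Agent.Hhelper80.MRDP
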