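import Pool.Agent.Hhelper80.Depth.MRDP1

/-!
# Diophantine sets are closed under bounded universal quantification
-/

open Dioph
open scoped Dioph

namespace Pool.Agent.Hhelper80.MRDP

section NumberTheory

/-- the `z`-th factor -/
def fz (c z : ℕ) : ℕ := (c + 1) / (z + 1) - 1

variable {Q y c : ℕ}

theorem c_add_one (hc : c = Q.factorial * Q.factorial - 1) :
    c + 1 = Q.factorial * Q.factorial := by
  have : 0 < Q.factorial * Q.factorial := by positivity
  omega

theorem fz_add_one (hQ : 3 ≤ Q) (hy : y ≤ Q) (hc : c = Q.factorial * Q.factorial - 1)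
    {z : ℕ} (hz : z < y) : (z + 1) * (fz c z + 1) = c + 1 ∧ Q.factorial ∣ fz c z + 1 ∧
      1 < fz c z := by
  have hc1 := c_add_one hc
  have hd : (z + 1) ∣ Q.factorial := Nat.dvd_factorial (by omega) (by omega)
  obtain ⟨e, he⟩ := hd
  have hpos : 0 < Q.factorial := Nat.factorial_pos Q
  have hepos : 0 < e := by
    rcases Nat.eq_zero_or_pos e with h | h
    · rw [h, mul_zero] at he; omega
    · exact h
  have hdiv : (c + 1) / (z + 1) = e * Q.factorial := by
    have h1 : Q.factorial * Q.factorial = (z + 1) * (e * Q.factorial) := by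
      rw [← mul_assoc, ← he]
    rw [hc1, h1, Nat.mul_div_cancel_left _ (Nat.succ_pos z)]
  have h6 : 6 ≤ Q.factorial := by
    calc 6 = (3 : ℕ).factorial := rfl
      _ ≤ Q.factorial := Nat.factorial_le hQ
  have hge : 6 ≤ e * Q.factorial := le_trans h6 (Nat.le_mul_of_pos_left _ hepos)
  have hfz : fz c z + 1 = e * Q.factorial := by
    unfold fz
    rw [hdiv]
    omega
  refine ⟨?_, ?_, ?_⟩
  · rw [hfz, hc1, ← mul_assoc, ← he]
  · rw [hfz]; exact dvd_mul_left _ _
  · omega

theorem fz_mul (hQ : 3 ≤ Q) (hy : y ≤ Q) (hc : c = Q.factorial * Q.factorial - 1)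
    {z : ℕ} (hz : z < y) : (z + 1) * fz c z + z = c := by
  have h := (fz_add_one hQ hy hc hz).1
  nlinarith

theorem prime_gt (hQ : 3 ≤ Q) (hy : y ≤ Q) (hc : c = Q.factorial * Q.factorial - 1)
    {z : ℕ} (hz : z < y) {p : ℕ} (hp : p.Prime) (hpf : p ∣ fz c z) : Q < p := by
  by_contra hle
  push Not at hle
  have h1 : p ∣ Q.factorial := (Nat.Prime.dvd_factorial hp).2 hle
  have h2 : p ∣ fz c z + 1 := h1.trans (fz_add_one hQ hy hc hz).2.1
  have h3 : p ∣ 1 := (Nat.dvd_add_right hpf).1 h2
  exact hp.one_lt.ne' (Nat.dvd_one.1 h3)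

theorem fz_coprime (hQ : 3 ≤ Q) (hy : y ≤ Q) (hc : c = Q.factorial * Q.factorial - 1)
    {z z' : ℕ} (hz : z < y) (hz' : z' < y) (hne : z ≠ z') : Nat.Coprime (fz c z) (fz c z') := by
  apply Nat.coprime_of_dvd
  intro p hp h1 h2
  have hgt := prime_gt hQ hy hc hz hp h1
  have e1 := fz_mul hQ hy hc hz
  have e2 := fz_mul hQ hy hc hz'
  have d1 : (p : ℤ) ∣ (c : ℤ) - z := by
    have : (((z + 1) * fz c z : ℕ) : ℤ) = (c : ℤ) - z := by
      have := congrArg (Nat.cast (R := ℤ)) e1
      push_cast at this ⊢
      linarith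
    rw [← this]
    exact Int.natCast_dvd_natCast.2 (Dvd.dvd.mul_left h1 _)
  have d2 : (p : ℤ) ∣ (c : ℤ) - z' := by
    have : (((z' + 1) * fz c z' : ℕ) : ℤ) = (c : ℤ) - z' := by
      have := congrArg (Nat.cast (R := ℤ)) e2
      push_cast at this ⊢
      linarith
    rw [← this]
    exact Int.natCast_dvd_natCast.2 (Dvd.dvd.mul_left h2 _)
  have d3 : (p : ℤ) ∣ (z' : ℤ) - z := by
    have := dvd_sub d1 d2
    simpa using this
  have d4 : p ∣ ((z' : ℤ) - z).natAbs := by
    exact Int.natCast_dvd.1 d3
  have hpos : 0 < ((z' : ℤ) - z).natAbs := by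
    rw [Int.natAbs_pos]; intro h; apply hne; omega
  have := Nat.le_of_dvd hpos d4
  omega

theorem choose_eq_prod (hQ : 3 ≤ Q) (hy : y ≤ Q) (hc : c = Q.factorial * Q.factorial - 1) :
    c.choose y = ∏ z ∈ Finset.range y, fz c z := by
  have h1 : c.descFactorial y = y.factorial * ∏ z ∈ Finset.range y, fz c z := by
    rw [Nat.descFactorial_eq_prod_range]
    have h2 : ∀ z ∈ Finset.range y, c - z = (z + 1) * fz c z := by
      intro z hz
      have := fz_mul hQ hy hc (Finset.mem_range.1 hz)
      omega
    rw [Finset.prod_congr rfl h2, Finset.prod_mul_distrib, Finset.prod_range_add_one_eq_factorial]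
  rw [Nat.descFactorial_eq_factorial_mul_choose] at h1
  exact Nat.eq_of_mul_eq_mul_left (Nat.factorial_pos y) h1

theorem prime_dvd_choose {p a u : ℕ} (hp : p.Prime) (h : p ∣ a.choose u) (hu : u < p) :
    a % p < u := by
  have h1 : p ∣ a.descFactorial u := by
    rw [Nat.descFactorial_eq_factorial_mul_choose]
    exact Dvd.dvd.mul_left h _
  rw [Nat.descFactorial_eq_prod_range] at h1
  obtain ⟨j, hj, hd⟩ := (Prime.dvd_finsetProd_iff hp.prime _).1 h1
  rw [Finset.mem_range] at hj
  by_cases hja : j ≤ a
  · have h2 : a ≡ j [MOD p] := ((Nat.modEq_iff_dvd' hja).2 hd).symm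
    have h3 : a % p = j := by
      rw [h2, Nat.mod_eq_of_lt (by omega)]
    omega
  · have : a % p ≤ a := Nat.mod_le a p
    omega

theorem dvd_choose_of_modEq {M : ℕ} (s : Finset ℕ) (f : ℕ → ℕ) (hM : M = ∏ z ∈ s, f z)
    (hcop : ∀ z ∈ s, ∀ z' ∈ s, z ≠ z' → Nat.Coprime (f z) (f z'))
    (a u : ℕ) (t : ℕ → ℕ) (ht : ∀ z ∈ s, t z < u) (hmod : ∀ z ∈ s, a ≡ t z [MOD f z])
    (hcu : ∀ z ∈ s, Nat.Coprime (f z) u.factorial) : M ∣ a.choose u := by
  rw [hM]
  apply Finset.prod_dvd_of_isRelPrime
  · intro z hz z' hz' hne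
    exact Nat.coprime_iff_isRelPrime.1 (hcop z hz z' hz' hne)
  · intro z hz
    have h1 : f z ∣ a.descFactorial u := by
      rw [Nat.descFactorial_eq_prod_range]
      by_cases hta : t z ≤ a
      · have h2 : f z ∣ a - t z := (Nat.modEq_iff_dvd' hta).1 (hmod z hz).symm
        exact h2.trans (Finset.dvd_prod_of_mem _ (Finset.mem_range.2 (ht z hz)))
      · have : ∏ i ∈ Finset.range u, (a - i) = 0 := by
          apply Finset.prod_eq_zero (i := a)
          · rw [Finset.mem_range]; have := ht z hz; omega
          · simp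
        rw [this]; exact dvd_zero _
    rw [Nat.descFactorial_eq_factorial_mul_choose] at h1
    exact (hcu z hz).dvd_of_dvd_mul_left h1

end NumberTheory

section Polys

theorem poly_modEq {γ : Type} (p : Poly γ) (m : ℤ) (x x' : γ → ℕ)
    (h : ∀ i, (x i : ℤ) ≡ x' i [ZMOD m]) : p x ≡ p x' [ZMOD m] := by
  induction p using Poly.induction with
  | H1 i => simpa using h i
  | H2 n => simp
  | H3 f g hf hg => simpa using hf.sub hg
  | H4 f g hf hg => simpa using hf.mul hg

theorem poly_bound {α β : Type} (p : Poly (Option α ⊕ β)) :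
    ∃ (F : Finset β) (B : (Option (Option α) → ℕ) → ℕ), DiophFn B ∧
      (∀ v t t', (∀ i ∈ F, t i = t' i) → p (Sum.elim v t) = p (Sum.elim v t')) ∧
      (∀ (w : Option (Option α) → ℕ) (z : ℕ) (t : β → ℕ), z < w (some none) →
        (∀ i ∈ F, t i < w none) →
        (p (Sum.elim (Option.elim' z (fun a => w (some (some a)))) t)).natAbs ≤ B w) := by
  classical
  induction p using Poly.induction with
  | H1 i =>
    rcases i with i | i
    · rcases i with _ | a
      · refine ⟨∅, fun w => w (some none), proj_dioph _, ?_, ?_⟩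
        · intro v t t' _; rfl
        · intro w z t hz _
          simp only [Poly.proj_apply, Sum.elim_inl, Option.elim'_none, Int.natAbs_natCast]
          omega
      · refine ⟨∅, fun w => w (some (some a)), proj_dioph _, ?_, ?_⟩
        · intro v t t' _; rfl
        · intro w z t hz _
          simp
    · refine ⟨{i}, fun w => w none, proj_dioph _, ?_, ?_⟩
      · intro v t t' h
        simpa using h i (Finset.mem_singleton_self i)
      · intro w z t hz h
        have := h i (Finset.mem_singleton_self i)
        simp only [Poly.proj_apply, Sum.elim_inr, Int.natAbs_natCast]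
        omega
  | H2 n =>
    refine ⟨∅, fun w => n.natAbs, const_dioph _, ?_, ?_⟩
    · intro v t t' _; rfl
    · intro w z t _ _
      simp
  | H3 f g hf hg =>
    obtain ⟨F1, B1, d1, e1, b1⟩ := hf
    obtain ⟨F2, B2, d2, e2, b2⟩ := hg
    refine ⟨F1 ∪ F2, fun w => B1 w + B2 w, add_dioph d1 d2, ?_, ?_⟩
    · intro v t t' h
      rw [Poly.sub_apply, Poly.sub_apply,
        e1 v t t' (fun i hi => h i (Finset.mem_union_left _ hi)),
        e2 v t t' (fun i hi => h i (Finset.mem_union_right _ hi))]
    · intro w z t hz h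
      rw [Poly.sub_apply]
      refine le_trans (Int.natAbs_sub_le _ _) (add_le_add ?_ ?_)
      · exact b1 w z t hz (fun i hi => h i (Finset.mem_union_left _ hi))
      · exact b2 w z t hz (fun i hi => h i (Finset.mem_union_right _ hi))
  | H4 f g hf hg =>
    obtain ⟨F1, B1, d1, e1, b1⟩ := hf
    obtain ⟨F2, B2, d2, e2, b2⟩ := hg
    refine ⟨F1 ∪ F2, fun w => B1 w * B2 w, mul_dioph d1 d2, ?_, ?_⟩
    · intro v t t' h
      rw [Poly.mul_apply, Poly.mul_apply,
        e1 v t t' (fun i hi => h i (Finset.mem_union_left _ hi)),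
        e2 v t t' (fun i hi => h i (Finset.mem_union_right _ hi))]
    · intro w z t hz h
      rw [Poly.mul_apply, Int.natAbs_mul]
      refine Nat.mul_le_mul ?_ ?_
      · exact b1 w z t hz (fun i hi => h i (Finset.mem_union_left _ hi))
      · exact b2 w z t hz (fun i hi => h i (Finset.mem_union_right _ hi))

/-- the auxiliary numbers of the bounded quantifier theorem -/
def cNum (Q : ℕ) : ℕ := Q.factorial * Q.factorial - 1

/-- **Bounded quantifier theorem**, arithmetic core. -/
theorem core {α β : Type} (p : Poly (Option α ⊕ β)) (F : Finset β)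
    (B : (Option (Option α) → ℕ) → ℕ)
    (hdep : ∀ v t t', (∀ i ∈ F, t i = t' i) → p (Sum.elim v t) = p (Sum.elim v t'))
    (hbd : ∀ (w : Option (Option α) → ℕ) (z : ℕ) (t : β → ℕ), z < w (some none) →
        (∀ i ∈ F, t i < w none) →
        (p (Sum.elim (Option.elim' z (fun a => w (some (some a)))) t)).natAbs ≤ B w)
    (v : Option α → ℕ) :
    (∀ z < v none, ∃ t, p (Sum.elim (Option.elim' z (v ∘ some)) t) = 0) ↔
    ∃ u, ∃ a : β → ℕ,
      (∀ i ∈ F, (cNum (B (Option.elim' u v) + u + v none + 3)).choose (v none) ∣ (a i).choose u) ∧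
      (cNum (B (Option.elim' u v) + u + v none + 3)).choose (v none) ∣
        (p (Sum.elim (Option.elim' (cNum (B (Option.elim' u v) + u + v none + 3)) (v ∘ some))
          a)).natAbs := by
  classical
  set y := v none with hy
  constructor
  · intro h
    choose! t ht using h
    -- a bound
    obtain ⟨u, hu⟩ : ∃ u, ∀ i ∈ F, ∀ z < y, t z i < u := by
      refine ⟨(F.sup fun i => (Finset.range y).sup fun z => t z i) + 1, ?_⟩
      intro i hi z hz
      have h1 : t z i ≤ (Finset.range y).sup fun z => t z i :=
        Finset.le_sup (f := fun z => t z i) (Finset.mem_range.2 hz)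
      have h2 : ((Finset.range y).sup fun z => t z i) ≤
          F.sup fun i => (Finset.range y).sup fun z => t z i :=
        Finset.le_sup (f := fun i => (Finset.range y).sup fun z => t z i) hi
      omega
    set Q := B (Option.elim' u v) + u + y + 3 with hQ
    set c := cNum Q with hc
    have hQ3 : 3 ≤ Q := by omega
    have hyQ : y ≤ Q := by omega
    have huQ : u ≤ Q := by omega
    have hMprod := choose_eq_prod hQ3 hyQ hc
    have hne : ∀ z ∈ Finset.range y, fz c z ≠ 0 := by
      intro z hz
      have := (fz_add_one hQ3 hyQ hc (Finset.mem_range.1 hz)).2.2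
      omega
    have hcop : Set.Pairwise (↑(Finset.range y)) (Function.onFun Nat.Coprime (fz c)) := by
      intro z hz z' hz' hne
      exact fz_coprime hQ3 hyQ hc (by simpa using hz) (by simpa using hz') hne
    let a : β → ℕ := fun i => if i ∈ F then
      (Nat.chineseRemainderOfFinset (fun z => t z i) (fz c) (Finset.range y) hne hcop : ℕ) else 0
    have ha : ∀ i ∈ F, ∀ z < y, a i ≡ t z i [MOD fz c z] := by
      intro i hi z hz
      simp only [a, if_pos hi]
      exact (Nat.chineseRemainderOfFinset (fun z => t z i) (fz c) (Finset.range y)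
        hne hcop).2 z (Finset.mem_range.2 hz)
    have hcopu : ∀ z < y, Nat.Coprime (fz c z) u.factorial := by
      intro z hz
      apply Nat.coprime_of_dvd
      intro q hq h1 h2
      have hgt := prime_gt hQ3 hyQ hc hz hq h1
      have hle := (Nat.Prime.dvd_factorial hq).1 h2
      omega
    refine ⟨u, a, ?_, ?_⟩
    · intro i hi
      refine dvd_choose_of_modEq (Finset.range y) (fz c) hMprod ?_ (a i) u (fun z => t z i) ?_ ?_ ?_
      · intro z hz z' hz' hne
        exact hcop (by simpa using hz) (by simpa using hz') hne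
      · intro z hz
        exact hu i hi z (Finset.mem_range.1 hz)
      · intro z hz
        exact ha i hi z (Finset.mem_range.1 hz)
      · intro z hz
        exact hcopu z (Finset.mem_range.1 hz)
    · rw [hMprod]
      apply Finset.prod_dvd_of_isRelPrime
      · intro z hz z' hz' hne
        exact Nat.coprime_iff_isRelPrime.1 (hcop hz hz' hne)
      · intro z hz
        rw [Finset.mem_range] at hz
        have h1 : p (Sum.elim (Option.elim' c (v ∘ some)) a) ≡
            p (Sum.elim (Option.elim' z (v ∘ some)) (fun i => if i ∈ F then t z i else a i))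
            [ZMOD (fz c z : ℕ)] := by
          apply poly_modEq
          rintro ((_ | x) | i)
          · simp only [Sum.elim_inl, Option.elim'_none]
            have := fz_mul hQ3 hyQ hc hz
            have h2 : (c : ℤ) = z + (fz c z : ℕ) * ((z : ℤ) + 1) := by
              have := congrArg (Nat.cast (R := ℤ)) this
              push_cast at this ⊢
              linarith
            rw [h2]
            exact (Int.modEq_iff_dvd.2 ⟨-((z : ℤ) + 1), by ring⟩)
          · simp only [Sum.elim_inl, Option.elim'_some]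
            rfl
          · simp only [Sum.elim_inr]
            by_cases hi : i ∈ F
            · simp only [if_pos hi]
              exact Int.natCast_modEq_iff.2 (ha i hi z hz)
            · simp only [if_neg hi]
              rfl
        have h2 : p (Sum.elim (Option.elim' z (v ∘ some)) (fun i => if i ∈ F then t z i else a i))
            = 0 := by
          rw [hdep _ _ (t z) (fun i hi => by simp [hi])]
          exact ht z hz
        rw [h2] at h1
        exact Int.natCast_dvd.1 (Int.modEq_zero_iff_dvd.1 h1)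
  · rintro ⟨u, a, h1, h2⟩ z hz
    set Q := B (Option.elim' u v) + u + y + 3 with hQ
    set c := cNum Q with hc
    have hQ3 : 3 ≤ Q := by omega
    have hyQ : y ≤ Q := by omega
    have hMprod := choose_eq_prod hQ3 hyQ hc
    have hf1 := (fz_add_one hQ3 hyQ hc hz).2.2
    obtain ⟨q, hq, hqf⟩ := Nat.exists_prime_and_dvd (show fz c z ≠ 1 by omega)
    have hgt := prime_gt hQ3 hyQ hc hz hq hqf
    have hqM : q ∣ c.choose y := by
      rw [hMprod]
      exact hqf.trans (Finset.dvd_prod_of_mem _ (Finset.mem_range.2 hz))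
    refine ⟨fun i => a i % q, ?_⟩
    have hlt : ∀ i ∈ F, a i % q < u := fun i hi =>
      prime_dvd_choose hq (hqM.trans (h1 i hi)) (by omega)
    have h3 : p (Sum.elim (Option.elim' c (v ∘ some)) a) ≡
        p (Sum.elim (Option.elim' z (v ∘ some)) (fun i => a i % q)) [ZMOD (q : ℕ)] := by
      apply poly_modEq
      rintro ((_ | x) | i)
      · simp only [Sum.elim_inl, Option.elim'_none]
        have := fz_mul hQ3 hyQ hc hz
        obtain ⟨e, he⟩ := hqf
        have h2 : (c : ℤ) = z + (q : ℕ) * ((e : ℤ) * ((z : ℤ) + 1)) := by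
          have := congrArg (Nat.cast (R := ℤ)) this
          rw [he] at this
          push_cast at this ⊢
          linarith
        rw [h2]
        exact (Int.modEq_iff_dvd.2 ⟨-((e : ℤ) * ((z : ℤ) + 1)), by ring⟩)
      · simp only [Sum.elim_inl, Option.elim'_some]
        rfl
      · simp only [Sum.elim_inr]
        push_cast
        exact (Int.mod_modEq _ _).symm
    have h4 : (q : ℤ) ∣ p (Sum.elim (Option.elim' c (v ∘ some)) a) :=
      Int.natCast_dvd.2 (hqM.trans h2)
    have h5 : (q : ℤ) ∣ p (Sum.elim (Option.elim' z (v ∘ some)) (fun i => a i % q)) :=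
      (Int.ModEq.dvd_iff h3).1 h4
    have h6 := hbd (Option.elim' u v) z (fun i => a i % q) (by simpa using hz)
      (by simpa using hlt)
    have h7 : (fun a => (Option.elim' u v : Option (Option α) → ℕ) (some (some a))) = v ∘ some :=
      rfl
    rw [h7] at h6
    have h8 : q ∣ (p (Sum.elim (Option.elim' z (v ∘ some)) (fun i => a i % q))).natAbs :=
      Int.natCast_dvd.1 h5
    have h9 := Nat.eq_zero_of_dvd_of_lt h8 (by omega)
    exact Int.natAbs_eq_zero.1 h9

end Polys

section Closure

theorem forall_finset_dioph {α β : Type} (F : Finset β) (S : β → Set (α → ℕ))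
    (h : ∀ i ∈ F, Dioph (S i)) : Dioph {v : α → ℕ | ∀ i ∈ F, v ∈ S i} := by
  classical
  induction F using Finset.induction_on with
  | empty =>
    refine Dioph.ext (Dioph.eq_dioph (Dioph.const_dioph 0) (Dioph.const_dioph 0)) ?_
    intro v; simp
  | insert i F hi ih =>
    refine Dioph.ext ((h i (Finset.mem_insert_self i F)).inter
      (ih fun j hj => h j (Finset.mem_insert_of_mem hj))) ?_
    intro v
    simp only [Set.mem_inter_iff, Set.mem_ofPred_eq, Finset.forall_mem_insert]

/-- Diophantine sets are closed under bounded universal quantification. -/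
theorem bounded_forall {α : Type} {S : Set (Option α → ℕ)} (d : Dioph S) :
    Dioph {v : Option α → ℕ | ∀ z < v none, Option.elim' z (v ∘ some) ∈ S} := by
  classical
  obtain ⟨β, p, pe⟩ := d
  obtain ⟨F, B, dB, hdep, hbd⟩ := poly_bound p
  -- variables: none = u, some none = y, some (some a) = v a, inr i = a i
  have hrw : {v : Option α → ℕ | ∀ z < v none, Option.elim' z (v ∘ some) ∈ S} =
      {v | ∃ u, Option.elim' u v ∈ {w : Option (Option α) → ℕ | ∃ a : β → ℕ,
        Sum.elim w a ∈ {x : Option (Option α) ⊕ β → ℕ |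
          (∀ i ∈ F, (cNum (B (x ∘ Sum.inl) + x (Sum.inl none) + x (Sum.inl (some none)) + 3)).choose
            (x (Sum.inl (some none))) ∣ (x (Sum.inr i)).choose (x (Sum.inl none))) ∧
          (cNum (B (x ∘ Sum.inl) + x (Sum.inl none) + x (Sum.inl (some none)) + 3)).choose
            (x (Sum.inl (some none))) ∣
          (p (Sum.elim (Option.elim' (cNum (B (x ∘ Sum.inl) + x (Sum.inl none) +
            x (Sum.inl (some none)) + 3)) (fun a => x (Sum.inl (some (some a)))))
              (x ∘ Sum.inr))).natAbs}}} := by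
    ext v
    simp only [Set.mem_ofPred_eq]
    simp_rw [pe]
    rw [core p F B hdep hbd v]
    rfl
  rw [hrw]
  apply Dioph.ex1_dioph
  apply Dioph.ex_dioph
  -- the function c
  have dC : ∀ {γ : Type} {f : (γ → ℕ) → ℕ}, DiophFn f → DiophFn fun x => cNum (f x) := by
    intro γ f df
    exact Dioph.sub_dioph (Dioph.mul_dioph (factorial_dioph df) (factorial_dioph df))
      (Dioph.const_dioph 1)
  have dB' : DiophFn fun x : Option (Option α) ⊕ β → ℕ => B (x ∘ Sum.inl) :=
    Dioph.reindex_diophFn Sum.inl dB
  have dQ : DiophFn fun x : Option (Option α) ⊕ β → ℕ =>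
      B (x ∘ Sum.inl) + x (Sum.inl none) + x (Sum.inl (some none)) + 3 :=
    Dioph.add_dioph (Dioph.add_dioph (Dioph.add_dioph dB' (Dioph.proj_dioph _))
      (Dioph.proj_dioph _)) (Dioph.const_dioph 3)
  have dM : DiophFn fun x : Option (Option α) ⊕ β → ℕ =>
      (cNum (B (x ∘ Sum.inl) + x (Sum.inl none) + x (Sum.inl (some none)) + 3)).choose
        (x (Sum.inl (some none))) :=
    choose_dioph (dC dQ) (Dioph.proj_dioph _)
  refine Dioph.inter (S := {x | ∀ i ∈ F, _}) ?_ ?_
  · apply forall_finset_dioph F (fun i => {x : Option (Option α) ⊕ β → ℕ |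
      (cNum (B (x ∘ Sum.inl) + x (Sum.inl none) + x (Sum.inl (some none)) + 3)).choose
        (x (Sum.inl (some none))) ∣ (x (Sum.inr i)).choose (x (Sum.inl none))})
    intro i _
    exact Dioph.dvd_dioph dM (choose_dioph (Dioph.proj_dioph _) (Dioph.proj_dioph _))
  · -- substitute c
    let S' : Set (Option (Option (Option α) ⊕ β) → ℕ) := {x' |
      (cNum (B ((x' ∘ some) ∘ Sum.inl) + x' (some (Sum.inl none)) +
        x' (some (Sum.inl (some none))) + 3)).choose (x' (some (Sum.inl (some none)))) ∣
      (p (Sum.elim (Option.elim' (x' none) (fun a => x' (some (Sum.inl (some (some a))))))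
        (fun i => x' (some (Sum.inr i))))).natAbs}
    have dS' : Dioph S' := by
      refine Dioph.dvd_dioph (Dioph.reindex_diophFn some dM) ?_
      have h := Dioph.abs_poly_dioph (p.map (Sum.elim (Option.elim' (none)
        (fun a => some (Sum.inl (some (some a))))) (fun i => some (Sum.inr i)) :
          Option α ⊕ β → Option (Option (Option α) ⊕ β)))
      have h2 : (fun x' : Option (Option (Option α) ⊕ β) → ℕ =>
        (p (Sum.elim (Option.elim' (x' none) (fun a => x' (some (Sum.inl (some (some a))))))
        (fun i => x' (some (Sum.inr i))))).natAbs) = fun v => ((p.map (Sum.elim (Option.elim' (none)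
        (fun a => some (Sum.inl (some (some a))))) (fun i => some (Sum.inr i)) :
          Option α ⊕ β → Option (Option (Option α) ⊕ β))) v).natAbs := by
        funext x'
        simp only [Poly.map_apply]
        congr 2
        funext s
        rcases s with (_ | a) | i <;> rfl
      rw [h2]
      exact h
    have := Dioph.diophFn_comp1 dS' (dC dQ)
    exact this

end Closure

end Pool.Agent.Hhelper80.MRDP
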