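import Pool.Agent.Hhelper80.Depth.MRDP2

/-!
# Recursively enumerable sets are Diophantine
-/

open Dioph
open scoped Dioph

namespace Pool.Agent.Hhelper80.MRDP

/-- bounded universal quantification, functional form -/
theorem bounded_forall' {α : Type} {S : Set (Option α → ℕ)} (d : Dioph S) {f : (α → ℕ) → ℕ}
    (df : DiophFn f) : Dioph {v : α → ℕ | ∀ z < f v, Option.elim' z v ∈ S} := by
  have h := Dioph.diophFn_comp1 (bounded_forall d) df
  refine Dioph.ext h ?_
  intro v
  simp only [Set.mem_ofPred_eq, Option.elim'_none]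
  rfl

/-- existential quantification -/
theorem exists_dioph {α : Type} {P : ℕ → (α → ℕ) → Prop}
    (d : Dioph {v : Option α → ℕ | P (v none) (v ∘ some)}) : Dioph {v : α → ℕ | ∃ x, P x v} := by
  refine Dioph.ext (Dioph.ex1_dioph d) ?_
  intro v
  rfl

/-- unary functions with Diophantine graph -/
def DF (f : ℕ → ℕ) : Prop := DiophFn (fun v : Unit → ℕ => f (v ()))

theorem DF.comp {f : ℕ → ℕ} (hf : DF f) {α : Type} {g : (α → ℕ) → ℕ} (dg : DiophFn g) :
    DiophFn fun v => f (g v) := by
  -- y = f (g v)  iff  exists x, x = g v and y = f x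
  have h : Dioph {w : Option α → ℕ | ∃ x, x = g (w ∘ some) ∧ f x = w none} := by
    apply exists_dioph (P := fun x w => x = g (w ∘ some) ∧ f x = w none)
    refine Dioph.inter (S := {v | v none = g ((v ∘ some) ∘ some)}) ?_ ?_
    · exact Dioph.eq_dioph (Dioph.proj_dioph _)
        (Dioph.reindex_diophFn (some ∘ some) dg)
    · have h1 := Dioph.reindex_dioph (Option (Option α))
        (Option.elim' (some none) (fun _ => none) : Option Unit → Option (Option α)) hf
      exact h1
  refine Dioph.ext h ?_
  intro w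
  simp only [Set.mem_ofPred_eq]
  constructor
  · rintro ⟨x, rfl, h⟩; exact h
  · intro h; exact ⟨_, rfl, h⟩

theorem pair_dioph {α : Type} {f g : (α → ℕ) → ℕ} (df : DiophFn f) (dg : DiophFn g) :
    DiophFn fun v => Nat.pair (f v) (g v) := by
  have h : Dioph {w : Option α → ℕ |
      (f (w ∘ some) < g (w ∘ some) ∧ g (w ∘ some) * g (w ∘ some) + f (w ∘ some) = w none) ∨
      (g (w ∘ some) ≤ f (w ∘ some) ∧
        f (w ∘ some) * f (w ∘ some) + f (w ∘ some) + g (w ∘ some) = w none)} := by
    have df' : DiophFn fun w : Option α → ℕ => f (w ∘ some) := Dioph.reindex_diophFn some df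
    have dg' : DiophFn fun w : Option α → ℕ => g (w ∘ some) := Dioph.reindex_diophFn some dg
    refine Dioph.union (Dioph.inter (Dioph.lt_dioph df' dg') (Dioph.eq_dioph
      (Dioph.add_dioph (Dioph.mul_dioph dg' dg') df') (Dioph.proj_dioph _)))
      (Dioph.inter (Dioph.le_dioph dg' df') (Dioph.eq_dioph
      (Dioph.add_dioph (Dioph.add_dioph (Dioph.mul_dioph df' df') df') dg') (Dioph.proj_dioph _)))
  refine Dioph.ext h ?_
  intro w
  simp only [Set.mem_ofPred_eq, Nat.pair]
  split_ifs with hlt
  · constructor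
    · rintro (⟨_, h⟩ | ⟨h, _⟩)
      · exact h
      · omega
    · intro h; exact Or.inl ⟨hlt, h⟩
  · constructor
    · rintro (⟨h, _⟩ | ⟨_, h⟩)
      · omega
      · exact h
    · intro h; exact Or.inr ⟨by omega, h⟩

theorem DF_unpair_fst : DF (fun n => (Nat.unpair n).1) := by
  have h : Dioph {w : Option Unit → ℕ | ∃ b, Nat.pair (w none) b = w (some ())} := by
    apply exists_dioph (P := fun b w => Nat.pair (w none) b = w (some ()))
    exact Dioph.eq_dioph (pair_dioph (Dioph.proj_dioph _) (Dioph.proj_dioph _))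
      (Dioph.proj_dioph _)
  refine Dioph.ext h ?_
  intro w
  simp only [Set.mem_ofPred_eq, Function.comp]
  constructor
  · rintro ⟨b, hb⟩; rw [← hb, Nat.unpair_pair]
  · intro h; exact ⟨(Nat.unpair (w (some ()))).2, by rw [← h, Nat.pair_unpair]⟩

theorem DF_unpair_snd : DF (fun n => (Nat.unpair n).2) := by
  have h : Dioph {w : Option Unit → ℕ | ∃ b, Nat.pair b (w none) = w (some ())} := by
    apply exists_dioph (P := fun b w => Nat.pair b (w none) = w (some ()))
    exact Dioph.eq_dioph (pair_dioph (Dioph.proj_dioph _) (Dioph.proj_dioph _))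
      (Dioph.proj_dioph _)
  refine Dioph.ext h ?_
  intro w
  simp only [Set.mem_ofPred_eq, Function.comp]
  constructor
  · rintro ⟨b, hb⟩; rw [← hb, Nat.unpair_pair]
  · intro h; exact ⟨(Nat.unpair (w (some ()))).1, by rw [← h, Nat.pair_unpair]⟩

theorem beta_dioph {α : Type} {f g : (α → ℕ) → ℕ} (df : DiophFn f) (dg : DiophFn g) :
    DiophFn fun v => Nat.beta (f v) (g v) := by
  unfold Nat.beta
  exact Dioph.mod_dioph (DF_unpair_fst.comp df)
    (Dioph.add_dioph (Dioph.mul_dioph (Dioph.add_dioph dg (Dioph.const_dioph 1))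
      (DF_unpair_snd.comp df)) (Dioph.const_dioph 1))

theorem rec_iff_beta (a m r : ℕ) (G : ℕ → ℕ → ℕ) :
    (Nat.rec a (fun y ih => G y ih) m : ℕ) = r ↔
      ∃ s, Nat.beta s 0 = a ∧ (∀ y < m, Nat.beta s (y + 1) = G y (Nat.beta s y)) ∧
        Nat.beta s m = r := by
  constructor
  · intro h
    let l : List ℕ := List.ofFn (n := m + 1) fun i => (Nat.rec a (fun y ih => G y ih) (i : ℕ) : ℕ)
    have hl : ∀ i ≤ m, Nat.beta (Nat.unbeta l) i = (Nat.rec a (fun y ih => G y ih) i : ℕ) := by
      intro i hi
      have hlen : i < l.length := by simp [l]; omega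
      have h2 := Nat.beta_unbeta_coe l ⟨i, hlen⟩
      have h3 : l[(⟨i, hlen⟩ : Fin l.length)] = (Nat.rec a (fun y ih => G y ih) i : ℕ) := by
        simp only [l, Fin.getElem_fin, List.getElem_ofFn]
      rw [← h3, ← h2]
    refine ⟨Nat.unbeta l, hl 0 (Nat.zero_le _), ?_, ?_⟩
    · intro y hy
      rw [hl (y + 1) hy, hl y hy.le]
    · rw [hl m le_rfl, h]
  · rintro ⟨s, h0, hs, hm⟩
    have : ∀ i ≤ m, Nat.beta s i = (Nat.rec a (fun y ih => G y ih) i : ℕ) := by
      intro i hi
      induction i with
      | zero => exact h0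
      | succ i ih => rw [hs i hi, ih (by omega)]
    rw [← this m le_rfl, hm]

theorem primrec_DF {f : ℕ → ℕ} (hf : Nat.Primrec f) : DF f := by
  induction hf with
  | zero => exact Dioph.const_dioph 0
  | succ => exact Dioph.add_dioph (Dioph.proj_dioph _) (Dioph.const_dioph 1)
  | left => exact DF_unpair_fst
  | right => exact DF_unpair_snd
  | pair _ _ hf hg => exact pair_dioph hf hg
  | comp _ _ hf hg => exact hf.comp hg
  | @prec f g _ _ hf hg =>
    -- graph: w none = value, w (some ()) = argument
    have h : Dioph {w : Option Unit → ℕ | ∃ s,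
        (Nat.beta s 0 = f (Nat.unpair (w (some ()))).1) ∧
        ((∀ y < (Nat.unpair (w (some ()))).2, Nat.beta s (y + 1) =
          g (Nat.pair (Nat.unpair (w (some ()))).1 (Nat.pair y (Nat.beta s y)))) ∧
        Nat.beta s (Nat.unpair (w (some ()))).2 = w none)} := by
      apply exists_dioph (P := fun s (w : Option Unit → ℕ) =>
        (Nat.beta s 0 = f (Nat.unpair (w (some ()))).1) ∧
        ((∀ y < (Nat.unpair (w (some ()))).2, Nat.beta s (y + 1) =
          g (Nat.pair (Nat.unpair (w (some ()))).1 (Nat.pair y (Nat.beta s y)))) ∧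
        Nat.beta s (Nat.unpair (w (some ()))).2 = w none))
      refine Dioph.inter (S := {v | Nat.beta (v none) 0 = _}) ?_
        (Dioph.inter (S := {v | ∀ y < _, _}) ?_ ?_)
      · exact Dioph.eq_dioph (beta_dioph (Dioph.proj_dioph _) (Dioph.const_dioph 0))
          (hf.comp (DF_unpair_fst.comp (Dioph.proj_dioph _)))
      · refine bounded_forall' (S := {x : Option (Option (Option Unit)) → ℕ |
          Nat.beta (x (some none)) (x none + 1) =
          g (Nat.pair (Nat.unpair (x (some (some (some ()))))).1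
            (Nat.pair (x none) (Nat.beta (x (some none)) (x none))))}) ?_
          (f := fun v : Option (Option Unit) → ℕ => (Nat.unpair (v (some (some ())))).2)
          (DF_unpair_snd.comp (Dioph.proj_dioph _))
        exact Dioph.eq_dioph (beta_dioph (Dioph.proj_dioph _)
          (Dioph.add_dioph (Dioph.proj_dioph _) (Dioph.const_dioph 1)))
          (hg.comp (pair_dioph (DF_unpair_fst.comp (Dioph.proj_dioph _))
            (pair_dioph (Dioph.proj_dioph _) (beta_dioph (Dioph.proj_dioph _)
              (Dioph.proj_dioph _)))))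
      · exact Dioph.eq_dioph (beta_dioph (Dioph.proj_dioph _)
          (DF_unpair_snd.comp (Dioph.proj_dioph _))) (Dioph.proj_dioph _)
    refine Dioph.ext h ?_
    intro w
    simp only [Set.mem_ofPred_eq, Nat.unpaired, Function.comp]
    exact (rec_iff_beta _ _ _ (fun y ih => g (Nat.pair (Nat.unpair (w (some ()))).1
      (Nat.pair y ih)))).symm

open Nat.Partrec in
/-- **MRDP**: recursively enumerable sets of natural numbers are Diophantine. -/
theorem re_dioph {p : ℕ → Prop} (hp : REPred p) : Dioph {v : Unit → ℕ | p (v ())} := by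
  -- a code for the semi-decision procedure
  have h1 : Partrec fun a : ℕ => (Part.assert (p a) fun _ => Part.some ()).map
      (fun _ : Unit => (0 : ℕ)) :=
    hp.map (Computable.const 0).to₂
  obtain ⟨c, hc⟩ := Code.exists_code.1 (Partrec.nat_iff.1 h1)
  have hdom : ∀ n, p n ↔ ∃ k x, x ∈ Code.evaln k c n := by
    intro n
    constructor
    · intro h
      have : (0 : ℕ) ∈ Code.eval c n := by
        rw [hc]
        simp [h]
      obtain ⟨k, hk⟩ := Code.evaln_complete.1 this
      exact ⟨k, 0, hk⟩
    · rintro ⟨k, x, hx⟩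
      have := Code.evaln_sound hx
      rw [hc] at this
      simp at this
      exact this.1
  let F : ℕ → ℕ := fun m => (Code.evaln m.unpair.1 c m.unpair.2).elim 0 (fun _ => 1)
  have hF : Nat.Primrec F := by
    apply Primrec.nat_iff.1
    have h2 : Primrec fun m : ℕ => Code.evaln m.unpair.1 c m.unpair.2 :=
      Code.primrec_evaln.comp (Primrec.pair (Primrec.pair (Primrec.fst.comp Primrec.unpair)
        (Primrec.const c)) (Primrec.snd.comp Primrec.unpair))
    exact Primrec.option_casesOn h2 (Primrec.const 0) (Primrec.const 1).to₂ |>.of_eq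
      (fun m => by cases h : Code.evaln m.unpair.1 c m.unpair.2 <;> simp [F, h])
  have hD : Dioph {v : Unit → ℕ | ∃ k, F (Nat.pair k (v ())) = 1} := by
    apply exists_dioph (P := fun k (v : Unit → ℕ) => F (Nat.pair k (v ())) = 1)
    exact Dioph.eq_dioph ((primrec_DF hF).comp (pair_dioph (Dioph.proj_dioph _)
      (Dioph.proj_dioph _))) (Dioph.const_dioph 1)
  refine Dioph.ext hD ?_
  intro v
  simp only [Set.mem_ofPred_eq]
  rw [hdom]
  apply exists_congr
  intro k
  simp only [F, Nat.unpair_pair]
  cases h : Code.evaln k c (v ()) with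
  | none => simp
  | some x => simp

end Pool.Agent.Hhelper80.MRDP
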