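import Pool.Agent.Hhelper80.Depth.Struct

/-!
# The axioms of solution structures and the structure theorem
-/

set_option linter.all false

namespace Pool.Agent.Hhelper80.Depth

/-- the axioms of solution structures -/
structure AM (S : Sys) {E : Type} (col : E → Clr S) (R : Rn S.D → E → E → Prop) : Prop where
  irr : ∀ a, ¬ R .lt a a
  trans : ∀ a b c, R .lt a b → R .lt b c → R .lt a c
  lt_cl : ∀ a b, R .lt a b →
    (∃ v, col a = .base v ∧ col b = .base v) ∨ (∃ r, R .row a r ∧ R .row b r)
  tot_base : ∀ v a b, col a = .base v → col b = .base v → a = b ∨ R .lt a b ∨ R .lt b a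
  tot_row : ∀ a b r, R .row a r → R .row b r → a = b ∨ R .lt a b ∨ R .lt b a
  row_ex : ∀ a, (∃ v, col a = .base v) ∨ ∃ r, R .row a r
  row_un : ∀ a r r', R .row a r → R .row a r' → r = r'
  row_cod : ∀ a r, R .row a r → (∀ v, ¬ col a = .base v) ∧ col r = .base .b
  edge_min : ∀ a r, R .row a r → ((∃ m, col a = .edge false m) ↔ ∀ r', ¬ R .lt r' r)
  edge_max : ∀ a r, R .row a r → ((∃ m, col a = .edge true m) ↔ ∀ r', ¬ R .lt r r')
  up_cod : ∀ a b, R .up a b → ∃ r r', R .row a r ∧ R .row b r' ∧ R .lt r r' ∧
    ∀ s, ¬ (R .lt r s ∧ R .lt s r')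
  up_tot : ∀ a r r', R .row a r → R .lt r r' → (∀ s, ¬ (R .lt r s ∧ R .lt s r')) →
    ∃ b, R .up a b
  up_sur : ∀ b r r', R .row b r' → R .lt r r' → (∀ s, ¬ (R .lt r s ∧ R .lt s r')) →
    ∃ a, R .up a b
  up_fun : ∀ a b b', R .up a b → R .up a b' → b = b'
  up_mono : ∀ a b a' b', R .up a b → R .up a' b' → R .lt a a' → R .lt b b'
  co_cod : ∀ j a u, R (.co j) a u → ∃ side m, col a = .edge side m ∧
    col u = .base (S.al side m j)
  co_tot : ∀ j side m a, col a = .edge side m → ∃ u, R (.co j) a u
  co_un : ∀ j a u u', R (.co j) a u → R (.co j) a u' → u = u'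
  co_sur : ∀ side m (u : Fin S.D → E), (∀ j, col (u j) = .base (S.al side m j)) →
    ∃ a, col a = .edge side m ∧ ∀ j, R (.co j) a (u j)
  ord_mon : ∀ side m m', m < m' → ∀ a b, col a = .edge side m → col b = .edge side m' →
    R .lt a b
  ord_lex : ∀ side m i a b, col a = .edge side m → col b = .edge side m →
    (∀ j, j < i → ∃ u, R (.co j) a u ∧ R (.co j) b u) →
    (∃ u u', R (.co i) a u ∧ R (.co i) b u' ∧ R .lt u u') → R .lt a b
  ord_eq : ∀ side m a b, col a = .edge side m → col b = .edge side m →
    (∀ j, ∃ u, R (.co j) a u ∧ R (.co j) b u) → a = b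
  one : ∃ a, col a = .base .one ∧ ∀ b, col b = .base .one → b = a

/-- an injective map from a finite set into an initial segment of the same size is onto -/
theorem surj_of_inj {E : Type} [Finite E] (A : Set E) (f : E → ℕ)
    (h1 : ∀ a ∈ A, f a < A.ncard) (h2 : ∀ a ∈ A, ∀ b ∈ A, f a = f b → a = b) (i : ℕ)
    (hi : i < A.ncard) : ∃ a ∈ A, f a = i := by
  have hf : (f '' A) = Set.Iio A.ncard := by
    apply Set.eq_of_subset_of_ncard_le
    · rintro _ ⟨a, ha, rfl⟩
      exact h1 a ha
    · rw [Set.ncard_image_of_injOn (fun a ha b hb h => h2 a ha b hb h)]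
      rw [Set.ncard_eq_toFinset_card', Set.toFinset_Iio, Nat.card_Iio]
    · exact Set.finite_Iio _
  have : i ∈ f '' A := by rw [hf]; exact hi
  exact this

theorem ncard_rel {E : Type} [Finite E] (A B : Set E) (Q : E → E → Prop)
    (h1 : ∀ a ∈ A, ∃ b ∈ B, Q a b) (h2 : ∀ b ∈ B, ∃ a ∈ A, Q a b)
    (h3 : ∀ a b b', Q a b → Q a b' → b = b') (h4 : ∀ a a' b, Q a b → Q a' b → a = a') :
    A.ncard = B.ncard := by
  choose f hf hQ using h1
  refine Set.ncard_congr f (fun a ha => hf a ha) ?_ ?_
  · intro a b ha hb hab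
    have e1 := hQ a ha
    rw [hab] at e1
    exact h4 _ _ _ e1 (hQ b hb)
  · intro b hb
    obtain ⟨a, ha, hab⟩ := h2 b hb
    exact ⟨a, ha, h3 _ _ _ (hQ a ha) hab⟩

/-- rank of an element -/
noncomputable def rk {S : Sys} {E : Type} (R : Rn S.D → E → E → Prop) (a : E) : ℕ :=
  {x | R .lt x a}.ncard

/-- size of a sort -/
noncomputable def siz {S : Sys} {E : Type} (col : E → Clr S) (v : Var S.H) : ℕ :=
  {a | col a = .base v}.ncard

/-- row of an edge -/
def lv (b : ℕ) : Bool → ℕ
  | false => 0
  | true => b - 1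

section

variable {S : Sys} {E : Type} [Finite E] {col : E → Clr S} {R : Rn S.D → E → E → Prop}

/-- in the same class -/
def Same (col : E → Clr S) (R : Rn S.D → E → E → Prop) (a b : E) : Prop :=
  (∃ v, col a = .base v ∧ col b = .base v) ∨ (∃ r, R .row a r ∧ R .row b r)

namespace AM

theorem rk_lt (h : AM S col R) {a b : E} (hab : R .lt a b) : rk R a < rk R b := by
  apply Set.ncard_lt_ncard _ (Set.toFinite _)
  refine ⟨fun x hx => h.trans _ _ _ hx hab, fun hcon => ?_⟩
  exact h.irr a (hcon (show a ∈ {x | R .lt x b} from hab))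

theorem tri (h : AM S col R) {a b : E} (hs : Same col R a b) :
    a = b ∨ R .lt a b ∨ R .lt b a := by
  rcases hs with ⟨v, h1, h2⟩ | ⟨r, h1, h2⟩
  · exact h.tot_base v a b h1 h2
  · exact h.tot_row a b r h1 h2

theorem lt_iff (h : AM S col R) {a b : E} (hs : Same col R a b) :
    R .lt a b ↔ rk R a < rk R b := by
  constructor
  · exact h.rk_lt
  · intro hlt
    rcases h.tri hs with rfl | h1 | h1
    · exact absurd hlt (lt_irrefl _)
    · exact h1
    · exact absurd (h.rk_lt h1) (by omega)

theorem eq_of_rk (h : AM S col R) {a b : E} (hs : Same col R a b) (hr : rk R a = rk R b) :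
    a = b := by
  rcases h.tri hs with h1 | h1 | h1
  · exact h1
  · exact absurd (h.rk_lt h1) (by omega)
  · exact absurd (h.rk_lt h1) (by omega)

theorem same_base {v : Var S.H} {a b : E} (h1 : col a = .base v) (h2 : col b = .base v) :
    Same col R a b := Or.inl ⟨v, h1, h2⟩

theorem same_row {r : E} {a b : E} (h1 : R .row a r) (h2 : R .row b r) :
    Same col R a b := Or.inr ⟨r, h1, h2⟩

theorem lt_base (h : AM S col R) {v : Var S.H} {a b : E} (hab : R .lt a b)
    (hc : col a = .base v ∨ col b = .base v) : col a = .base v ∧ col b = .base v := by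
  rcases h.lt_cl a b hab with ⟨w, h1, h2⟩ | ⟨r, h1, h2⟩
  · rcases hc with hc | hc
    · rw [h1] at hc; rw [← hc]; exact ⟨h1, h2⟩
    · rw [h2] at hc; rw [← hc]; exact ⟨h1, h2⟩
  · rcases hc with hc | hc
    · exact absurd hc ((h.row_cod a r h1).1 v)
    · exact absurd hc ((h.row_cod b r h2).1 v)

theorem lt_row (h : AM S col R) {a b r : E} (hab : R .lt a b)
    (hc : R .row a r ∨ R .row b r) : R .row a r ∧ R .row b r := by
  rcases h.lt_cl a b hab with ⟨w, h1, h2⟩ | ⟨s, h1, h2⟩
  · rcases hc with hc | hc
    · exact absurd h1 ((h.row_cod a r hc).1 w)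
    · exact absurd h2 ((h.row_cod b r hc).1 w)
  · rcases hc with hc | hc
    · rw [h.row_un _ _ _ hc h1]; exact ⟨h1, h2⟩
    · rw [h.row_un _ _ _ hc h2]; exact ⟨h1, h2⟩

theorem rk_base (h : AM S col R) {v : Var S.H} {a : E} (ha : col a = .base v) :
    rk R a < siz col v := by
  apply Set.ncard_lt_ncard _ (Set.toFinite _)
  refine ⟨fun x hx => (h.lt_base hx (Or.inr ha)).1, fun hcon => ?_⟩
  exact h.irr a (hcon (show a ∈ {x | col x = .base v} from ha))

theorem rk_row (h : AM S col R) {r a : E} (ha : R .row a r) :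
    rk R a < {a | R .row a r}.ncard := by
  apply Set.ncard_lt_ncard _ (Set.toFinite _)
  refine ⟨fun x hx => (h.lt_row hx (Or.inr ha)).1, fun hcon => ?_⟩
  exact h.irr a (hcon (show a ∈ {x | R .row x r} from ha))

theorem ex_base (h : AM S col R) (v : Var S.H) (i : ℕ) (hi : i < siz col v) :
    ∃ a, col a = .base v ∧ rk R a = i := by
  obtain ⟨a, ha, hr⟩ := surj_of_inj {a | col a = .base v} (rk R)
    (fun a ha => h.rk_base ha) (fun a ha b hb hab => h.eq_of_rk (same_base ha hb) hab) i hi
  exact ⟨a, ha, hr⟩

theorem ex_row (h : AM S col R) (r : E) (i : ℕ) (hi : i < {a | R .row a r}.ncard) :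
    ∃ a, R .row a r ∧ rk R a = i := by
  obtain ⟨a, ha, hr⟩ := surj_of_inj {a | R .row a r} (rk R)
    (fun a ha => h.rk_row ha) (fun a ha b hb hab => h.eq_of_rk (same_row ha hb) hab) i hi
  exact ⟨a, ha, hr⟩

theorem succ_iff (h : AM S col R) {r r' : E} (h1 : col r = .base .b) (h2 : col r' = .base .b) :
    (R .lt r r' ∧ ∀ s, ¬ (R .lt r s ∧ R .lt s r')) ↔ rk R r' = rk R r + 1 := by
  constructor
  · rintro ⟨hlt, hno⟩
    have e1 := h.rk_lt hlt
    by_contra hne
    have e2 := h.rk_base h2
    obtain ⟨s, hs, hsr⟩ := h.ex_base .b (rk R r + 1) (by omega)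
    apply hno s
    constructor
    · rw [h.lt_iff (same_base h1 hs)]; omega
    · rw [h.lt_iff (same_base hs h2)]; omega
  · intro hr
    constructor
    · rw [h.lt_iff (same_base h1 h2)]; omega
    · rintro s ⟨hs1, hs2⟩
      have e1 := h.rk_lt hs1
      have e2 := h.rk_lt hs2
      omega

theorem min_iff (h : AM S col R) {r : E} (h1 : col r = .base .b) :
    (∀ r', ¬ R .lt r' r) ↔ rk R r = 0 := by
  constructor
  · intro hno
    by_contra hne
    have e2 := h.rk_base h1
    obtain ⟨s, hs, hsr⟩ := h.ex_base .b 0 (by omega)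
    exact hno s ((h.lt_iff (same_base hs h1)).2 (by omega))
  · intro h0 r' hlt
    have := h.rk_lt hlt
    omega

theorem max_iff (h : AM S col R) {r : E} (h1 : col r = .base .b) :
    (∀ r', ¬ R .lt r r') ↔ rk R r + 1 = siz col .b := by
  have e2 := h.rk_base h1
  constructor
  · intro hno
    by_contra hne
    obtain ⟨s, hs, hsr⟩ := h.ex_base .b (rk R r + 1) (by omega)
    exact hno s ((h.lt_iff (same_base h1 hs)).2 (by omega))
  · intro h0 r' hlt
    have e1 := h.rk_lt hlt
    have := h.rk_base (h.lt_base hlt (Or.inl h1)).2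
    omega

/-- `up` raises the row by one -/
theorem up_row (h : AM S col R) {a b : E} (hab : R .up a b) : ∃ r r', R .row a r ∧ R .row b r' ∧
    col r = .base .b ∧ col r' = .base .b ∧ rk R r' = rk R r + 1 := by
  obtain ⟨r, r', h1, h2, h3, h4⟩ := h.up_cod a b hab
  have e1 := (h.row_cod _ _ h1).2
  have e2 := (h.row_cod _ _ h2).2
  exact ⟨r, r', h1, h2, e1, e2, (h.succ_iff e1 e2).1 ⟨h3, h4⟩⟩

theorem up_inj (h : AM S col R) {a a' b : E} (h1 : R .up a b) (h2 : R .up a' b) : a = a' := by
  obtain ⟨r, s, g1, g2, g3, g4, g5⟩ := h.up_row h1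
  obtain ⟨r', s', g1', g2', g3', g4', g5'⟩ := h.up_row h2
  have e1 : s = s' := h.row_un _ _ _ g2 g2'
  subst e1
  have e2 : r = r' := h.eq_of_rk (same_base g3 g3') (by omega)
  subst e2
  rcases h.tot_row a a' r g1 g1' with h3 | h3 | h3
  · exact h3
  · exact absurd (h.up_mono _ _ _ _ h1 h2 h3) (h.irr b)
  · exact absurd (h.up_mono _ _ _ _ h2 h1 h3) (h.irr b)

theorem up_ex (h : AM S col R) {a r r' : E} (h1 : R .row a r)
    (h2 : col r' = .base .b) (h3 : rk R r' = rk R r + 1) : ∃ b, R .up a b ∧ R .row b r' := by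
  have e1 := (h.row_cod _ _ h1).2
  obtain ⟨g1, g2⟩ := (h.succ_iff e1 h2).2 h3
  obtain ⟨b, hb⟩ := h.up_tot a r r' h1 g1 g2
  refine ⟨b, hb, ?_⟩
  obtain ⟨s, s', k1, k2, k3, k4, k5⟩ := h.up_row hb
  have e2 : s = r := h.row_un _ _ _ k1 h1
  subst e2
  have e3 : s' = r' := h.eq_of_rk (same_base k4 h2) (by omega)
  rw [← e3]; exact k2

theorem down_ex (h : AM S col R) {b r r' : E} (h1 : R .row b r')
    (h2 : col r = .base .b) (h3 : rk R r' = rk R r + 1) : ∃ a, R .up a b ∧ R .row a r := by
  have e1 := (h.row_cod _ _ h1).2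
  obtain ⟨g1, g2⟩ := (h.succ_iff h2 e1).2 h3
  obtain ⟨a, ha⟩ := h.up_sur b r r' h1 g1 g2
  refine ⟨a, ha, ?_⟩
  obtain ⟨s, s', k1, k2, k3, k4, k5⟩ := h.up_row ha
  have e2 : s' = r' := h.row_un _ _ _ k2 h1
  subst e2
  have e3 : s = r := h.eq_of_rk (same_base k3 h2) (by omega)
  rw [← e3]; exact k1

theorem up_rk (h : AM S col R) {a b : E} (hab : R .up a b) : rk R a = rk R b := by
  obtain ⟨r, r', g1, g2, g3, g4, g5⟩ := h.up_row hab
  apply ncard_rel _ _ (R .up)
  · intro x hx
    have hx1 := (h.lt_row hx (Or.inr g1)).1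
    obtain ⟨x', hx', _⟩ := h.up_ex hx1 g4 g5
    exact ⟨x', h.up_mono _ _ _ _ hx' hab hx, hx'⟩
  · intro x' hx'
    have hx1 := (h.lt_row hx' (Or.inr g2)).1
    obtain ⟨x, hx, hxr⟩ := h.down_ex hx1 g3 g5
    refine ⟨x, ?_, hx⟩
    rcases h.tot_row x a r hxr g1 with h3 | h3 | h3
    · subst h3
      have := h.up_fun _ _ _ hx hab
      subst this
      exact absurd hx' (h.irr _)
    · exact h3
    · exact absurd (h.trans _ _ _ (h.up_mono _ _ _ _ hab hx h3) hx') (h.irr _)
  · exact fun a b b' h1 h2 => h.up_fun a b b' h1 h2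
  · exact fun a a' b h1 h2 => h.up_inj h1 h2

theorem row_card (h : AM S col R) {r r' : E} (h1 : col r = .base .b) (h2 : col r' = .base .b)
    (h3 : rk R r' = rk R r + 1) : {a | R .row a r}.ncard = {a | R .row a r'}.ncard := by
  apply ncard_rel _ _ (R .up)
  · intro x hx
    obtain ⟨x', hx', hx''⟩ := h.up_ex hx h2 h3
    exact ⟨x', hx'', hx'⟩
  · intro x' hx'
    obtain ⟨x, hx, hx''⟩ := h.down_ex hx' h1 h3
    exact ⟨x, hx'', hx⟩
  · exact fun a b b' h1 h2 => h.up_fun a b b' h1 h2
  · exact fun a a' b h1 h2 => h.up_inj h1 h2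

end AM

/-- trichotomy of the lexicographic order -/
theorem lex_tri {D : ℕ} (t t' : Fin D → ℕ) : t = t' ∨
    (∃ i, (∀ j < i, t j = t' j) ∧ t i < t' i) ∨ (∃ i, (∀ j < i, t' j = t j) ∧ t' i < t i) := by
  classical
  by_cases h : t = t'
  · exact Or.inl h
  · right
    have hne : (Finset.univ.filter fun i => t i ≠ t' i).Nonempty := by
      obtain ⟨i, hi⟩ := Function.ne_iff.1 h
      exact ⟨i, by simpa using hi⟩
    obtain ⟨i, hi, hmin⟩ := Finset.exists_min_image _ id hne
    simp only [Finset.mem_filter, Finset.mem_univ, true_and, id] at hi hmin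
    have hj : ∀ j < i, t j = t' j := by
      intro j hj
      by_contra hcon
      exact absurd (hmin j hcon) (not_le.2 hj)
    rcases lt_or_gt_of_ne hi with h1 | h1
    · exact Or.inl ⟨i, hj, h1⟩
    · exact Or.inr ⟨i, fun j hji => (hj j hji).symm, h1⟩

/-- **The structure theorem.** -/
theorem structure_thm (hone : ∀ side, ∃ m, ∀ j, S.al side m j = .one) (h : AM S col R) :
    ∃ (N : ℕ) (c : ColData S (siz col) N) (e : Elt S (siz col) N ≃ E),
      2 ≤ siz col .b ∧ siz col .one = 1 ∧
      (∀ x, col (e x) = ecol c x) ∧ ∀ j x x', R j (e x) (e x') ↔ erel c j x x' := by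
  classical
  -- edges exist
  have hedge : ∀ side, ∃ m a, col a = .edge side m := by
    intro side
    obtain ⟨m, hm⟩ := hone side
    obtain ⟨o, ho, _⟩ := h.one
    obtain ⟨a, ha, _⟩ := h.co_sur side m (fun _ => o) (fun j => by rw [hm j]; exact ho)
    exact ⟨m, a, ha⟩
  have hone1 : siz col .one = 1 := by
    obtain ⟨o, ho, hun⟩ := h.one
    unfold siz
    rw [Set.ncard_eq_one]
    refine ⟨o, ?_⟩
    ext x
    simp only [Set.mem_ofPred_eq, Set.mem_singleton_iff]
    exact ⟨fun hx => hun x hx, fun hx => by rw [hx]; exact ho⟩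
  have hcell : ∀ side m a, col a = .edge side m → ∃ r, R .row a r := by
    intro side m a ha
    rcases h.row_ex a with ⟨v, hv⟩ | hr
    · rw [ha] at hv; cases hv
    · exact hr
  have hb2 : 2 ≤ siz col .b := by
    obtain ⟨m, a, ha⟩ := hedge false
    obtain ⟨r, hr⟩ := hcell _ _ _ ha
    have hrc := (h.row_cod _ _ hr).2
    have hr0 : rk R r = 0 := (h.min_iff hrc).1 ((h.edge_min a r hr).1 ⟨m, ha⟩)
    have hlt := h.rk_base hrc
    by_contra hcon
    have hmax := (h.edge_max a r hr).2 ((h.max_iff hrc).2 (by omega))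
    obtain ⟨m', hm'⟩ := hmax
    rw [ha] at hm'
    cases hm'
  -- base elements
  have hbE : ∀ v (i : Fin (siz col v)), ∃ a, col a = .base v ∧ rk R a = i :=
    fun v i => h.ex_base v i i.2
  choose bE hbc hbr using hbE
  have bE_ex : ∀ v a, col a = .base v → ∃ i, bE v i = a := fun v a ha =>
    ⟨⟨rk R a, h.rk_base ha⟩, h.eq_of_rk (AM.same_base (hbc _ _) ha) (hbr _ _)⟩
  have bE_inj : ∀ v i i', bE v i = bE v i' → i = i' := by
    intro v i i' hii
    have := hbr v i
    rw [hii, hbr v i'] at this
    exact Fin.ext this.symm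
  -- rows
  obtain ⟨N, hN⟩ : ∃ N, ∀ l : Fin (siz col .b), {a | R .row a (bE .b l)}.ncard = N := by
    refine ⟨{a | R .row a (bE .b ⟨0, by omega⟩)}.ncard, ?_⟩
    rintro ⟨l, hl⟩
    induction l with
    | zero => rfl
    | succ l ih =>
      rw [← ih (by omega)]
      exact (h.row_card (hbc _ _) (hbc _ _) (by rw [hbr, hbr])).symm
  have hcE : ∀ (l : Fin (siz col .b)) (z : Fin N), ∃ a, R .row a (bE .b l) ∧ rk R a = z :=
    fun l z => h.ex_row _ z (by rw [hN]; exact z.2)
  choose cE hcrow hcr using hcE
  have cE_ex : ∀ a l, R .row a (bE .b l) → ∃ z, cE l z = a := fun a l ha =>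
    ⟨⟨rk R a, by rw [← hN l]; exact h.rk_row ha⟩,
      h.eq_of_rk (AM.same_row (hcrow _ _) ha) (hcr _ _)⟩
  have cE_ex' : ∀ a r, R .row a r → ∃ l z, cE l z = a := by
    intro a r ha
    obtain ⟨l, rfl⟩ := bE_ex .b r (h.row_cod _ _ ha).2
    exact ⟨l, cE_ex a l ha⟩
  have cE_nb : ∀ l z v, ¬ col (cE l z) = .base v := fun l z v =>
    (h.row_cod _ _ (hcrow l z)).1 v
  have cE_row : ∀ l z r, R .row (cE l z) r ↔ r = bE .b l := by
    intro l z r
    constructor
    · intro hr; exact h.row_un _ _ _ hr (hcrow l z)
    · rintro rfl; exact hcrow l z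
  have cE_inj : ∀ l z l' z', cE l z = cE l' z' → l = l' ∧ z = z' := by
    intro l z l' z' heq
    have h1 := hcrow l z
    rw [heq, cE_row] at h1
    have h2 := bE_inj _ _ _ h1
    refine ⟨h2, ?_⟩
    have h3 := hcr l z
    rw [heq, hcr] at h3
    exact Fin.ext h3.symm
  -- colours of the cells
  have hmin : ∀ l z, (∃ m, col (cE l z) = .edge false m) ↔ (l : ℕ) = 0 := by
    intro l z
    rw [h.edge_min _ _ (hcrow l z), h.min_iff (hbc _ _), hbr]
  have hmax : ∀ l z, (∃ m, col (cE l z) = .edge true m) ↔ (l : ℕ) + 1 = siz col .b := by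
    intro l z
    rw [h.edge_max _ _ (hcrow l z), h.max_iff (hbc _ _), hbr]
  have hlv : ∀ side, lv (siz col .b) side < siz col .b := by
    intro side; cases side <;> simp only [lv] <;> omega
  let L : Bool → Fin (siz col .b) := fun side => ⟨lv (siz col .b) side, hlv side⟩
  have hLcol : ∀ side z, ∃ m, col (cE (L side) z) = .edge side m := by
    intro side z
    cases side
    · rw [hmin]; rfl
    · rw [hmax]; simp only [L, lv]; omega
  have hLrow : ∀ side m a, col a = .edge side m → R .row a (bE .b (L side)) := by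
    intro side m a ha
    obtain ⟨r, hr⟩ := hcell _ _ _ ha
    obtain ⟨l, z, rfl⟩ := cE_ex' a r hr
    have : l = L side := by
      cases side
      · have := (hmin l z).1 ⟨m, ha⟩
        exact Fin.ext this
      · have := (hmax l z).1 ⟨m, ha⟩
        apply Fin.ext
        simp only [L, lv]; omega
    rw [← this]
    exact hcrow l z
  choose mon hmon using hLcol
  have hcrdE : ∀ side z i, ∃ u, R (.co i) (cE (L side) z) u := fun side z i =>
    h.co_tot i side _ _ (hmon side z)
  choose crdE hcrd using hcrdE
  have hcrdc : ∀ side z i, col (crdE side z i) = .base (S.al side (mon side z) i) := by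
    intro side z i
    obtain ⟨side', m', h1, h2⟩ := h.co_cod _ _ _ (hcrd side z i)
    rw [hmon] at h1
    cases h1
    exact h2
  have hlt_row : ∀ l z z', z < z' ↔ R .lt (cE l z) (cE l z') := by
    intro l z z'
    rw [h.lt_iff (AM.same_row (hcrow l z) (hcrow l z')), hcr, hcr]
    exact Fin.lt_def
  have hmonlt : ∀ side z z', mon side z < mon side z' → z < z' := by
    intro side z z' hm
    rw [hlt_row (L side)]
    exact h.ord_mon side _ _ hm _ _ (hmon _ _) (hmon _ _)
  have hsame : ∀ side z z', mon side z = mon side z' → ∀ i,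
      Same col R (crdE side z i) (crdE side z' i) := by
    intro side z z' hm i
    refine AM.same_base (hcrdc side z i) ?_
    rw [hm]; exact hcrdc side z' i
  have hlexlt : ∀ side z z', mon side z = mon side z' →
      (∃ i, (∀ j < i, rk R (crdE side z j) = rk R (crdE side z' j)) ∧
        rk R (crdE side z i) < rk R (crdE side z' i)) → z < z' := by
    rintro side z z' hm ⟨i, hi1, hi2⟩
    rw [hlt_row (L side)]
    refine h.ord_lex side (mon side z) i _ _ (hmon _ _) ?_ ?_ ?_
    · rw [hm]; exact hmon _ _
    · intro j hj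
      refine ⟨crdE side z j, hcrd _ _ _, ?_⟩
      rw [h.eq_of_rk (hsame side z z' hm j) (hi1 j hj)]
      exact hcrd _ _ _
    · exact ⟨_, _, hcrd side z i, hcrd side z' i, (h.lt_iff (hsame side z z' hm i)).2 hi2⟩
  let c : ColData S (siz col) N :=
    { mon := mon
      crd := fun side z i => rk R (crdE side z i)
      bd := fun side z i => h.rk_base (hcrdc side z i)
      surj := by
        intro side m t ht
        obtain ⟨a, ha, hau⟩ := h.co_sur side m (fun i => bE (S.al side m i) ⟨t i, ht i⟩)
          (fun j => hbc _ _)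
        obtain ⟨z, rfl⟩ := cE_ex a (L side) (hLrow side m a ha)
        refine ⟨z, ?_, ?_⟩
        · have := hmon side z
          rw [ha] at this
          cases this
          rfl
        · funext i
          have h1 := h.co_un i _ _ _ (hau i) (hcrd side z i)
          rw [← h1, hbr]
      lt_iff := by
        intro side z z'
        constructor
        · intro hlt
          rcases lt_trichotomy (mon side z) (mon side z') with h1 | h1 | h1
          · exact Or.inl h1
          · refine Or.inr ⟨h1, ?_⟩
            rcases lex_tri (fun i => rk R (crdE side z i)) (fun i => rk R (crdE side z' i)) with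
              h2 | h2 | h2
            · exfalso
              have h3 : cE (L side) z = cE (L side) z' := by
                refine h.ord_eq side (mon side z) _ _ (hmon _ _) (by rw [h1]; exact hmon _ _) ?_
                intro j
                refine ⟨crdE side z j, hcrd _ _ _, ?_⟩
                rw [h.eq_of_rk (hsame side z z' h1 j) (congrFun h2 j)]
                exact hcrd _ _ _
              have := (cE_inj _ _ _ _ h3).2
              rw [this] at hlt
              exact absurd hlt (lt_irrefl _)
            · exact h2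
            · exact absurd (hlexlt side z' z h1.symm h2) (not_lt.2 hlt.le)
          · exact absurd (hmonlt side z' z h1) (not_lt.2 hlt.le)
        · rintro (h1 | ⟨h1, h2⟩)
          · exact hmonlt side z z' h1
          · exact hlexlt side z z' h1 h2 }
  let g : Elt S (siz col) N → E := fun x => match x with
    | .base v i => bE v i
    | .cell l z => cE l z
  have hginj : Function.Injective g := by
    rintro (⟨v, i⟩ | ⟨l, z⟩) (⟨v', i'⟩ | ⟨l', z'⟩) heq
    · have h1 : bE v i = bE v' i' := heq
      have h2 := hbc v i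
      rw [h1, hbc] at h2
      cases h2
      rw [bE_inj _ _ _ h1]
    · have h1 : bE v i = cE l' z' := heq
      exact absurd (h1 ▸ hbc v i) (cE_nb l' z' v)
    · have h1 : cE l z = bE v' i' := heq
      exact absurd (h1 ▸ hbc v' i') (cE_nb l z v')
    · have h1 : cE l z = cE l' z' := heq
      obtain ⟨rfl, rfl⟩ := cE_inj _ _ _ _ h1
      rfl
  have hgsurj : Function.Surjective g := by
    intro a
    rcases h.row_ex a with ⟨v, hv⟩ | ⟨r, hr⟩
    · obtain ⟨i, rfl⟩ := bE_ex v a hv
      exact ⟨.base v i, rfl⟩
    · obtain ⟨l, z, rfl⟩ := cE_ex' a r hr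
      exact ⟨.cell l z, rfl⟩
  have hcolc : ∀ l z, col (cE l z) = ecol c (.cell l z) := by
    intro l z
    simp only [ecol]
    by_cases h0 : (l : ℕ) = 0
    · rw [if_pos h0]
      have : l = L false := Fin.ext h0
      rw [this]
      exact hmon false z
    · rw [if_neg h0]
      by_cases h1 : (l : ℕ) + 1 = siz col .b
      · rw [if_pos h1]
        have : l = L true := Fin.ext (by simp only [L, lv]; omega)
        rw [this]
        exact hmon true z
      · rw [if_neg h1]
        have e0 := cE_nb l z
        have e1 := mt (hmin l z).1 h0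
        have e2 := mt (hmax l z).1 h1
        rcases hcc : col (cE l z) with v | _ | ⟨side, m⟩
        · exact absurd hcc (e0 v)
        · rfl
        · cases side
          · exact absurd ⟨m, hcc⟩ e1
          · exact absurd ⟨m, hcc⟩ e2
  refine ⟨N, c, Equiv.ofBijective g ⟨hginj, hgsurj⟩, hb2, hone1, ?_, ?_⟩
  · rintro (⟨v, i⟩ | ⟨l, z⟩)
    · exact hbc v i
    · exact hcolc l z
  · have hgoal : ∀ j x x', R j (g x) (g x') ↔ erel c j x x' := by
      rintro j (⟨v, i⟩ | ⟨l, z⟩) (⟨v', i'⟩ | ⟨l', z'⟩)
      · -- base base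
        simp only [g]
        rcases j with _ | _ | _ | j
        · simp only [erel]
          constructor
          · intro hlt
            have h1 := (h.lt_base hlt (Or.inl (hbc v i))).2
            rw [hbc] at h1
            cases h1
            refine ⟨rfl, ?_⟩
            have := h.rk_lt hlt
            rwa [hbr, hbr] at this
          · rintro ⟨rfl, hlt⟩
            rw [h.lt_iff (AM.same_base (hbc _ _) (hbc _ _)), hbr, hbr]
            exact hlt
        · simp only [erel, iff_false]
          intro hup
          obtain ⟨r, r', h1, _⟩ := h.up_cod _ _ hup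
          exact (h.row_cod _ _ h1).1 v (hbc _ _)
        · simp only [erel, iff_false]
          intro h1
          exact (h.row_cod _ _ h1).1 v (hbc _ _)
        · simp only [erel, iff_false]
          intro h1
          obtain ⟨side, m, h2, _⟩ := h.co_cod _ _ _ h1
          rw [hbc] at h2
          cases h2
      · -- base cell
        simp only [g]
        rcases j with _ | _ | _ | j
        · simp only [erel, iff_false]
          intro hlt
          exact cE_nb _ _ _ (h.lt_base hlt (Or.inl (hbc v i))).2
        · simp only [erel, iff_false]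
          intro hup
          obtain ⟨r, r', h1, _⟩ := h.up_cod _ _ hup
          exact (h.row_cod _ _ h1).1 v (hbc _ _)
        · simp only [erel, iff_false]
          intro h1
          exact (h.row_cod _ _ h1).1 v (hbc _ _)
        · simp only [erel, iff_false]
          intro h1
          obtain ⟨side, m, h2, _⟩ := h.co_cod _ _ _ h1
          rw [hbc] at h2
          cases h2
      · -- cell base
        simp only [g]
        rcases j with _ | _ | _ | j
        · simp only [erel, iff_false]
          intro hlt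
          exact cE_nb _ _ _ (h.lt_base hlt (Or.inr (hbc v' i'))).1
        · simp only [erel, iff_false]
          intro hup
          obtain ⟨r, r', _, h1, _⟩ := h.up_cod _ _ hup
          exact (h.row_cod _ _ h1).1 v' (hbc _ _)
        · simp only [erel]
          rw [cE_row]
          constructor
          · intro h1
            have h2 := hbc v' i'
            rw [h1, hbc] at h2
            cases h2
            refine ⟨rfl, ?_⟩
            rw [bE_inj _ _ _ h1]
          · rintro ⟨rfl, h1⟩
            rw [show i' = l from Fin.ext h1]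
        · simp only [erel]
          constructor
          · intro h1
            obtain ⟨side, m, h2, h3⟩ := h.co_cod _ _ _ h1
            rw [hbc] at h3
            cases h3
            have h4 := hLrow _ _ _ h2
            rw [cE_row] at h4
            have h5 := bE_inj _ _ _ h4
            subst h5
            have h6 := hmon side z
            rw [h2] at h6
            cases h6
            have h7 := h.co_un _ _ _ _ h1 (hcrd side z j)
            have h8 : (i' : ℕ) = rk R (crdE side z j) := by rw [← h7, hbr]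
            cases side
            · exact Or.inl ⟨rfl, rfl, h8⟩
            · exact Or.inr ⟨by simp only [L, lv]; omega, rfl, h8⟩
          · have hgen : ∀ side, l = L side → v' = S.al side (mon side z) j →
                (i' : ℕ) = rk R (crdE side z j) → R (.co j) (cE l z) (bE v' i') := by
              rintro side rfl rfl h3
              have : bE _ i' = crdE side z j :=
                h.eq_of_rk (AM.same_base (hbc _ _) (hcrdc side z j)) (by rw [hbr]; exact h3)
              rw [this]
              exact hcrd side z j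
            rintro (⟨h1, h2, h3⟩ | ⟨h1, h2, h3⟩)
            · exact hgen false (Fin.ext h1) h2 h3
            · exact hgen true (Fin.ext (by simp only [L, lv]; omega)) h2 h3
      · -- cell cell
        simp only [g]
        rcases j with _ | _ | _ | j
        · simp only [erel]
          constructor
          · intro hlt
            have h1 := (h.lt_row hlt (Or.inl (hcrow l z))).2
            rw [cE_row] at h1
            have h2 := bE_inj _ _ _ h1
            subst h2
            exact ⟨rfl, (hlt_row _ _ _).2 hlt⟩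
          · rintro ⟨rfl, hlt⟩
            exact (hlt_row _ _ _).1 hlt
        · simp only [erel]
          constructor
          · intro hup
            have e1 := h.up_rk hup
            rw [hcr, hcr] at e1
            obtain ⟨r, r', h1, h2, h3, h4, h5⟩ := h.up_row hup
            rw [cE_row] at h1 h2
            rw [h1, h2, hbr, hbr] at h5
            exact ⟨h5, Fin.ext e1⟩
          · rintro ⟨h1, rfl⟩
            obtain ⟨b, hb1, hb2⟩ := h.up_ex (hcrow l z) (hbc .b l') (by rw [hbr, hbr]; exact h1)
            have e1 := h.up_rk hb1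
            have e2 : b = cE l' z := by
              apply h.eq_of_rk (AM.same_row hb2 (hcrow _ _))
              rw [← e1, hcr, hcr]
            rw [← e2]
            exact hb1
        · simp only [erel, iff_false]
          intro h1
          exact cE_nb _ _ _ (h.row_cod _ _ h1).2
        · simp only [erel, iff_false]
          intro h1
          obtain ⟨side, m, _, h2⟩ := h.co_cod _ _ _ h1
          exact cE_nb _ _ _ h2
    exact hgoal

end

end Pool.Agent.Hhelper80.Depth
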