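import Pool.Agent.Hhelper80.Depth.Comp

/-!
# The search for canonical graphs and the undecidability theorem
-/

set_option linter.all false

namespace Pool.Agent.Hhelper80.Depth

open Primrec

variable {p : ℕ → Prop} (P : PD p) (d c : ℕ)

/-- the labels -/
abbrev Lb : Type := Clr (sysOf P d) ⊕ (Rn (sysOf P d).D × Bool)

/-- the number of labels -/
noncomputable def nl : ℕ := Fintype.card (Lb P d)

/-- positions of the variables in the list of values -/
noncomputable def sg : Vr (Clr (sysOf P d)) (Rn (sysOf P d).D) ℕ → ℕ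
  | .lab l => Fintype.equivFin (Lb P d) l
  | .v _ => nl P d
  | .u _ => nl P d

theorem sg_lt (x : Vr (Clr (sysOf P d)) (Rn (sysOf P d).D) ℕ) : sg P d x < nl P d + 1 := by
  rcases x with l | x | i
  · exact Nat.lt_succ_of_lt (Fintype.equivFin (Lb P d) l).2
  · exact Nat.lt_succ_self _
  · exact Nat.lt_succ_self _

/-- the condition on the objects searched -/
def Rs (n : ℕ) (q : List (List Bool) × List ℕ) : Prop :=
  isG q.1 ∧ (∀ i ∈ List.range (nl P d + 1), q.2.getD i 0 < q.1.length) ∧
  evM q.1 (fun x => q.2.getD (sg P d x) 0) (bodyF (axF (sysOf P d))) ∧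
  ∀ v : Var P.H, cnt q.1 (q.2.getD (sg P d (.lab (.inl (.base v)))) 0) = canY P d n (n + c) v

theorem Rs_sound {n : ℕ} {q : List (List Bool) × List ℕ} (h : Rs P d c n q) :
    ∃ (N : ℕ) (cd : ColData (sysOf P d) (canY P d n (n + c)) N),
      Nonempty (SG cd ≃g matG q.1 h.1) := by
  obtain ⟨A, l⟩ := q
  obtain ⟨h1, h2, h3, h4⟩ := h
  simp only at h1 h2 h3 h4
  change ∃ (N : ℕ) (cd : ColData (sysOf P d) (canY P d n (n + c)) N), Nonempty (SG cd ≃g matG A h1)
  let env : Vr (Clr (sysOf P d)) (Rn (sysOf P d).D) ℕ → Fin A.length := fun x =>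
    ⟨l.getD (sg P d x) 0, h2 _ (List.mem_range.2 (sg_lt P d x))⟩
  have h5 := evM_iff (matG A h1) (bodyF (axF (sysOf P d))) env
  rw [adjMatrixList_matG] at h5
  have h6 := h5.1 h3
  obtain ⟨hF, ha, h7⟩ := of_eval_bodyF (matG A h1) (axF (sysOf P d)) env (env (.v 0))
    (fun x => rfl) h6
  rw [eval_axF] at h7
  obtain ⟨N, cd, e, -, -, -, -, h8⟩ := coded P d hF h7
  have hy : siz (decCol hF) = canY P d n (n + c) := by
    funext v
    rw [← h4 v]
    have e1 := cnt_eq (matG A h1) (env (.lab (.inl (.base v))))
    rw [adjMatrixList_matG] at e1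
    change _ = cnt A (env (.lab (.inl (.base v))))
    rw [e1]
    unfold siz
    have e2 : {w | (matG A h1).Adj w (env (.lab (.inl (.base v))))} =
        Subtype.val '' {a | decCol hF a = Clr.base v} := by
      ext w
      simp only [Set.mem_ofPred_eq, Set.mem_image]
      constructor
      · intro hw
        exact ⟨⟨w, _, hw⟩, (decCol_iff hF _ _).1 hw, rfl⟩
      · rintro ⟨a, ha', rfl⟩
        exact (decCol_iff hF a _).2 ha'
    rw [e2, Set.ncard_image_of_injective _ Subtype.val_injective]
  have h9 : ∃ (N : ℕ) (cd : ColData (sysOf P d) (siz (decCol hF)) N),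
      Nonempty (SG cd ≃g matG A h1) := ⟨N, cd, h8⟩
  rw [hy] at h9
  exact h9

theorem Rs_complete (hd : 1 ≤ d) (n : ℕ) : ∃ q, Rs P d c n q := by
  classical
  obtain ⟨N, ⟨cd⟩⟩ := can_exists P d n (n + c)
  have hb : 2 ≤ canY P d n (n + c) .b := by
    have h1 : 1 ≤ 2 ^ (n + c) := Nat.one_le_two_pow
    have h2 : (2 ^ (n + c) + 1) ^ 1 ≤ (2 ^ (n + c) + 1) ^ d := Nat.pow_le_pow_right (by omega) hd
    rw [pow_one] at h2
    change 2 ≤ (2 ^ (n + c) + 1) ^ d
    omega
  let V := GV (Clr (sysOf P d)) (Rn (sysOf P d).D) (Elt (sysOf P d) (canY P d n (n + c)) N)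
    (erel cd)
  haveI : Fintype V := Fintype.ofFinite V
  let m := Fintype.card V
  let G : SimpleGraph (Fin m) := (SG cd).overFin rfl
  let f : SG cd ≃g G := (SG cd).overFinIso rfl
  let a : Elt (sysOf P d) (canY P d n (n + c)) N := .base .one ⟨0, Nat.one_pos⟩
  let env0 : Vr (Clr (sysOf P d)) (Rn (sysOf P d).D) ℕ → V := fun x => match x with
    | .lab l => stdLab l
    | .v _ => .el a
    | .u _ => .el a
  let w : Fin (nl P d + 1) → Fin m := fun i => if h : (i : ℕ) < nl P d then
    f (stdLab ((Fintype.equivFin (Lb P d)).symm ⟨i, h⟩)) else f (.el a)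
  let l : List ℕ := List.ofFn fun i => ((w i : Fin m) : ℕ)
  have hl : ∀ i (hi : i < nl P d + 1), l.getD i 0 = w ⟨i, hi⟩ := by
    intro i hi
    rw [List.getD_eq_getElem _ _ (by simp only [l, List.length_ofFn]; exact hi)]
    simp only [l, List.getElem_ofFn]
  have hl2 : ∀ x, l.getD (sg P d x) 0 = ((f (env0 x) : Fin m) : ℕ) := by
    intro x
    rw [hl _ (sg_lt P d x)]
    rcases x with lb | x | i
    · have h1 : ((Fintype.equivFin (Lb P d) lb : Fin _) : ℕ) < nl P d :=
        (Fintype.equivFin (Lb P d) lb).2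
      simp only [w, sg]
      rw [dif_pos h1]
      simp only [Fin.eta, Equiv.symm_apply_apply]
      rfl
    · simp only [w, sg]
      rw [dif_neg (by simp)]
    · simp only [w, sg]
      rw [dif_neg (by simp)]
  refine ⟨(adjMatrixList G, l), isG_adjMatrixList G, ?_, ?_, ?_⟩
  · intro i hi
    rw [List.mem_range] at hi
    simp only
    rw [hl i hi, length_adjMatrixList]
    exact (w _).2
  · have h1 : (fun x => l.getD (sg P d x) 0) = fun x => ((f (env0 x) : Fin m) : ℕ) :=
      funext hl2
    simp only
    rw [h1, evM_iff G, Fml.eval_congr' f]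
    apply std_eval_bodyF (ecol cd) (erel cd) (axF (sysOf P d)) a
    · rw [eval_axF]
      exact std_AM cd hb rfl
    · intro l; rfl
    · intro x; rfl
  · intro v
    simp only
    rw [hl2, cnt_eq]
    have h1 : {x | G.Adj x (f (env0 (.lab (.inl (.base v)))))} =
        f '' {x | (SG cd).Adj x (env0 (.lab (.inl (.base v))))} := by
      ext x
      simp only [Set.mem_ofPred_eq, Set.mem_image]
      constructor
      · intro hx
        obtain ⟨z, rfl⟩ := f.surjective x
        exact ⟨z, f.map_adj_iff.1 hx, rfl⟩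
      · rintro ⟨z, hz, rfl⟩
        exact f.map_adj_iff.2 hz
    rw [h1, Set.ncard_image_of_injective _ f.injective]
    have h2 : {x | (SG cd).Adj x (env0 (.lab (.inl (.base v))))} =
        (fun a => (GV.el a : V)) '' {a | ecol cd a = Clr.base v} := by
      ext x
      simp only [Set.mem_ofPred_eq, Set.mem_image]
      have h3 := std_pc (col := ecol cd) (R := erel cd) (Clr.base v) x
      change (SG cd).Adj x (env0 (.lab (.inl (.base v)))) ↔ _ at h3
      rw [h3]
      constructor
      · rintro ⟨a, rfl, ha⟩; exact ⟨a, ha, rfl⟩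
      · rintro ⟨a, ha, rfl⟩; exact ⟨a, rfl, ha⟩
    rw [h2, Set.ncard_image_of_injective _ (by intro a b hab; simpa using hab)]
    exact siz_ecol cd v

theorem primrec_canY (v : Var P.H) : Primrec fun n => canY P d n (n + c) v := by
  have hpow : Primrec₂ fun a b : ℕ => a ^ b := Primrec₂.unpaired'.1 Nat.Primrec.pow
  have h1 : Primrec fun n : ℕ => 2 ^ n + 1 :=
    Primrec.succ.comp (hpow.comp (Primrec.const 2) Primrec.id)
  have h2 : Primrec fun n : ℕ => 2 ^ (n + c) + 1 :=
    h1.comp (Primrec.nat_add.comp Primrec.id (Primrec.const c))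
  have h3 : Primrec fun n : ℕ => (2 ^ (n + c) + 1) ^ d := hpow.comp h2 (Primrec.const d)
  rcases v with _ | _ | _ | _ | h
  · exact h1
  · exact h2
  · exact h3
  · exact Primrec.const 1
  · exact h3

theorem primrec_Rs : PrimrecPred fun r : ℕ × (List (List Bool) × List ℕ) =>
    Rs P d c r.1 r.2 := by
  have hA : Primrec fun r : ℕ × (List (List Bool) × List ℕ) => r.2.1 :=
    Primrec.fst.comp Primrec.snd
  have hl : Primrec fun r : ℕ × (List (List Bool) × List ℕ) => r.2.2 :=
    Primrec.snd.comp Primrec.snd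
  refine PrimrecPred.and (primrec_isG.comp hA) (PrimrecPred.and ?_ (PrimrecPred.and ?_ ?_))
  · have hR : PrimrecRel fun (i : ℕ) (q : List (List Bool) × List ℕ) =>
        q.2.getD i 0 < q.1.length :=
      PrimrecRel.comp Primrec.nat_lt ((Primrec.list_getD 0).comp
        (Primrec.snd.comp Primrec.snd) Primrec.fst)
        (Primrec.list_length.comp (Primrec.fst.comp Primrec.snd))
    exact (PrimrecRel.forall_mem_list hR).comp (Primrec.const _) Primrec.snd
  · exact (primrec_evM (bodyF (axF (sysOf P d))) (sg P d)).comp Primrec.snd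
  · apply primrecPred_forall
    intro v
    exact PrimrecRel.comp Primrec.eq (primrec_cnt hA ((Primrec.list_getD 0).comp hl
      (Primrec.const _))) ((primrec_canY P d c v).comp Primrec.fst)

/-- a machine computing the logical depth would decide the set -/
theorem decide_of_depth (hp : REPred p) (D : List (List Bool) →. ℕ) (hD : Partrec D)
    (hDG : ∀ (n : ℕ) (_ : 0 < n) (G : SimpleGraph (Fin n)) [DecidableRel G.Adj],
      D (adjMatrixList G) = Part.some (logicalDepth G)) :
    ComputablePred fun n => p (2 ^ n + 1) := by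
  classical
  obtain ⟨P⟩ := exists_PD p hp
  obtain ⟨d, c, hd, hgap⟩ := gap_thm P
  let dc : ℕ → List (List Bool) × List ℕ := fun k =>
    (Encodable.decode (α := List (List Bool) × List ℕ) k).getD ([], [])
  have hdc : Primrec dc := Primrec.option_getD.comp Primrec.decode (Primrec.const _)
  have hdce : ∀ q, dc (Encodable.encode q) = q := by
    intro q
    simp only [dc]
    rw [Encodable.encodek]
    rfl
  let Q : ℕ → ℕ → Prop := fun n k => Rs P d c n (dc k)
  have hQ : ComputablePred fun r : ℕ × ℕ => Q r.1 r.2 :=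
    ((primrec_Rs P d c).comp (Primrec.pair Primrec.fst (hdc.comp Primrec.snd))).computablePred
  have hex : ∀ n, ∃ k, Q n k := by
    intro n
    obtain ⟨q, hq⟩ := Rs_complete P d c hd n
    exact ⟨Encodable.encode q, by simp only [Q]; rw [hdce]; exact hq⟩
  have hs : Computable fun n => Nat.find (hex n) := Computable.find hQ hex
  let A : ℕ → List (List Bool) := fun n => (dc (Nat.find (hex n))).1
  have hA : Computable A := (Computable.fst.comp (hdc.to_comp.comp hs))
  have hspec : ∀ n, Rs P d c n (dc (Nat.find (hex n))) := fun n => Nat.find_spec (hex n)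
  let Ld : ℕ → ℕ := fun n => logicalDepth (matG (A n) (hspec n).1)
  have hpos : ∀ n, 0 < (A n).length := by
    intro n
    have := (hspec n).2.1 0 (List.mem_range.2 (Nat.succ_pos _))
    exact lt_of_le_of_lt (Nat.zero_le _) this
  have hLd : Computable Ld := by
    have h1 : Partrec fun n => D (A n) := hD.comp hA
    refine h1.of_eq_tot fun n => ?_
    have h2 := hDG _ (hpos n) (matG (A n) (hspec n).1)
    rw [adjMatrixList_matG] at h2
    rw [h2]
    exact Part.mem_some _
  have hdec : ComputablePred fun n => n + c + c < Ld n := by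
    have h1 : PrimrecRel fun a b : ℕ => a + c + c < b :=
      PrimrecRel.comp Primrec.nat_lt (Primrec.nat_add.comp (Primrec.nat_add.comp Primrec.fst
        (Primrec.const c)) (Primrec.const c)) Primrec.snd
    have h2 : Computable₂ fun a b : ℕ => decide (a + c + c < b) := h1.decide.to_comp
    exact (h2.comp Computable.id hLd).computablePred
  refine hdec.of_eq fun n => ?_
  obtain ⟨N, cd, hiso⟩ := Rs_sound P d c (hspec n)
  exact (hgap n _ inferInstance _ N cd hiso).symm

open Nat.Partrec in
/-- **The logical depth of finite graphs is not computable.** -/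
theorem depth_not_computable : ¬ ∃ D : List (List Bool) →. ℕ, Partrec D ∧
    ∀ (n : ℕ) (_ : 0 < n) (G : SimpleGraph (Fin n)) [DecidableRel G.Adj],
      D (adjMatrixList G) = Part.some (logicalDepth G) := by
  classical
  rintro ⟨D, hD, hDG⟩
  let g : ℕ → ℕ := fun m => m.findGreatest fun n => 2 ^ n + 1 ≤ m
  have hg : Primrec g := by
    have hpow : Primrec₂ fun a b : ℕ => a ^ b := Primrec₂.unpaired'.1 Nat.Primrec.pow
    have hR : PrimrecRel fun (m n : ℕ) => 2 ^ n + 1 ≤ m :=
      PrimrecRel.comp Primrec.nat_le (Primrec.succ.comp (hpow.comp (Primrec.const 2)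
        Primrec.snd)) Primrec.fst
    exact Primrec.nat_findGreatest Primrec.id hR
  have hgn : ∀ n, g (2 ^ n + 1) = n := by
    intro n
    simp only [g]
    rw [Nat.findGreatest_eq_iff]
    refine ⟨?_, fun _ => le_rfl, ?_⟩
    · exact (Nat.lt_two_pow_self (n := n)).le.trans (Nat.le_succ _)
    · intro m hm _ hle
      have := Nat.pow_lt_pow_right (a := 2) (by norm_num) hm
      omega
  let p : ℕ → Prop := fun m => ((Denumerable.ofNat Code (g m)).eval 0).Dom
  have hp : REPred p := by
    have h1 := ComputablePred.halting_problem_re 0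
    have h2 : Computable fun m => Denumerable.ofNat Code (g m) :=
      ((Primrec.ofNat Code).comp hg).to_comp
    exact Partrec.comp h1 h2
  have h1 := decide_of_depth hp D hD hDG
  have h2 : ComputablePred fun c : Code => (c.eval 0).Dom := by
    have h3 : Computable fun c : Code => Encodable.encode c := Computable.encode
    have h4 : ComputablePred fun c : Code => p (2 ^ (Encodable.encode c) + 1) := by
      obtain ⟨h5, h6⟩ := h1
      exact (h6.comp h3).computablePred
    refine h4.of_eq fun c => ?_
    simp only [p]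
    rw [hgn, Denumerable.ofNat_encode]
  exact ComputablePred.halting_problem 0 h2

end Pool.Agent.Hhelper80.Depth
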