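import Pool.Agent.Hhelper80.Depth.Model

/-!
# The standard solution structures satisfy the axioms; existence, uniqueness and counting
-/

set_option linter.all false

namespace Pool.Agent.Hhelper80.Depth

variable {S : Sys} {y : Var S.H → ℕ} {N : ℕ}

theorem ecol_base_iff (c : ColData S y N) (a : Elt S y N) (v : Var S.H) :
    ecol c a = .base v ↔ ∃ i, a = .base v i := by
  rcases a with ⟨w, i⟩ | ⟨l, z⟩
  · simp only [ecol, Clr.base.injEq]
    constructor
    · rintro rfl; exact ⟨i, rfl⟩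
    · rintro ⟨j, hj⟩; cases hj; rfl
  · simp only [ecol, reduceCtorEq, exists_false, iff_false]
    split_ifs <;> simp

theorem ecol_edge_iff (c : ColData S y N) (hb : 2 ≤ y .b) (a : Elt S y N) (side : Bool)
    (m : Fin (S.s side)) :
    ecol c a = .edge side m ↔ ∃ (l : Fin (y .b)) (z : Fin N), a = .cell l z ∧
      (l : ℕ) = lv (y .b) side ∧ c.mon side z = m := by
  rcases a with ⟨w, i⟩ | ⟨l, z⟩
  · simp [ecol]
  · simp only [ecol]
    constructor
    · intro h
      refine ⟨l, z, rfl, ?_⟩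
      split_ifs at h with h0 h1
      · cases h; exact ⟨h0, rfl⟩
      · cases h; exact ⟨by simp only [lv]; omega, rfl⟩
    · rintro ⟨l', z', heq, h1, h2⟩
      cases heq
      cases side
      · simp only [lv] at h1
        rw [if_pos h1, h2]
      · simp only [lv] at h1
        rw [if_neg (by omega), if_pos (by omega), h2]

theorem std_row_iff (c : ColData S y N) (a r : Elt S y N) :
    erel c .row a r ↔ ∃ l z, a = .cell l z ∧ r = .base .b l := by
  rcases a with ⟨w, i⟩ | ⟨l, z⟩ <;> rcases r with ⟨w', i'⟩ | ⟨l', z'⟩ <;> simp only [erel]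
  · simp
  · simp
  · constructor
    · rintro ⟨rfl, h⟩
      exact ⟨l, z, rfl, by rw [show i' = l from Fin.ext h]⟩
    · rintro ⟨l1, z1, h1, h2⟩
      cases h1
      cases h2
      exact ⟨rfl, rfl⟩
  · simp

theorem std_lt_base (c : ColData S y N) (a : Elt S y N) (v : Var S.H) (i : Fin (y v)) :
    erel c .lt a (.base v i) ↔ ∃ j, a = .base v j ∧ j < i := by
  rcases a with ⟨w, k⟩ | ⟨l, z⟩ <;> simp only [erel]
  · constructor
    · rintro ⟨rfl, h⟩; exact ⟨k, rfl, h⟩
    · rintro ⟨j, h1, h2⟩; cases h1; exact ⟨rfl, h2⟩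
  · simp

theorem std_lt_base' (c : ColData S y N) (a : Elt S y N) (v : Var S.H) (i : Fin (y v)) :
    erel c .lt (.base v i) a ↔ ∃ j, a = .base v j ∧ i < j := by
  rcases a with ⟨w, k⟩ | ⟨l, z⟩ <;> simp only [erel]
  · constructor
    · rintro ⟨rfl, h⟩; exact ⟨k, rfl, h⟩
    · rintro ⟨j, h1, h2⟩; cases h1; exact ⟨rfl, h2⟩
  · simp

theorem std_up_iff (c : ColData S y N) (a b : Elt S y N) :
    erel c .up a b ↔ ∃ l l' z, a = .cell l z ∧ b = .cell l' z ∧ (l' : ℕ) = l + 1 := by
  rcases a with ⟨w, i⟩ | ⟨l, z⟩ <;> rcases b with ⟨w', i'⟩ | ⟨l', z'⟩ <;> simp only [erel]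
  · simp
  · simp
  · simp
  · constructor
    · rintro ⟨h, rfl⟩; exact ⟨l, l', z, rfl, rfl, h⟩
    · rintro ⟨l1, l2, z1, h1, h2, h3⟩; cases h1; cases h2; exact ⟨h3, rfl⟩

theorem std_co_iff (c : ColData S y N) (hb : 2 ≤ y .b) (j : Fin S.D) (a u : Elt S y N) :
    erel c (.co j) a u ↔ ∃ side, ∃ (l : Fin (y .b)) (z : Fin N), a = .cell l z ∧
      (l : ℕ) = lv (y .b) side ∧
      u = .base (S.al side (c.mon side z) j) ⟨c.crd side z j, c.bd side z j⟩ := by
  rcases a with ⟨w, i⟩ | ⟨l, z⟩ <;> rcases u with ⟨w', i'⟩ | ⟨l', z'⟩ <;> simp only [erel]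
  · simp
  · simp
  · constructor
    · rintro (⟨h1, rfl, h3⟩ | ⟨h1, rfl, h3⟩)
      · exact ⟨false, l, z, rfl, h1, by rw [Elt.base.injEq]; exact ⟨rfl, heq_of_eq (Fin.ext h3)⟩⟩
      · exact ⟨true, l, z, rfl, by simp only [lv]; omega, by
          rw [Elt.base.injEq]; exact ⟨rfl, heq_of_eq (Fin.ext h3)⟩⟩
    · rintro ⟨side, l1, z1, h1, h2, h3⟩
      cases h1
      cases h3
      cases side
      · exact Or.inl ⟨h2, rfl, rfl⟩
      · exact Or.inr ⟨by simp only [lv] at h2; omega, rfl, rfl⟩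
  · simp

theorem std_row_lt {c : ColData S y N} {l l' : Fin (y .b)} :
    (erel c .lt (.base .b l : Elt S y N) (.base .b l') ∧
      ∀ s, ¬ (erel c .lt (.base .b l : Elt S y N) s ∧ erel c .lt s (.base .b l'))) ↔
      (l' : ℕ) = l + 1 := by
  constructor
  · rintro ⟨h1, h2⟩
    simp only [erel, true_and] at h1
    by_contra hne
    apply h2 (.base .b ⟨l + 1, by omega⟩)
    simp only [erel, true_and]
    omega
  · intro h
    refine ⟨by simp only [erel, true_and]; omega, ?_⟩
    rintro s ⟨h1, h2⟩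
    rw [std_lt_base] at h2
    rw [std_lt_base'] at h1
    obtain ⟨j, rfl, h2⟩ := h2
    obtain ⟨j', h3, h1⟩ := h1
    cases h3
    rw [Fin.lt_def] at h1 h2
    omega

/-- the standard structures satisfy the axioms -/
theorem std_AM (c : ColData S y N) (hb : 2 ≤ y .b) (h1 : y .one = 1) :
    AM S (ecol c) (erel c) where
  irr := by
    rintro (⟨v, i⟩ | ⟨l, z⟩) <;> simp [erel]
  trans := by
    rintro (⟨v, i⟩ | ⟨l, z⟩) (⟨v', i'⟩ | ⟨l', z'⟩) (⟨v'', i''⟩ | ⟨l'', z''⟩) <;>
      simp only [erel] <;> try tauto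
    · rintro ⟨rfl, h⟩ ⟨rfl, h'⟩; exact ⟨rfl, by omega⟩
    · rintro ⟨rfl, h⟩ ⟨rfl, h'⟩; exact ⟨rfl, h.trans h'⟩
  lt_cl := by
    rintro (⟨v, i⟩ | ⟨l, z⟩) (⟨v', i'⟩ | ⟨l', z'⟩) h
    · simp only [erel] at h
      obtain ⟨rfl, h⟩ := h
      exact Or.inl ⟨v, rfl, rfl⟩
    · simp only [erel] at h
    · simp only [erel] at h
    · simp only [erel] at h
      obtain ⟨rfl, h⟩ := h
      exact Or.inr ⟨.base .b l, by simp [erel], by simp [erel]⟩
  tot_base := by
    intro v a b ha hb
    rw [ecol_base_iff] at ha hb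
    obtain ⟨i, rfl⟩ := ha
    obtain ⟨j, rfl⟩ := hb
    simp only [erel, true_and]
    rcases lt_trichotomy i j with h | h | h
    · exact Or.inr (Or.inl h)
    · exact Or.inl (by rw [h])
    · exact Or.inr (Or.inr h)
  tot_row := by
    intro a b r ha hb
    rw [std_row_iff] at ha hb
    obtain ⟨l, z, rfl, rfl⟩ := ha
    obtain ⟨l', z', rfl, h⟩ := hb
    cases h
    simp only [erel, true_and]
    rcases lt_trichotomy z z' with h | h | h
    · exact Or.inr (Or.inl h)
    · exact Or.inl (by rw [h])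
    · exact Or.inr (Or.inr h)
  row_ex := by
    rintro (⟨v, i⟩ | ⟨l, z⟩)
    · exact Or.inl ⟨v, rfl⟩
    · exact Or.inr ⟨.base .b l, (std_row_iff _ _ _).2 ⟨l, z, rfl, rfl⟩⟩
  row_un := by
    intro a r r' hr hr'
    rw [std_row_iff] at hr hr'
    obtain ⟨l, z, rfl, rfl⟩ := hr
    obtain ⟨l', z', h, rfl⟩ := hr'
    cases h
    rfl
  row_cod := by
    intro a r hr
    rw [std_row_iff] at hr
    obtain ⟨l, z, rfl, rfl⟩ := hr
    refine ⟨fun v => ?_, rfl⟩
    rw [ecol_base_iff]
    simp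
  edge_min := by
    intro a r hr
    rw [std_row_iff] at hr
    obtain ⟨l, z, rfl, rfl⟩ := hr
    simp only [ecol_edge_iff c hb, std_lt_base]
    constructor
    · rintro ⟨m, l', z', h, h2, h3⟩ r' ⟨j, rfl, hj⟩
      cases h
      simp only [lv] at h2
      rw [Fin.lt_def] at hj
      omega
    · intro h
      refine ⟨c.mon false z, l, z, rfl, ?_, rfl⟩
      by_contra hne
      simp only [lv] at hne
      exact h (.base .b ⟨0, by omega⟩) ⟨_, rfl, by rw [Fin.lt_def]; simp only; omega⟩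
  edge_max := by
    intro a r hr
    rw [std_row_iff] at hr
    obtain ⟨l, z, rfl, rfl⟩ := hr
    simp only [ecol_edge_iff c hb, std_lt_base']
    constructor
    · rintro ⟨m, l', z', h, h2, h3⟩ r' ⟨j, rfl, hj⟩
      cases h
      simp only [lv] at h2
      rw [Fin.lt_def] at hj
      omega
    · intro h
      refine ⟨c.mon true z, l, z, rfl, ?_, rfl⟩
      by_contra hne
      simp only [lv] at hne
      exact h (.base .b ⟨y .b - 1, by omega⟩) ⟨_, rfl, by rw [Fin.lt_def]; simp only; omega⟩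
  up_cod := by
    intro a b hab
    rw [std_up_iff] at hab
    obtain ⟨l, l', z, rfl, rfl, h⟩ := hab
    refine ⟨.base .b l, .base .b l', (std_row_iff _ _ _).2 ⟨l, z, rfl, rfl⟩,
      (std_row_iff _ _ _).2 ⟨l', z, rfl, rfl⟩, ?_⟩
    exact std_row_lt.2 h
  up_tot := by
    intro a r r' hr h2 h3
    rw [std_row_iff] at hr
    obtain ⟨l, z, rfl, rfl⟩ := hr
    have h2' := h2
    rw [std_lt_base'] at h2'
    obtain ⟨l', rfl, _⟩ := h2'
    have h4 := std_row_lt.1 ⟨h2, h3⟩
    exact ⟨.cell l' z, (std_up_iff _ _ _).2 ⟨l, l', z, rfl, rfl, h4⟩⟩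
  up_sur := by
    intro b r r' hr h2 h3
    rw [std_row_iff] at hr
    obtain ⟨l', z, rfl, rfl⟩ := hr
    have h2' := h2
    rw [std_lt_base] at h2'
    obtain ⟨l, rfl, _⟩ := h2'
    have h4 := std_row_lt.1 ⟨h2, h3⟩
    exact ⟨.cell l z, (std_up_iff _ _ _).2 ⟨l, l', z, rfl, rfl, h4⟩⟩
  up_fun := by
    intro a b b' hab hab'
    rw [std_up_iff] at hab hab'
    obtain ⟨l, l', z, rfl, rfl, h⟩ := hab
    obtain ⟨m, m', z', h2, rfl, h'⟩ := hab'
    cases h2
    rw [show l' = m' from Fin.ext (by omega)]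
  up_mono := by
    intro a b a' b' hab hab' hlt
    rw [std_up_iff] at hab hab'
    obtain ⟨l, l', z, rfl, rfl, h⟩ := hab
    obtain ⟨m, m', z', rfl, rfl, h'⟩ := hab'
    simp only [erel] at hlt ⊢
    obtain ⟨rfl, hlt⟩ := hlt
    exact ⟨Fin.ext (by omega), hlt⟩
  co_cod := by
    intro j a u h
    rw [std_co_iff c hb] at h
    obtain ⟨side, l, z, rfl, hl, rfl⟩ := h
    exact ⟨side, c.mon side z, (ecol_edge_iff c hb _ _ _).2 ⟨l, z, rfl, hl, rfl⟩, rfl⟩
  co_tot := by
    intro j side m a ha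
    rw [ecol_edge_iff c hb] at ha
    obtain ⟨l, z, rfl, hl, rfl⟩ := ha
    exact ⟨_, (std_co_iff c hb _ _ _).2 ⟨side, l, z, rfl, hl, rfl⟩⟩
  co_un := by
    intro j a u u' h h'
    rw [std_co_iff c hb] at h h'
    obtain ⟨side, l, z, rfl, hl, rfl⟩ := h
    obtain ⟨side', l', z', h2, hl', rfl⟩ := h'
    cases h2
    have : side = side' := by
      cases side <;> cases side' <;> simp only [lv] at hl hl' <;> first | rfl | omega
    subst this
    rfl
  co_sur := by
    intro side m u hu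
    choose t ht using fun j => (ecol_base_iff c (u j) _).1 (hu j)
    obtain ⟨z, hz1, hz2⟩ := c.surj side m (fun j => t j) (fun j => (t j).2)
    refine ⟨.cell ⟨lv (y .b) side, ?_⟩ z, ?_, ?_⟩
    · cases side <;> simp only [lv] <;> omega
    · exact (ecol_edge_iff c hb _ _ _).2 ⟨_, z, rfl, rfl, hz1⟩
    · intro j
      rw [std_co_iff c hb]
      refine ⟨side, _, z, rfl, rfl, ?_⟩
      rw [ht j]
      subst hz1
      rw [Elt.base.injEq]
      refine ⟨rfl, heq_of_eq (Fin.ext ?_)⟩
      exact (congrFun hz2 j).symm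
  ord_mon := by
    intro side m m' hm a b ha hb'
    rw [ecol_edge_iff c hb] at ha hb'
    obtain ⟨l, z, rfl, hl, rfl⟩ := ha
    obtain ⟨l', z', rfl, hl', rfl⟩ := hb'
    simp only [erel]
    exact ⟨Fin.ext (by omega), (c.lt_iff side z z').2 (Or.inl hm)⟩
  ord_lex := by
    intro side m i a b ha hb' hj hi
    rw [ecol_edge_iff c hb] at ha hb'
    obtain ⟨l, z, rfl, hl, rfl⟩ := ha
    obtain ⟨l', z', rfl, hl', hm⟩ := hb'
    have key : ∀ (j : Fin S.D) (l : Fin (y .b)) (z : Fin N), (l : ℕ) = lv (y .b) side → ∀ u,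
        erel c (.co j) (.cell l z) u →
        u = .base (S.al side (c.mon side z) j) ⟨c.crd side z j, c.bd side z j⟩ := by
      intro j l z hl u hu
      rw [std_co_iff c hb] at hu
      obtain ⟨side', l1, z1, h2, hl1, rfl⟩ := hu
      cases h2
      have : side = side' := by
        cases side <;> cases side' <;> simp only [lv] at hl hl1 <;> first | rfl | omega
      subst this
      rfl
    simp only [erel]
    refine ⟨Fin.ext (by omega), (c.lt_iff side z z').2 (Or.inr ⟨hm.symm, i, ?_, ?_⟩)⟩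
    · intro j hji
      obtain ⟨u, hu1, hu2⟩ := hj j hji
      have e1 := key j _ _ hl _ hu1
      have e2 := key j _ _ hl' _ hu2
      rw [e1, Elt.base.injEq] at e2
      have e3 := e2.2
      have hmm : S.al side (c.mon side z) j = S.al side (c.mon side z') j := by rw [hm]
      have := (Fin.heq_ext_iff (by rw [hmm])).1 e3
      exact this
    · obtain ⟨u, u', hu1, hu2, hlt⟩ := hi
      have e1 := key i _ _ hl _ hu1
      have e2 := key i _ _ hl' _ hu2
      rw [e1, e2] at hlt
      simp only [erel] at hlt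
      exact hlt.2
  ord_eq := by
    intro side m a b ha hb' hj
    rw [ecol_edge_iff c hb] at ha hb'
    obtain ⟨l, z, rfl, hl, rfl⟩ := ha
    obtain ⟨l', z', rfl, hl', hm⟩ := hb'
    have key : ∀ (j : Fin S.D) (l : Fin (y .b)) (z : Fin N), (l : ℕ) = lv (y .b) side → ∀ u,
        erel c (.co j) (.cell l z) u →
        u = .base (S.al side (c.mon side z) j) ⟨c.crd side z j, c.bd side z j⟩ := by
      intro j l z hl u hu
      rw [std_co_iff c hb] at hu
      obtain ⟨side', l1, z1, h2, hl1, rfl⟩ := hu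
      cases h2
      have : side = side' := by
        cases side <;> cases side' <;> simp only [lv] at hl hl1 <;> first | rfl | omega
      subst this
      rfl
    have hz : z = z' := by
      apply c.inj side hm.symm
      funext j
      obtain ⟨u, hu1, hu2⟩ := hj j
      have e1 := key j _ _ hl _ hu1
      have e2 := key j _ _ hl' _ hu2
      rw [e1, Elt.base.injEq] at e2
      have e3 := e2.2
      have hmm : S.al side (c.mon side z) j = S.al side (c.mon side z') j := by rw [hm]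
      have := (Fin.heq_ext_iff (by rw [hmm])).1 e3
      exact this
    rw [hz, show l = l' from Fin.ext (by omega)]
  one := by
    refine ⟨.base .one ⟨0, by omega⟩, rfl, ?_⟩
    intro b hb'
    rw [ecol_base_iff] at hb'
    obtain ⟨i, rfl⟩ := hb'
    rw [Elt.base.injEq]
    refine ⟨rfl, heq_of_eq (Fin.ext ?_)⟩
    have := i.2
    simp only
    omega

end Pool.Agent.Hhelper80.Depth
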