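import Pool.Agent.Hhelper80.Depth.Encode

/-!
# The structures coding solutions of Diophantine systems
-/

set_option linter.all false

namespace Pool.Agent.Hhelper80.Depth

/-- sorts: `n` (instance), `k` (visible parameter), `b` (number of rows), `one` (unit sort) and the
hidden sorts -/
inductive Var (H : Type) : Type
  | n | k | b | one
  | h (i : H)
  deriving DecidableEq

/-- hidden sorts -/
def Var.hid {H : Type} : Var H → Bool
  | .h _ => true
  | _ => false

/-- a Diophantine system: two sums of monomials of degree `D` -/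
structure Sys where
  H : Type
  [finH : Fintype H]
  [decH : DecidableEq H]
  D : ℕ
  s : Bool → ℕ
  al : (side : Bool) → Fin (s side) → Fin D → Var H

attribute [instance] Sys.finH Sys.decH

/-- colours of elements -/
inductive Clr (S : Sys) : Type
  | base (v : Var S.H)
  | mid
  | edge (side : Bool) (m : Fin (S.s side))
  deriving DecidableEq

/-- relation names -/
inductive Rn (D : ℕ) : Type
  | lt | up | row
  | co (i : Fin D)
  deriving DecidableEq

/-- description of the bottom and top rows of the wire by tuples -/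
structure ColData (S : Sys) (y : Var S.H → ℕ) (N : ℕ) where
  mon : (side : Bool) → Fin N → Fin (S.s side)
  crd : Bool → Fin N → Fin S.D → ℕ
  bd : ∀ side z i, crd side z i < y (S.al side (mon side z) i)
  surj : ∀ side m (t : Fin S.D → ℕ), (∀ i, t i < y (S.al side m i)) →
    ∃ z, mon side z = m ∧ crd side z = t
  lt_iff : ∀ side z z', z < z' ↔ mon side z < mon side z' ∨
    (mon side z = mon side z' ∧ ∃ i, (∀ j < i, crd side z j = crd side z' j) ∧
      crd side z i < crd side z' i)

theorem ColData.inj {S : Sys} {y : Var S.H → ℕ} {N : ℕ} (c : ColData S y N) (side : Bool)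
    {z z' : Fin N} (h1 : c.mon side z = c.mon side z') (h2 : c.crd side z = c.crd side z') :
    z = z' := by
  rcases lt_trichotomy z z' with h | h | h
  · rw [c.lt_iff side, h1, h2] at h
    rcases h with h | ⟨_, i, _, h⟩
    · exact absurd h (lt_irrefl _)
    · exact absurd h (lt_irrefl _)
  · exact h
  · rw [c.lt_iff side, h1, h2] at h
    rcases h with h | ⟨_, i, _, h⟩
    · exact absurd h (lt_irrefl _)
    · exact absurd h (lt_irrefl _)

/-- elements of the structure -/
inductive Elt (S : Sys) (y : Var S.H → ℕ) (N : ℕ) : Type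
  | base (v : Var S.H) (i : Fin (y v))
  | cell (l : Fin (y .b)) (z : Fin N)

variable {S : Sys} {y : Var S.H → ℕ} {N : ℕ}

/-- colour of an element -/
def ecol (c : ColData S y N) : Elt S y N → Clr S
  | .base v _ => .base v
  | .cell l z => if (l : ℕ) = 0 then .edge false (c.mon false z)
      else if (l : ℕ) + 1 = y .b then .edge true (c.mon true z) else .mid

/-- relations of the structure -/
def erel (c : ColData S y N) : Rn S.D → Elt S y N → Elt S y N → Prop
  | .lt, .base v i, .base v' i' => v = v' ∧ (i : ℕ) < i'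
  | .lt, .cell l z, .cell l' z' => l = l' ∧ z < z'
  | .up, .cell l z, .cell l' z' => (l' : ℕ) = l + 1 ∧ z = z'
  | .row, .cell l _, .base v i => v = .b ∧ (i : ℕ) = l
  | .co j, .cell l z, .base v i =>
      ((l : ℕ) = 0 ∧ v = S.al false (c.mon false z) j ∧ (i : ℕ) = c.crd false z j) ∨
      ((l : ℕ) + 1 = y .b ∧ v = S.al true (c.mon true z) j ∧ (i : ℕ) = c.crd true z j)
  | _, _, _ => False

/-- the graph of a solution -/
def SG (c : ColData S y N) : SimpleGraph (GV (Clr S) (Rn S.D) (Elt S y N) (erel c)) :=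
  GG (ecol c) (erel c)

/-! ### Truncated distances -/

/-- the pairs in `P` have the same order type and the same distances truncated at `2 ^ q` -/
def Close (q : ℕ) (P : List (ℕ × ℕ)) : Prop :=
  ∀ a ∈ P, ∀ b ∈ P, (a.1 < b.1 ↔ a.2 < b.2) ∧
    (a.1 ≤ b.1 → (b.1 - a.1 = b.2 - a.2 ∨ (2 ^ q ≤ b.1 - a.1 ∧ 2 ^ q ≤ b.2 - a.2)))

theorem Close.eq_iff {q : ℕ} {P : List (ℕ × ℕ)} (h : Close q P) {a b : ℕ × ℕ} (ha : a ∈ P)
    (hb : b ∈ P) : a.1 = b.1 ↔ a.2 = b.2 := by
  have h1 := (h a ha b hb).1
  have h2 := (h b hb a ha).1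
  omega

theorem Close.swap {q : ℕ} {P : List (ℕ × ℕ)} (h : Close q P) : Close q (P.map Prod.swap) := by
  intro a ha b hb
  simp only [List.mem_map] at ha hb
  obtain ⟨a, ha, rfl⟩ := ha
  obtain ⟨b, hb, rfl⟩ := hb
  have h1 := h a ha b hb
  have h2 := h b hb a ha
  simp only [Prod.swap]
  omega

theorem Close.mono {q q' : ℕ} {P : List (ℕ × ℕ)} (h : Close q P) (hq : q' ≤ q) : Close q' P := by
  intro a ha b hb
  have h1 := h a ha b hb
  have h2 : 2 ^ q' ≤ 2 ^ q := Nat.pow_le_pow_right (by norm_num) hq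
  refine ⟨h1.1, fun hle => ?_⟩
  rcases h1.2 hle with h | h
  · exact Or.inl h
  · exact Or.inr (by omega)

/-- one step extension -/
theorem Close.extend {q : ℕ} {P : List (ℕ × ℕ)} (h : Close (q + 1) P) {m m' : ℕ}
    (h0 : (0, 0) ∈ P) (hm : (m, m') ∈ P) (x : ℕ) (hx : x ≤ m) :
    ∃ x' ≤ m', Close q ((x, x') :: P) := by
  classical
  by_cases hex : ∃ p ∈ P, p.1 = x
  · obtain ⟨p, hp, rfl⟩ := hex
    refine ⟨p.2, ?_, ?_⟩
    · have h1 := (h _ hm _ hp).1
      simp only at h1
      omega
    · have h' := h.mono (Nat.le_succ q)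
      intro a ha b hb
      rcases List.mem_cons.1 ha with rfl | ha <;> rcases List.mem_cons.1 hb with rfl | hb
      · exact h' p hp p hp
      · exact h' p hp b hb
      · exact h' a ha p hp
      · exact h' a ha b hb
  · push Not at hex
    -- nearest points below and above
    obtain ⟨lo, hloP, hlox, hlomax⟩ : ∃ lo ∈ P, lo.1 < x ∧ ∀ p ∈ P, p.1 < x → p.1 ≤ lo.1 := by
      have hne : ((P.toFinset.filter fun p => p.1 < x)).Nonempty := by
        refine ⟨(0, 0), ?_⟩
        simp only [Finset.mem_filter, List.mem_toFinset]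
        have := hex _ h0
        exact ⟨h0, by simp only at this ⊢; omega⟩
      obtain ⟨lo, hlo, hmax⟩ := Finset.exists_max_image _ (fun p : ℕ × ℕ => p.1) hne
      simp only [Finset.mem_filter, List.mem_toFinset] at hlo hmax
      exact ⟨lo, hlo.1, hlo.2, fun p hp hpx => hmax p ⟨hp, hpx⟩⟩
    obtain ⟨hi, hhiP, hhix, hhimin⟩ : ∃ hi ∈ P, x < hi.1 ∧ ∀ p ∈ P, x < p.1 → hi.1 ≤ p.1 := by
      have hne : ((P.toFinset.filter fun p => x < p.1)).Nonempty := by
        refine ⟨(m, m'), ?_⟩
        simp only [Finset.mem_filter, List.mem_toFinset]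
        have := hex _ hm
        exact ⟨hm, by simp only at this ⊢; omega⟩
      obtain ⟨hi, hhi, hmin⟩ := Finset.exists_min_image _ (fun p : ℕ × ℕ => p.1) hne
      simp only [Finset.mem_filter, List.mem_toFinset] at hhi hmin
      exact ⟨hi, hhi.1, hhi.2, fun p hp hpx => hmin p ⟨hp, hpx⟩⟩
    have hpow : 2 ^ (q + 1) = 2 ^ q + 2 ^ q := by rw [pow_succ]; ring
    have hlh := h lo hloP hi hhiP
    have hposq : 0 < 2 ^ q := by positivity
    -- the choice of x'
    obtain ⟨x', hx1, hx2, hx3, hx4⟩ : ∃ x', lo.2 < x' ∧ x' < hi.2 ∧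
        (x - lo.1 = x' - lo.2 ∨ (2 ^ q ≤ x - lo.1 ∧ 2 ^ q ≤ x' - lo.2)) ∧
        (hi.1 - x = hi.2 - x' ∨ (2 ^ q ≤ hi.1 - x ∧ 2 ^ q ≤ hi.2 - x')) := by
      have hlt : lo.2 < hi.2 := hlh.1.1 (by omega)
      rcases hlh.2 (by omega) with heq | ⟨hb1, hb2⟩
      · exact ⟨lo.2 + (x - lo.1), by omega, by omega, by omega, by omega⟩
      · by_cases hc1 : x - lo.1 < 2 ^ q
        · exact ⟨lo.2 + (x - lo.1), by omega, by omega, by omega, by omega⟩
        · by_cases hc2 : hi.1 - x < 2 ^ q
          · exact ⟨hi.2 - (hi.1 - x), by omega, by omega, by omega, by omega⟩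
          · exact ⟨lo.2 + 2 ^ q, by omega, by omega, by omega, by omega⟩
    have hhim : hi.2 ≤ m' := by
      have h1 := (h _ hm _ hhiP).1
      have h2 := hhimin _ hm (by have := hex _ hm; simp only at this ⊢; omega)
      simp only at h1 h2
      omega
    refine ⟨x', by omega, ?_⟩
    -- comparison of the new point with an old one
    have hnew : ∀ p ∈ P, ((p.1 < x ↔ p.2 < x') ∧ (x < p.1 ↔ x' < p.2)) ∧
        (p.1 ≤ x → (x - p.1 = x' - p.2 ∨ (2 ^ q ≤ x - p.1 ∧ 2 ^ q ≤ x' - p.2))) ∧
        (x ≤ p.1 → (p.1 - x = p.2 - x' ∨ (2 ^ q ≤ p.1 - x ∧ 2 ^ q ≤ p.2 - x'))) := by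
      intro p hp
      have hpx := hex p hp
      have a1 := h p hp lo hloP
      have a2 := h lo hloP p hp
      have a3 := h p hp hi hhiP
      have a4 := h hi hhiP p hp
      rcases lt_or_gt_of_ne hpx with hlt | hgt
      · have b1 := hlomax p hp hlt
        have b2 := a1.2 b1
        refine ⟨⟨?_, ?_⟩, ?_, ?_⟩
        · constructor
          · intro _; omega
          · intro _; exact hlt
        · constructor
          · intro _; omega
          · intro _; omega
        · intro _; omega
        · intro _; omega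
      · have b1 := hhimin p hp hgt
        have b2 := a4.2 b1
        refine ⟨⟨?_, ?_⟩, ?_, ?_⟩
        · constructor
          · intro _; omega
          · intro _; omega
        · constructor
          · intro _; omega
          · intro _; exact hgt
        · intro _; omega
        · intro _; omega
    have h' := h.mono (Nat.le_succ q)
    intro a ha b hb
    rcases List.mem_cons.1 ha with rfl | ha <;> rcases List.mem_cons.1 hb with rfl | hb
    · exact ⟨Iff.rfl.trans (by simp), fun _ => Or.inl (by simp)⟩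
    · exact ⟨(hnew b hb).1.2, (hnew b hb).2.2⟩
    · exact ⟨(hnew a ha).1.1, (hnew a ha).2.1⟩
    · exact h' a ha b hb

end Pool.Agent.Hhelper80.Depth
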