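import Pool.Agent.Hhelper80.Depth.Arith
import Pool.Agent.Hhelper80.Depth.Game

/-!
# The systems attached to a recursively enumerable set
-/

set_option linter.all false

namespace Pool.Agent.Hhelper80.Depth

variable {p : ℕ → Prop} (P : PD p) (d : ℕ)

/-- the monomials of the system -/
def lstOf : Bool → List (List (Var P.H))
  | false => [] :: (P.A ++ [[.b, .b], List.replicate (2 * d) .k])
  | true => [] :: (P.B ++ [.b :: List.replicate d .k, .b :: List.replicate d .k])

/-- a bound for the degrees -/
def degOf : ℕ := (((lstOf P d false) ++ (lstOf P d true)).map List.length).sum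

/-- the system of degree parameter `d` -/
def sysOf : Sys where
  H := P.H
  D := degOf P d
  s side := (lstOf P d side).length
  al side m i := ((lstOf P d side).get m).getD i .one

/-- a bound for the number of hidden coordinates in a monomial -/
def hidOf : ℕ := ((P.A ++ P.B).map List.length).sum + 1

theorem length_le_sum {α : Type} (L : List (List α)) (m : List α) (hm : m ∈ L) :
    m.length ≤ (L.map List.length).sum := by
  induction L with
  | nil => simp at hm
  | cons a L ih =>
    simp only [List.map_cons, List.sum_cons]
    rcases List.mem_cons.1 hm with rfl | h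
    · omega
    · have := ih h; omega

theorem sysOf_one (side : Bool) : ∃ m, ∀ j, (sysOf P d).al side m j = .one := by
  cases side
  · exact ⟨⟨0, by simp [sysOf, lstOf]⟩, fun j => rfl⟩
  · exact ⟨⟨0, by simp [sysOf, lstOf]⟩, fun j => rfl⟩

theorem hcount_list {H : Type} (l : List (Var H)) (D n : ℕ)
    (h : l.length ≤ n ∨ ∀ v ∈ l, v.hid = false) :
    (Finset.univ.filter fun i : Fin D => (l.getD i .one).hid = true).card ≤ n := by
  rcases h with h | h
  · have : (Finset.univ.filter fun i : Fin D => (l.getD i .one).hid = true).card ≤
        (Finset.range l.length).card := by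
      apply Finset.card_le_card_of_injOn (fun i : Fin D => (i : ℕ))
      · intro i hi
        simp only [Finset.coe_filter, Finset.mem_univ, true_and, Set.mem_ofPred_eq] at hi
        simp only [Finset.coe_range, Set.mem_Iio]
        by_contra hcon
        push Not at hcon
        rw [List.getD_eq_default _ _ hcon] at hi
        simp [Var.hid] at hi
      · intro i _ j _ hij
        exact Fin.ext hij
    rw [Finset.card_range] at this
    omega
  · have : (Finset.univ.filter fun i : Fin D => (l.getD i .one).hid = true) = ∅ := by
      apply Finset.filter_eq_empty_iff.2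
      intro i _
      by_cases hi : (i : ℕ) < l.length
      · rw [List.getD_eq_getElem _ _ hi, h _ (List.getElem_mem hi)]
        simp
      · rw [List.getD_eq_default _ _ (by omega)]
        simp [Var.hid]
    rw [this]
    simp

theorem sysOf_hcount (side : Bool) (m : Fin ((sysOf P d).s side)) :
    hcount (sysOf P d) side m ≤ hidOf P := by
  unfold hcount
  set l : List (Var P.H) := (lstOf P d side).get m with hl
  have hmem : l ∈ lstOf P d side := List.get_mem _ _
  have hcases : l.length ≤ ((P.A ++ P.B).map List.length).sum ∨ ∀ v ∈ l, v.hid = false := by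
    cases side
    · simp only [lstOf, List.mem_cons, List.mem_append, List.not_mem_nil, or_false] at hmem
      rcases hmem with h | h | h | h
      · left; rw [h]; simp
      · left; exact length_le_sum _ _ (List.mem_append_left _ h)
      · right; rw [h]; simp [Var.hid]
      · right; rw [h]
        intro v hv
        rw [List.eq_of_mem_replicate hv]; rfl
    · simp only [lstOf, List.mem_cons, List.mem_append, List.not_mem_nil, or_false] at hmem
      rcases hmem with h | h | h | h
      · left; rw [h]; simp
      · left; exact length_le_sum _ _ (List.mem_append_right _ h)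
      · right; rw [h]
        intro v hv
        rcases List.mem_cons.1 hv with rfl | hv
        · rfl
        · rw [List.eq_of_mem_replicate hv]; rfl
      · right; rw [h]
        intro v hv
        rcases List.mem_cons.1 hv with rfl | hv
        · rfl
        · rw [List.eq_of_mem_replicate hv]; rfl
  exact (hcount_list l (degOf P d) _ hcases).trans (Nat.le_succ _)

theorem prod_getD {H : Type} (y : Var H → ℕ) (h1 : y .one = 1) (l : List (Var H)) :
    ∀ D, l.length ≤ D → ∏ i : Fin D, y (l.getD i .one) = (l.map y).prod := by
  induction l with
  | nil => intro D _; simp [h1]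
  | cons v l ih =>
    intro D hD
    obtain ⟨D, rfl⟩ := Nat.exists_eq_add_of_le' (show 1 ≤ D by simp at hD; omega)
    rw [Fin.prod_univ_succ]
    simp only [List.map_cons, List.prod_cons]
    have := ih D (by simpa using hD)
    rw [← this]
    rfl

theorem sum_get {α : Type} (g : α → ℕ) (l : List α) :
    ∑ m : Fin l.length, g (l.get m) = (l.map g).sum := by
  induction l with
  | nil => rfl
  | cons a l ih =>
    simp only [List.length_cons]
    rw [Fin.sum_univ_succ]
    simp only [List.map_cons, List.sum_cons]
    rw [← ih]
    rfl

theorem sysOf_val (y : Var P.H → ℕ) (h1 : y .one = 1) (side : Bool) :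
    val (sysOf P d) y side = evL (lstOf P d side) y := by
  unfold val evL
  rw [← sum_get]
  refine Finset.sum_congr rfl fun m _ => ?_
  have hlen : ((lstOf P d side).get m).length ≤ degOf P d := by
    apply length_le_sum
    cases side
    · exact List.mem_append_left _ (List.get_mem _ _)
    · exact List.mem_append_right _ (List.get_mem _ _)
  exact prod_getD y h1 _ _ hlen

theorem sysOf_eq_iff (y : Var P.H → ℕ) (h1 : y .one = 1) :
    val (sysOf P d) y false = val (sysOf P d) y true ↔
      evL P.A y = evL P.B y ∧ y .b = y .k ^ d := by
  rw [sysOf_val P d y h1, sysOf_val P d y h1]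
  simp only [lstOf, evL_cons, evL_append, evL_nil, List.map_nil, List.prod_nil, List.map_cons,
    List.prod_cons, List.map_replicate, List.prod_replicate, mul_one, add_zero]
  have h2 := P.le y
  have h3 : y .k ^ (2 * d) = y .k ^ d * y .k ^ d := by rw [two_mul, pow_add]
  rw [h3]
  generalize y .k ^ d = w
  generalize y .b = b
  constructor
  · intro h
    have h4 : (b * b + w * w : ℤ) - 2 * (b * w) = ((b : ℤ) - w) * (b - w) := by ring
    have h5 : (0 : ℤ) ≤ ((b : ℤ) - w) * (b - w) := mul_self_nonneg _
    have h6 : (1 + (evL P.A y + (b * b + w * w)) : ℤ) = 1 + (evL P.B y + (b * w + b * w)) := by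
      exact_mod_cast h
    have h7 : (evL P.B y : ℤ) ≤ evL P.A y := by exact_mod_cast h2
    have h8 : ((b : ℤ) - w) * (b - w) = 0 := by linarith
    have h9 : (b : ℤ) = w := by
      rcases mul_eq_zero.1 h8 with h | h <;> linarith
    have h10 : b = w := by exact_mod_cast h9
    subst h10
    refine ⟨by omega, rfl⟩
  · rintro ⟨h4, rfl⟩
    rw [h4]

end Pool.Agent.Hhelper80.Depth
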